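import Pool.Agent.X56.PN.Fin1

set_option autoImplicit false

/-!
Conjecture F on average over an arithmetic progression of triples: the end.
-/

namespace Pool.Agent.X56.PN
open Finset Filter Topology
open Pool.Agent.W468.ConjF
open Pool.Agent.W218.HF (Wz Pz Wz_pos PS rough_low rough_euler count_low_real)
open Pool.Agent.W218.HF.QFinal (eps gcdProd cutC CF_eq gcdProd_pos eps_pos)

open Classical in
lemma uns_low (a : ℕ) (ha : 1 ≤ a) (b c a₀ b₀ c₀ : ℤ) (hR : Res a b c a₀ b₀ c₀ ≠ 0) (n z x t0 : ℕ)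
    (ht0 : b.natAbs + c.natAbs ≤ t0) (hz : 2 ≤ z) (hzR : (Res a b c a₀ b₀ c₀).natAbs ≤ z)
    (hadm : Admissible (a₀ + n * a) (b₀ + n * b) (c₀ + n * c)) (H : ℕ → ℕ) (G : ℕ → ℤ)
    (hH : ∀ t : ℕ, H t = ((a : ℤ) * (t : ℤ) ^ 2 + b * t + c).toNat) (hG : ∀ t : ℕ, G t = a₀ * (t : ℤ) ^ 2 + b₀ * t + c₀) :
    ((x : ℝ) - ((∏ p ∈ PS z, p : ℕ) : ℝ) * (1 + t0)) * (2 * CF (a₀ + n * a) (b₀ + n * b) (c₀ + n * c) z) ≤
      unsL z n H G (TT a b c a₀ b₀ c₀ t0 x) / Wz z := by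
  set A : ℤ := a₀ + n * a with hA
  set B : ℤ := b₀ + n * b with hB
  set C : ℤ := c₀ + n * c with hC
  have hWz := Wz_pos z
  rw [le_div_iff₀ hWz]
  have h1 := rough_low A B C z x
  have h2 := rough_euler A B C hadm z hz
  set Pq : ℝ := ∏ p ∈ PS z, (1 - (nr A B C p : ℝ) / p) with hPd
  have hPe : Pq = Wz z * (2 * CF A B C z) := h2
  have hP0 : 0 < Pq := by rw [hPe]; have := CF_pos A B C z; positivity
  set M : ℝ := ((∏ p ∈ PS z, p : ℕ) : ℝ) with hM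
  have hpr : ∀ p ∈ PS z, p.Prime := fun p hp => (mem_filter.1 hp).2
  have hM0 : 0 < M := by
    rw [hM]
    have : 0 < ∏ p ∈ PS z, p := prod_pos fun p hp => (hpr p hp).pos
    exact_mod_cast this
  -- lower bound for the product
  have hPM : 1 ≤ M * Pq := by
    have e : M * Pq = ∏ p ∈ PS z, ((p : ℝ) - nr A B C p) := by
      rw [hM, hPd]
      push_cast
      rw [← prod_mul_distrib]
      apply prod_congr rfl
      intro p hp
      have : (p : ℝ) ≠ 0 := by have := (hpr p hp).pos; positivity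
      field_simp
    have hle : ∀ p ∈ PS z, nr A B C p ≤ p := by
      intro p _
      unfold nr
      calc _ ≤ #(range p) := card_filter_le _ _
        _ = p := card_range p
    have e2 : M * Pq = ((∏ p ∈ PS z, (p - nr A B C p) : ℕ) : ℝ) := by
      rw [e]
      push_cast
      apply prod_congr rfl
      intro p hp
      rw [Nat.cast_sub (hle p hp)]
    have h3 : 0 < M * Pq := by positivity
    rw [e2] at h3 ⊢
    exact_mod_cast h3
  -- the rough values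
  have hsub : (Icc 1 x).filter (fun t : ℕ => ∀ p ∈ PS z, ¬ (p : ℤ) ∣ A * (t : ℤ) ^ 2 + B * (t : ℤ) + C) ⊆
      ((TT a b c a₀ b₀ c₀ t0 x).filter (fun t : ℕ => ∀ p ≤ z, p.Prime → ¬ ((p : ℤ) ∣ (n : ℤ) * H t + G t))) ∪ Icc 1 t0 := by
    intro t ht
    rw [mem_filter] at ht
    rw [mem_union]
    by_cases h : t ≤ t0
    · exact Or.inr (mem_Icc.2 ⟨(mem_Icc.1 ht.1).1, h⟩)
    · left
      have hpos := h_pos a b c (by exact_mod_cast ha) t (by omega)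
      have hHt : ((H t : ℕ) : ℤ) = (a : ℤ) * (t : ℤ) ^ 2 + b * t + c := by
        rw [hH]; exact Int.toNat_of_nonneg (by omega)
      have hval : A * (t : ℤ) ^ 2 + B * t + C = (n : ℤ) * H t + G t := by
        rw [hHt, hG, hA, hB, hC]; ring
      have hall : ∀ p ≤ z, p.Prime → ¬ ((p : ℤ) ∣ (n : ℤ) * H t + G t) := by
        intro p hpz hpp
        rw [← hval]
        exact ht.2 p (by unfold PS; rw [mem_filter, mem_range]; exact ⟨by omega, hpp⟩)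
      rw [mem_filter]
      refine ⟨?_, hall⟩
      rw [TT, mem_filter]
      refine ⟨ht.1, by omega, ?_⟩
      by_contra hcop
      obtain ⟨p, hpp, h3, h4⟩ := Nat.Prime.not_coprime_iff_dvd.1 hcop
      rw [← hH] at h3
      rw [← hG] at h4
      have h5 : (p : ℤ) ∣ (H t : ℤ) := by exact_mod_cast h3
      have h6 : (p : ℤ) ∣ G t := Int.natCast_dvd.2 h4
      have h7 : (p : ℤ) ∣ Res a b c a₀ b₀ c₀ := by
        apply dvd_res a b c a₀ b₀ c₀ t p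
        · rw [← hHt]; exact h5
        · rw [← hG]; exact h6
      have h8 : p ≤ z := (Nat.le_of_dvd (Int.natAbs_pos.2 hR) (Int.natCast_dvd.1 h7)).trans hzR
      exact hall p h8 hpp (dvd_add (Dvd.dvd.mul_left h5 _) h6)
  have h3 : (#((Icc 1 x).filter (fun t : ℕ => ∀ p ∈ PS z, ¬ (p : ℤ) ∣ A * (t : ℤ) ^ 2 + B * (t : ℤ) + C)) : ℝ) ≤
      unsL z n H G (TT a b c a₀ b₀ c₀ t0 x) + t0 := by
    have := (card_le_card hsub).trans (card_union_le _ _)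
    rw [Nat.card_Icc, Nat.add_sub_cancel] at this
    unfold unsL
    exact_mod_cast this
  have h4 : ((x : ℝ) - M) * Pq ≤ unsL z n H G (TT a b c a₀ b₀ c₀ t0 x) + t0 := by
    refine le_trans (le_of_eq ?_) (h1.trans h3)
    rw [hM]
  have ht0r : (0 : ℝ) ≤ t0 := by positivity
  have h5 : (t0 : ℝ) * 1 ≤ t0 * (M * Pq) := mul_le_mul_of_nonneg_left hPM ht0r
  calc ((x : ℝ) - M * (1 + t0)) * (2 * CF A B C z) * Wz z = ((x : ℝ) - M) * Pq - t0 * (M * Pq) := by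
        rw [hPe]; ring
    _ ≤ _ := by linarith

theorem line_main (a : ℕ) (ha : 1 ≤ a) (b c a₀ b₀ c₀ : ℤ) (hR : Res a b c a₀ b₀ c₀ ≠ 0)
    (hfix : ∀ p : ℕ, p.Prime → ∃ t : ℤ, ¬ ((p : ℤ) ∣ a * t ^ 2 + b * t + c ∧ (p : ℤ) ∣ a₀ * t ^ 2 + b₀ * t + c₀)) :
    ∀ θ : ℝ, θ < 1 → ∃ κ : ℝ, 0 < κ ∧ ∃ N0 : ℕ,
    ∀ N : ℕ, N0 ≤ N → ∀ x : ℕ, Real.log N ≤ x → x ^ 11 ≤ N →
    ∃ S : Finset ℕ, S ⊆ Icc 1 N ∧ κ * N ≤ S.card ∧ ∀ n ∈ S,
      Admissible (a₀ + n * a) (b₀ + n * b) (c₀ + n * c) ∧ ∃ C : ℝ, 0 < C ∧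
      Tendsto (fun z => CF (a₀ + n * a) (b₀ + n * b) (c₀ + n * c) z) atTop (𝓝 C) ∧
      θ * (2 * C) * x / Real.log (N * x ^ 2) ≤ piF (a₀ + n * a) (b₀ + n * b) (c₀ + n * c) x ∧
      κ * x / Real.log N ≤ piF (a₀ + n * a) (b₀ + n * b) (c₀ + n * c) x := by
  classical
  intro θ hθ
  set t0 : ℕ := b.natAbs + c.natAbs with ht0
  obtain ⟨δ, hδ0, x₀, hTT⟩ := TT_card a b c a₀ b₀ c₀ (by exact_mod_cast ha) hR hfix t0 le_rfl
  set H : ℕ → ℕ := fun t => ((a : ℤ) * (t : ℤ) ^ 2 + b * t + c).toNat with hHd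
  set G : ℕ → ℤ := fun t => a₀ * (t : ℤ) ^ 2 + b₀ * t + c₀ with hGd
  -- the constants
  set θ₀ : ℝ := max θ (1 / 2) with hθ₀
  have hθ0 : 1 / 2 ≤ θ₀ := le_max_right _ _
  have hθ1 : θ₀ < 1 := max_lt hθ (by norm_num)
  have hθθ : θ ≤ θ₀ := le_max_left _ _
  set θ₁ : ℝ := (1 + θ₀) / 2 with hθ₁
  have hθ₁1 : θ₁ < 1 := by rw [hθ₁]; linarith
  have hθ₀₁ : θ₀ < θ₁ := by rw [hθ₁]; linarith
  set r : ℝ := θ₁ / θ₀ with hr
  have hr1 : 1 < r := by rw [hr, one_lt_div (by linarith)]; exact hθ₀₁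
  set ε : ℝ := Real.log r / 6 with hε
  have hlr : 0 < Real.log r := Real.log_pos hr1
  have hε0 : 0 < ε := by rw [hε]; positivity
  have hexp4 : Real.exp (3 * ε) * Real.exp (3 * ε) = r := by
    rw [← Real.exp_add]
    have : 3 * ε + 3 * ε = Real.log r := by rw [hε]; ring
    rw [this, Real.exp_log (by linarith)]
  have hexp1 : 1 < Real.exp (3 * ε) := by
    rw [Real.one_lt_exp_iff]; positivity
  obtain ⟨η, hη, hmain⟩ := main1L a ha b c a₀ b₀ c₀ hR δ hδ0 θ₁ hθ₁1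
  set α : ℤ := b ^ 2 - 4 * a * c with hα
  set β : ℤ := 2 * b * b₀ - 4 * (a * c₀ + a₀ * c) with hβ
  set γ : ℤ := b₀ ^ 2 - 4 * a₀ * c₀ with hγ
  have hdd : β ^ 2 - 4 * α * γ = 16 * Res a b c a₀ b₀ c₀ := disc_disc a b c a₀ b₀ c₀
  have hcase : (α ≠ 0 ∧ β ^ 2 - 4 * α * γ ≠ 0) ∨ (α = 0 ∧ β ≠ 0) := by
    by_cases h0 : α = 0
    · right
      refine ⟨h0, fun h1 => ?_⟩
      rw [h0, h1] at hdd
      apply hR
      omega
    · left
      refine ⟨h0, ?_⟩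
      rw [hdd]
      exact mul_ne_zero (by norm_num) hR
  obtain ⟨z₀, hz₀⟩ := good_most_gen α β γ hcase ε (η / 8) hε0 (by positivity)
  obtain ⟨z₁, hz₁⟩ := Sd_count a₀ a (by exact_mod_cast ha) ε (η / 8) hε0 (by positivity)
  -- the sieving limit
  set z : ℕ := max (max z₀ 2) (max (max z₁ (Res a b c a₀ b₀ c₀).natAbs) ⌈1 / ε⌉₊) with hz
  have hzz₀ : z₀ ≤ z := (le_max_left _ _).trans (le_max_left _ _)
  have hz2 : 2 ≤ z := (le_max_right _ _).trans (le_max_left _ _)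
  have hzz₁ : z₁ ≤ z := ((le_max_left _ _).trans (le_max_left _ _)).trans (le_max_right _ _)
  have hzR : (Res a b c a₀ b₀ c₀).natAbs ≤ z := ((le_max_right _ _).trans (le_max_left _ _)).trans (le_max_right _ _)
  have hzε : 1 / ε ≤ z := (Nat.le_ceil _).trans (by exact_mod_cast (le_max_right _ _).trans (le_max_right _ _))
  have hz0 : (0 : ℝ) < z := by exact_mod_cast (by omega : 0 < z)
  have hzε' : 1 / (z : ℝ) ≤ ε := by
    rw [div_le_iff₀ hz0]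
    rw [div_le_iff₀ hε0] at hzε
    linarith
  obtain ⟨N₁, hN₁⟩ := hmain z
  obtain ⟨H₀, hH₀⟩ := hz₀ z hzz₀
  obtain ⟨H₁, hH₁⟩ := hz₁ z hzz₁
  set M : ℝ := ((∏ p ∈ PS z, p : ℕ) : ℝ) * (1 + t0) with hM
  have hM0 : 0 ≤ M := by rw [hM]; positivity
  set B₁ : ℝ := (a₀.natAbs : ℝ) + b₀.natAbs + c₀.natAbs + (Res a b c a₀ b₀ c₀).natAbs + 3 + a₀.natAbs with hB₁
  have hB₁0 : 0 ≤ B₁ := by positivity
  obtain ⟨N₂, hN₂⟩ := ev_ft (max 1 x₀) (M * Real.exp (3 * ε) / (Real.exp (3 * ε) - 1)) (4 * B₁ / η) 1 1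
  refine ⟨η / 2, by positivity, max (max N₁ H₀) (max N₂ H₁), fun N hN x hx1 hx11 => ?_⟩
  have hNN₁ : N₁ ≤ N := ((le_max_left _ _).trans (le_max_left _ _)).trans hN
  have hNH₀ : H₀ ≤ N := ((le_max_right _ _).trans (le_max_left _ _)).trans hN
  have hNN₂ : N₂ ≤ N := ((le_max_left _ _).trans (le_max_right _ _)).trans hN
  have hNH₁ : H₁ ≤ N := ((le_max_right _ _).trans (le_max_right _ _)).trans hN
  obtain ⟨k1, k2, k3, -, -, k6⟩ := hN₂ N hNN₂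
  set L : ℝ := Real.log N with hL
  have hL1 : 1 ≤ L := (le_max_left _ _).trans k1
  have hxL : L ≤ x := hx1
  have hx1' : (1 : ℝ) ≤ x := hL1.trans hxL
  have hx0 : (0 : ℝ) < x := by linarith
  have hN3 : (3 : ℝ) ≤ N := by exact_mod_cast k6
  have hN0 : (0 : ℝ) < N := by linarith
  have hxx₀ : x₀ ≤ x := by
    have : (x₀ : ℝ) ≤ x := ((le_max_right _ _).trans k1).trans hxL
    exact_mod_cast this
  set T := TT a b c a₀ b₀ c₀ t0 x with hT
  have hTsub : T ⊆ Icc 1 x := filter_subset _ _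
  have hTt : ∀ t ∈ T, 1 ≤ H t ∧ (H t : ℤ) = (a : ℤ) * t ^ 2 + b * t + c ∧ G t = a₀ * t ^ 2 + b₀ * t + c₀ ∧
      Nat.Coprime (H t) (G t).natAbs := by
    intro t ht
    rw [hT, TT, mem_filter] at ht
    have hpos := h_pos a b c (by exact_mod_cast ha) t ht.2.1
    have hHt : ((H t : ℕ) : ℤ) = (a : ℤ) * (t : ℤ) ^ 2 + b * t + c := Int.toNat_of_nonneg (by omega)
    exact ⟨by omega, hHt, rfl, ht.2.2⟩
  have hA := hN₁ N hNN₁ x T H G hx1 hx11 hTsub hTt (hTT x hxx₀)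
  obtain ⟨E, hEc, hE⟩ := hH₀ N hNH₀
  obtain ⟨E', hEc', hE'⟩ := hH₁ N hNH₁
  set A := (Icc 1 N).filter (fun n : ℕ =>
      θ₁ * (unsL z n H G T / Wz z) / Real.log (N * x ^ 2) ≤ numL n H G T ∧
      η * x / Real.log N ≤ numL n H G T) with hAdef
  set S₀ := Icc 1 ⌊η / 4 * N⌋₊ with hS₀
  have hS₀c : (#S₀ : ℝ) ≤ η / 4 * N := by
    rw [hS₀, Nat.card_Icc, Nat.add_sub_cancel]
    exact Nat.floor_le (by positivity)
  have hcount : η / 2 * N ≤ (#(A \ (E ∪ E' ∪ S₀)) : ℝ) := by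
    have h1 : #A ≤ #(A \ (E ∪ E' ∪ S₀)) + #(E ∪ E' ∪ S₀) := card_le_card_sdiff_add_card
    have h2 : #(E ∪ E' ∪ S₀) ≤ #E + #E' + #S₀ :=
      (card_union_le _ _).trans (Nat.add_le_add_right (card_union_le _ _) _)
    have h3 : (#A : ℝ) ≤ #(A \ (E ∪ E' ∪ S₀)) + (#E + #E' + #S₀) := by
      exact_mod_cast h1.trans (Nat.add_le_add_left h2 _)
    linarith
  refine ⟨A \ (E ∪ E' ∪ S₀), sdiff_subset.trans (filter_subset _ _), hcount, fun n hn => ?_⟩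
  rw [Finset.mem_sdiff, mem_union, mem_union, not_or, not_or] at hn
  obtain ⟨hnA, ⟨hnE, hnE'⟩, hnS⟩ := hn
  rw [hAdef, mem_filter] at hnA
  obtain ⟨hnI, hmain1, hmain2⟩ := hnA
  have hnI' := mem_Icc.1 hnI
  obtain ⟨hsq, hSJ⟩ := hE n hnI hnE
  have hSd := hE' n hnI hnE'
  have hnbig : η / 4 * N < n := by
    by_contra hcon
    push Not at hcon
    exact hnS (mem_Icc.2 ⟨hnI'.1, Nat.le_floor hcon⟩)
  -- `n` is large
  have hx11r : (x : ℝ) ^ 11 ≤ N := by exact_mod_cast hx11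
  have hnB : B₁ * (x : ℝ) ^ 2 < n := by
    refine lt_of_le_of_lt ?_ hnbig
    rw [div_le_iff₀ hη] at k3
    have h1 : B₁ ≤ (η / 4) * x := by
      have : L * η ≤ x * η := mul_le_mul_of_nonneg_right hxL hη.le
      linarith
    calc B₁ * (x : ℝ) ^ 2 ≤ ((η / 4) * x) * (x : ℝ) ^ 2 := mul_le_mul_of_nonneg_right h1 (by positivity)
      _ = (η / 4) * (x : ℝ) ^ 3 := by ring
      _ ≤ (η / 4) * (x : ℝ) ^ 11 := by
          apply mul_le_mul_of_nonneg_left _ (by positivity)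
          exact pow_le_pow_right₀ hx1' (by norm_num)
      _ ≤ (η / 4) * N := mul_le_mul_of_nonneg_left hx11r (by positivity)
  have hxsq : (1 : ℝ) ≤ (x : ℝ) ^ 2 := one_le_pow₀ hx1'
  have hB₁n : B₁ < n := by
    have : B₁ * 1 ≤ B₁ * (x : ℝ) ^ 2 := mul_le_mul_of_nonneg_left hxsq hB₁0
    linarith
  have hapos : 0 < a₀ + n * (a : ℤ) := by
    have h1 : (a₀.natAbs : ℝ) < n := by
      have : (a₀.natAbs : ℝ) ≤ B₁ := by
        rw [hB₁]
        have : (0 : ℝ) ≤ (a₀.natAbs : ℝ) + b₀.natAbs + c₀.natAbs + (Res a b c a₀ b₀ c₀).natAbs + 3 := by positivity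
        linarith
      linarith
    have h2 : (a₀.natAbs : ℤ) < n := by exact_mod_cast h1
    have h3 : -(a₀.natAbs : ℤ) ≤ a₀ := by rw [Int.natCast_natAbs]; exact neg_abs_le a₀
    have h4 : (n : ℤ) ≤ n * (a : ℤ) := le_mul_of_one_le_right (by positivity) (by exact_mod_cast ha)
    omega
  -- a prime value
  have hpos : 0 < numL n H G T := by
    have h1 : 0 < η * x / L := by positivity
    have h2 : (0 : ℝ) < numL n H G T := lt_of_lt_of_le h1 hmain2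
    exact_mod_cast h2
  have hval : ∀ t ∈ T, (n : ℤ) * H t + G t = (a₀ + n * a) * (t : ℤ) ^ 2 + (b₀ + n * b) * t + (c₀ + n * c) := by
    intro t ht
    obtain ⟨h1, h2, h3, h4⟩ := hTt t ht
    rw [h2, h3]; ring
  have hsq' : ¬ IsSquare ((b₀ + n * b) ^ 2 - 4 * (a₀ + n * a) * (c₀ + n * c)) := by
    rw [disc_line]; exact hsq
  have hadm : Admissible (a₀ + n * a) (b₀ + n * b) (c₀ + n * c) := by
    unfold numL at hpos
    obtain ⟨t, ht⟩ := card_pos.1 hpos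
    rw [mem_filter] at ht
    obtain ⟨htT, hprime⟩ := ht
    obtain ⟨h1, h2, h3, h4⟩ := hTt t htT
    have htI := mem_Icc.1 (hTsub htT)
    -- size of the value
    have hGt : |(G t : ℝ)| ≤ ((a₀.natAbs : ℝ) + b₀.natAbs + c₀.natAbs) * (x : ℝ) ^ 2 := by
      have e : (G t : ℝ) = a₀ * t ^ 2 + b₀ * t + c₀ := by exact_mod_cast h3
      have ea : |(a₀ : ℝ)| = a₀.natAbs := by rw [Nat.cast_natAbs]; push_cast; rfl
      have eb : |(b₀ : ℝ)| = b₀.natAbs := by rw [Nat.cast_natAbs]; push_cast; rfl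
      have ec : |(c₀ : ℝ)| = c₀.natAbs := by rw [Nat.cast_natAbs]; push_cast; rfl
      have htx : (t : ℝ) ≤ x := by exact_mod_cast htI.2
      have ht0' : (0 : ℝ) ≤ t := by positivity
      rw [e]
      calc |(a₀ : ℝ) * t ^ 2 + b₀ * t + c₀| ≤ |(a₀ : ℝ) * t ^ 2| + |(b₀ : ℝ) * t| + |(c₀ : ℝ)| :=
            abs_add_three _ _ _
        _ = |(a₀ : ℝ)| * t ^ 2 + |(b₀ : ℝ)| * t + |(c₀ : ℝ)| := by
            rw [abs_mul, abs_mul, abs_pow, Nat.abs_cast]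
        _ ≤ |(a₀ : ℝ)| * (x : ℝ) ^ 2 + |(b₀ : ℝ)| * (x : ℝ) ^ 2 + |(c₀ : ℝ)| * (x : ℝ) ^ 2 := by
            have i0 : (x : ℝ) ≤ (x : ℝ) ^ 2 := le_self_pow₀ hx1' (by norm_num)
            have i1 : (t : ℝ) ≤ (x : ℝ) ^ 2 := htx.trans i0
            have i2 : (t : ℝ) ^ 2 ≤ (x : ℝ) ^ 2 := pow_le_pow_left₀ ht0' htx 2
            have i3 := mul_le_mul_of_nonneg_left i1 (abs_nonneg (b₀ : ℝ))
            have i4 := mul_le_mul_of_nonneg_left hxsq (abs_nonneg (c₀ : ℝ))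
            have i5 := mul_le_mul_of_nonneg_left i2 (abs_nonneg (a₀ : ℝ))
            linarith
        _ = _ := by rw [← ea, ← eb, ← ec]; ring
    have hvbig : ((Res a b c a₀ b₀ c₀).natAbs : ℝ) + 3 < (((n : ℤ) * H t + G t : ℤ) : ℝ) := by
      push_cast
      have i1 : (1 : ℝ) ≤ H t := by exact_mod_cast h1
      have i2 : (n : ℝ) ≤ n * H t := le_mul_of_one_le_right (by positivity) i1
      have i3 := (abs_le.1 hGt).1
      have i4 : ((a₀.natAbs : ℝ) + b₀.natAbs + c₀.natAbs) * (x : ℝ) ^ 2 + ((Res a b c a₀ b₀ c₀).natAbs + 3) ≤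
          B₁ * (x : ℝ) ^ 2 := by
        have j1 : ((Res a b c a₀ b₀ c₀).natAbs + 3 : ℝ) ≤ ((Res a b c a₀ b₀ c₀).natAbs + 3) * (x : ℝ) ^ 2 :=
          le_mul_of_one_le_right (by positivity) hxsq
        have j2 : 0 ≤ (a₀.natAbs : ℝ) * (x : ℝ) ^ 2 := by positivity
        rw [hB₁]
        nlinarith
      linarith
    have hvbig' : ((Res a b c a₀ b₀ c₀).natAbs : ℤ) + 3 < (n : ℤ) * H t + G t := by
      have h9 : ((((Res a b c a₀ b₀ c₀).natAbs : ℤ) + 3 : ℤ) : ℝ) < (((n : ℤ) * H t + G t : ℤ) : ℝ) := by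
        refine lt_of_le_of_lt (le_of_eq ?_) hvbig
        rw [Int.cast_add, Int.cast_natCast]
        norm_num
      exact Int.cast_lt.1 h9
    have hv0 : ((((n : ℤ) * H t + G t).toNat : ℕ) : ℤ) = (n : ℤ) * H t + G t := Int.toNat_of_nonneg (by omega)
    refine adm_of_big a b c a₀ b₀ c₀ n t hR hapos _ hprime ?_ (by omega) (by omega) hsq'
    rw [hv0, hval t htT]
  refine ⟨hadm, ?_⟩
  obtain ⟨C, hC0, hC⟩ := CF_tendsto (a₀ + n * a) (b₀ + n * b) (c₀ + n * c) hapos hsq'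
  have hCle : C ≤ CF (a₀ + n * a) (b₀ + n * b) (c₀ + n * c) z * Real.exp (3 * ε) := by
    have h1 := CF_limit_gen (a₀ + n * a) (b₀ + n * b) (c₀ + n * c) hapos C hC z hz2 ε
      (by rw [disc_line]; exact hSJ) hSd
    refine h1.trans (mul_le_mul_of_nonneg_left (Real.exp_le_exp.2 (by linarith)) (CF_pos _ _ _ _).le)
  -- comparison of counts
  have hpi : (numL n H G T : ℝ) ≤ piF (a₀ + n * a) (b₀ + n * b) (c₀ + n * c) x := by
    have : numL n H G T ≤ piF (a₀ + n * a) (b₀ + n * b) (c₀ + n * c) x := by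
      unfold numL piF
      apply card_le_card
      intro s hs
      rw [mem_filter] at hs ⊢
      refine ⟨hTsub hs.1, ?_⟩
      have := hs.2
      rwa [hval s hs.1] at this
    exact_mod_cast this
  have hCF0 := CF_pos (a₀ + n * a) (b₀ + n * b) (c₀ + n * c) z
  have hun : ((x : ℝ) - M) * (2 * CF (a₀ + n * a) (b₀ + n * b) (c₀ + n * c) z) ≤ unsL z n H G T / Wz z :=
    uns_low a ha b c a₀ b₀ c₀ hR n z x t0 le_rfl hz2 hzR hadm H G (fun t => rfl) (fun t => rfl)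
  have hlogBx : 0 < Real.log (N * x ^ 2) := by
    apply Real.log_pos
    have : (N : ℝ) * 1 ≤ N * (x : ℝ) ^ 2 := mul_le_mul_of_nonneg_left hxsq hN0.le
    linarith
  have hxM : (x : ℝ) ≤ (x - M) * Real.exp (3 * ε) := by
    have h1 : M * Real.exp (3 * ε) / (Real.exp (3 * ε) - 1) ≤ x := k2.trans hxL
    rw [div_le_iff₀ (by linarith)] at h1
    linarith
  refine ⟨C, hC0, hC, ?_, ?_⟩
  · refine le_trans ?_ (hmain1.trans hpi)
    apply div_le_div_of_nonneg_right _ hlogBx.le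
    have hxM0 : 0 ≤ (x : ℝ) - M := by
      by_contra hcon
      push Not at hcon
      have := mul_neg_of_neg_of_pos hcon (Real.exp_pos (3 * ε))
      linarith
    calc θ * (2 * C) * x ≤ θ₀ * (2 * C) * x := by
          apply mul_le_mul_of_nonneg_right _ hx0.le
          exact mul_le_mul_of_nonneg_right hθθ (by positivity)
      _ ≤ θ₀ * (2 * (CF (a₀ + n * a) (b₀ + n * b) (c₀ + n * c) z * Real.exp (3 * ε))) * ((x - M) * Real.exp (3 * ε)) := by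
          apply mul_le_mul _ hxM hx0.le (by positivity)
          exact mul_le_mul_of_nonneg_left (by linarith) (by linarith)
      _ = (θ₀ * (Real.exp (3 * ε) * Real.exp (3 * ε))) * ((x - M) * (2 * CF (a₀ + n * a) (b₀ + n * b) (c₀ + n * c) z)) := by ring
      _ = θ₁ * ((x - M) * (2 * CF (a₀ + n * a) (b₀ + n * b) (c₀ + n * c) z)) := by
          rw [hexp4, hr]
          congr 1
          field_simp
      _ ≤ θ₁ * (unsL z n H G T / Wz z) := mul_le_mul_of_nonneg_left hun (by linarith)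
  · refine le_trans ?_ (hmain2.trans hpi)
    apply div_le_div_of_nonneg_right _ (by linarith)
    apply mul_le_mul_of_nonneg_right _ hx0.le
    linarith

/-- the final form -/
theorem line_final (a : ℕ) (ha : 1 ≤ a) (b c a₀ b₀ c₀ : ℤ) (hR : Res a b c a₀ b₀ c₀ ≠ 0)
    (hfix : ∀ p : ℕ, p.Prime → ∃ t : ℤ, ¬ ((p : ℤ) ∣ a * t ^ 2 + b * t + c ∧ (p : ℤ) ∣ a₀ * t ^ 2 + b₀ * t + c₀)) :
    ∀ θ : ℝ, θ < 1 → ∃ κ : ℝ, 0 < κ ∧ ∃ N0 : ℕ,
    ∀ N : ℕ, N0 ≤ N → ∀ x : ℕ, Real.log N ≤ x → x ^ 11 ≤ N →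
    ∃ S : Finset ℕ, S ⊆ Icc 1 N ∧ κ * N ≤ S.card ∧ ∀ n ∈ S,
      Admissible (a₀ + n * a) (b₀ + n * b) (c₀ + n * c) ∧ ∃ C : ℝ, 0 < C ∧
      Tendsto (fun z => cutC (a₀ + n * a) (b₀ + n * b) (c₀ + n * c) z) atTop (𝓝 C) ∧
      θ * (eps (a₀ + n * a) (b₀ + n * b) * C * gcdProd (a₀ + n * a) (b₀ + n * b)) * x / Real.log (N * x ^ 2) ≤
        piF (a₀ + n * a) (b₀ + n * b) (c₀ + n * c) x ∧
      κ * x / Real.log N ≤ piF (a₀ + n * a) (b₀ + n * b) (c₀ + n * c) x := by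
  intro θ hθ
  obtain ⟨κ, hκ, N0, hN0⟩ := line_main a ha b c a₀ b₀ c₀ hR hfix θ hθ
  refine ⟨κ, hκ, N0, fun N hN x h1 h2 => ?_⟩
  obtain ⟨S, hS1, hS2, hS3⟩ := hN0 N hN x h1 h2
  refine ⟨S, hS1, hS2, fun n hn => ?_⟩
  obtain ⟨hadm, C, hC0, hC, h3, h4⟩ := hS3 n hn
  have ha0 : 0 < a₀ + n * (a : ℤ) := hadm.1
  have hg := gcdProd_pos (a₀ + n * a) (b₀ + n * b)
  have he := eps_pos (a₀ + n * a) (b₀ + n * b)
  have hne : eps (a₀ + n * a) (b₀ + n * b) * gcdProd (a₀ + n * a) (b₀ + n * b) ≠ 0 := by positivity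
  refine ⟨hadm, 2 * C / (eps (a₀ + n * a) (b₀ + n * b) * gcdProd (a₀ + n * a) (b₀ + n * b)), by positivity, ?_, ?_, h4⟩
  · have h5 : Tendsto (fun z => 2 * CF (a₀ + n * a) (b₀ + n * b) (c₀ + n * c) z /
        (eps (a₀ + n * a) (b₀ + n * b) * gcdProd (a₀ + n * a) (b₀ + n * b))) atTop
        (𝓝 (2 * C / (eps (a₀ + n * a) (b₀ + n * b) * gcdProd (a₀ + n * a) (b₀ + n * b)))) := (hC.const_mul 2).div_const _
    refine h5.congr' ?_
    filter_upwards [eventually_ge_atTop (a₀ + n * (a : ℤ)).toNat] with z hz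
    rw [CF_eq (a₀ + n * a) (b₀ + n * b) (c₀ + n * c) ha0 z (by omega)]
    field_simp
  · refine le_trans (le_of_eq ?_) h3
    have : eps (a₀ + n * a) (b₀ + n * b) * (2 * C / (eps (a₀ + n * a) (b₀ + n * b) * gcdProd (a₀ + n * a) (b₀ + n * b))) *
        gcdProd (a₀ + n * a) (b₀ + n * b) = 2 * C := by
      field_simp
    rw [this]

end Pool.Agent.X56.PN
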