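import Pool.Agent.H343R2.EH.BVLog

set_option autoImplicit false

/-!
A mean value theorem of Bombieri-Vinogradov type with the weights `f^(-1/3)` for the conductors
`f ≤ X^(1/6)`.
-/

open Finset Filter Topology

namespace Pool.Agent.X56.PN

open Pool.Agent.H410R2 Pool.Agent.H398R2.BV Pool.Agent.Helper112 H343E

/-- the sum over the primitive characters -/
noncomputable def Sc (X : ℝ) (f : ℕ) : ℝ := ∑ ψ ∈ Prim f, ‖psiLog X f ψ‖

lemma Sc_nonneg (X : ℝ) (f : ℕ) : 0 ≤ Sc X f := sum_nonneg fun _ _ => norm_nonneg _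

/-- a cover -/
lemma sum_cover {ι κ : Type*} [DecidableEq ι] (g : ι → ℝ) (hg : ∀ i, 0 ≤ g i) (S : Finset ι) (J : Finset κ)
    (C : κ → Finset ι) (h : ∀ i ∈ S, ∃ j ∈ J, i ∈ C j) : ∑ i ∈ S, g i ≤ ∑ j ∈ J, ∑ i ∈ C j, g i := by
  classical
  calc ∑ i ∈ S, g i ≤ ∑ i ∈ S, ∑ j ∈ J, (if i ∈ C j then g i else 0) := by
        apply sum_le_sum
        intro i hi
        obtain ⟨j, hj, hij⟩ := h i hi
        have h1 := single_le_sum (f := fun j => if i ∈ C j then g i else 0)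
          (fun j _ => by split_ifs; exacts [hg i, le_rfl]) hj
        simpa [if_pos hij] using h1
    _ = ∑ j ∈ J, ∑ i ∈ S, (if i ∈ C j then g i else 0) := sum_comm
    _ ≤ ∑ j ∈ J, ∑ i ∈ C j, g i := by
        apply sum_le_sum
        intro j _
        rw [← sum_filter]
        apply sum_le_sum_of_subset_of_nonneg
        · intro i hi
          exact (mem_filter.1 hi).2
        · intro i _ _; exact hg i

/-- a dyadic block -/
lemma block_bd (X : ℝ) (hX : 4 ≤ X) (Y : ℝ) (hY : 1 ≤ Y) (hYX : Y ^ 72 = X) (w : ℕ → ℝ) (hw0 : ∀ f, 0 ≤ w f)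
    (hw : ∀ f, 1 ≤ f → w f ^ 3 * f ≤ 1) (j : ℕ) (hj : 1 ≤ j) (hjY : (2 : ℝ) ^ j ≤ Y ^ 4) (hL1 : 2 ≤ Real.log X) :
    ∑ f ∈ Icc (8 ^ j) (8 ^ (j + 1)), w f * Sc X f ≤
      400000 * (Y ^ 71 + X / 2 ^ j) * Real.log X ^ 5 := by
  have hX0 : 0 < X := by linarith
  have hX1 : 1 ≤ X := by linarith
  have hY0 : 0 < Y := by linarith
  set L := Real.log X with hL
  have hL0 : 0 < L := by linarith
  set W : ℕ := ⌈Y ^ 18⌉₊ with hW
  have hWl : Y ^ 18 ≤ W := Nat.le_ceil _
  have hY18 : 1 ≤ Y ^ 18 := one_le_pow₀ hY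
  have hWu : (W : ℝ) ≤ 2 * Y ^ 18 := by
    have := Nat.ceil_lt_add_one (show 0 ≤ Y ^ 18 by positivity)
    linarith
  have hW1 : 1 ≤ W := by
    have : (1 : ℝ) ≤ W := hY18.trans hWl
    exact_mod_cast this
  have h8j : 2 ≤ 8 ^ j := by
    calc 2 ≤ 8 ^ 1 := by norm_num
      _ ≤ 8 ^ j := Nat.pow_le_pow_right (by norm_num) hj
  have h8j1 : 1 ≤ 8 ^ (j + 1) := Nat.one_le_pow _ _ (by norm_num)
  have hlarge := BVL.large X hX1 W (8 ^ j) (8 ^ (j + 1)) hW1 h8j h8j1
  set a : ℝ := (2 : ℝ) ^ j with ha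
  have ha2 : 2 ≤ a := by
    calc (2 : ℝ) = 2 ^ 1 := by norm_num
      _ ≤ 2 ^ j := pow_le_pow_right₀ (by norm_num) hj
  have ha0 : 0 < a := by linarith
  have e8 : ((8 ^ j : ℕ) : ℝ) = a ^ 3 := by
    rw [ha, ← pow_mul, mul_comm, pow_mul]; norm_num
  have e81 : ((8 ^ (j + 1) : ℕ) : ℝ) = 8 * a ^ 3 := by
    rw [pow_succ, Nat.cast_mul, e8]; push_cast; ring
  rw [e8, e81] at hlarge
  have hsX : Real.sqrt X = Y ^ 36 := by
    rw [← hYX, show Y ^ 72 = (Y ^ 36) ^ 2 by ring]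
    exact Real.sqrt_sq (by positivity)
  have hsW : Real.sqrt (X / W) ≤ Y ^ 27 := by
    apply Real.sqrt_le_iff.2
    refine ⟨by positivity, ?_⟩
    rw [div_le_iff₀ (by linarith)]
    calc X = (Y ^ 27) ^ 2 * Y ^ 18 := by rw [← hYX]; ring
      _ ≤ (Y ^ 27) ^ 2 * W := by gcongr
  have hla : Real.log (8 * a ^ 3) ≤ 3 + L / 6 := by
    have h00 : Real.log (a ^ 3) = 3 * Real.log a := by rw [Real.log_pow]; norm_num
    rw [Real.log_mul (by norm_num) (by positivity), h00]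
    have h1 : Real.log a ≤ Real.log (Y ^ 4) := Real.log_le_log ha0 hjY
    have h0 : Real.log (Y ^ 4) = 4 * Real.log Y := by rw [Real.log_pow]; norm_num
    rw [h0] at h1
    have h2 : L = 72 * Real.log Y := by rw [hL, ← hYX, Real.log_pow]; norm_num
    have h3 : Real.log 8 ≤ 3 := by
      have : Real.log 8 = 3 * Real.log 2 := by
        rw [show (8 : ℝ) = 2 ^ 3 by norm_num, Real.log_pow]; norm_num
      have h4 := Real.log_two_lt_d9
      rw [this]; linarith
    linarith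
  have hla2 : 1 + Real.log (8 * a ^ 3) ≤ 2.5 * L := by linarith
  have hla0 : 0 ≤ 1 + Real.log (8 * a ^ 3) := by
    have : 0 ≤ Real.log (8 * a ^ 3) := Real.log_nonneg (by nlinarith [pow_pos ha0 3, pow_le_pow_left₀ (by norm_num) ha2 3])
    linarith
  -- termwise
  have hterm : ∀ f ∈ Icc (8 ^ j) (8 ^ (j + 1)), w f * Sc X f ≤
      8 * a ^ 2 * ((1 / (Nat.totient f : ℝ)) * ∑ ψ ∈ Prim f, ‖psiLog X f ψ‖) := by
    intro f hf
    rw [mem_Icc] at hf
    have hf1 : 1 ≤ f := by omega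
    have hf0 : (0 : ℝ) < f := by exact_mod_cast hf1
    have hφ : (0 : ℝ) < Nat.totient f := by exact_mod_cast Nat.totient_pos.mpr hf1
    have hφf : (Nat.totient f : ℝ) ≤ f := by exact_mod_cast Nat.totient_le f
    have hfl : a ^ 3 ≤ f := by rw [← e8]; exact_mod_cast hf.1
    have hfu : (f : ℝ) ≤ 8 * a ^ 3 := by rw [← e81]; exact_mod_cast hf.2
    have hwa : w f * a ≤ 1 := by
      have h1 : (w f * a) ^ 3 ≤ 1 := by
        calc (w f * a) ^ 3 = w f ^ 3 * a ^ 3 := by ring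
          _ ≤ w f ^ 3 * f := by
              have := pow_nonneg (hw0 f) 3
              gcongr
          _ ≤ 1 := hw f hf1
      by_contra hcon
      push Not at hcon
      have : 1 < (w f * a) ^ 3 := one_lt_pow₀ hcon (by norm_num)
      linarith
    have hS := Sc_nonneg X f
    have e : 8 * a ^ 2 * ((1 / (Nat.totient f : ℝ)) * ∑ ψ ∈ Prim f, ‖psiLog X f ψ‖) =
        (8 * a ^ 2 / (Nat.totient f : ℝ)) * Sc X f := by unfold Sc; ring
    rw [e]
    apply mul_le_mul_of_nonneg_right _ hS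
    rw [le_div_iff₀ hφ]
    calc w f * (Nat.totient f : ℝ) ≤ w f * (8 * a ^ 3) := by
          apply mul_le_mul_of_nonneg_left _ (hw0 f)
          linarith
      _ = (w f * a) * (8 * a ^ 2) := by ring
      _ ≤ 1 * (8 * a ^ 2) := by gcongr
      _ = _ := one_mul _
  refine (sum_le_sum hterm).trans ?_
  rw [← mul_sum]
  have h1 := mul_le_mul_of_nonneg_left hlarge (show 0 ≤ 8 * a ^ 2 by positivity)
  refine h1.trans ?_
  rw [hsX]
  have hY71 : ∀ k : ℕ, k ≤ 71 → Y ^ k ≤ Y ^ 71 := fun k hk => pow_le_pow_right₀ hY hk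
  have hL5 : L ^ 2 ≤ L ^ 5 := pow_le_pow_right₀ (by linarith) (by norm_num)
  have hI : 8 * a ^ 2 * (8 * (W : ℝ) ^ 2 * (8 * a ^ 3) ^ 2 * L ^ 2) ≤ 17000 * Y ^ 71 * L ^ 5 := by
    calc 8 * a ^ 2 * (8 * (W : ℝ) ^ 2 * (8 * a ^ 3) ^ 2 * L ^ 2) = 4096 * a ^ 8 * (W : ℝ) ^ 2 * L ^ 2 := by ring
      _ ≤ 4096 * (Y ^ 4) ^ 8 * (2 * Y ^ 18) ^ 2 * L ^ 5 := by gcongr
      _ = 16384 * Y ^ 68 * L ^ 5 := by ring
      _ ≤ 17000 * Y ^ 71 * L ^ 5 := by
          have := hY71 68 (by norm_num)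
          gcongr
          norm_num
  have hLL : (1 + L) ^ 3 ≤ 8 * L ^ 3 := by
    calc (1 + L) ^ 3 ≤ (2 * L) ^ 3 := by gcongr; linarith
      _ = _ := by ring
  have hII : 8 * a ^ 2 * (12 * (1 + Real.log (8 * a ^ 3)) * (Y ^ 36 / a ^ 3 +
        (Real.sqrt (X / W) + Real.sqrt (X / W)) + 8 * a ^ 3) * (Y ^ 36 * (1 + L) ^ 3) * L) ≤
      (2000 * (X / a) + 20000 * Y ^ 71) * L ^ 5 := by
    calc 8 * a ^ 2 * (12 * (1 + Real.log (8 * a ^ 3)) * (Y ^ 36 / a ^ 3 +
        (Real.sqrt (X / W) + Real.sqrt (X / W)) + 8 * a ^ 3) * (Y ^ 36 * (1 + L) ^ 3) * L) ≤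
        8 * a ^ 2 * (12 * (2.5 * L) * (Y ^ 36 / a ^ 3 +
        (Y ^ 27 + Y ^ 27) + 8 * a ^ 3) * (Y ^ 36 * (8 * L ^ 3)) * L) := by gcongr
      _ = 1920 * (X / a + 2 * (a ^ 2 * Y ^ 63) + 8 * (a ^ 5 * Y ^ 36)) * L ^ 5 := by
          rw [← hYX]; field_simp; ring
      _ ≤ 1920 * (X / a + 2 * ((Y ^ 4) ^ 2 * Y ^ 63) + 8 * ((Y ^ 4) ^ 5 * Y ^ 36)) * L ^ 5 := by gcongr
      _ = (1920 * (X / a) + 3840 * Y ^ 71 + 15360 * Y ^ 56) * L ^ 5 := by ring
      _ ≤ (2000 * (X / a) + 20000 * Y ^ 71) * L ^ 5 := by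
          apply mul_le_mul_of_nonneg_right _ (by positivity)
          have h2 := hY71 56 (by norm_num)
          have h3 : 0 ≤ X / a := by positivity
          have h4 : 0 ≤ Y ^ 71 := by positivity
          linarith
  calc _ = 8 * a ^ 2 * (8 * (W : ℝ) ^ 2 * (8 * a ^ 3) ^ 2 * L ^ 2) +
        8 * a ^ 2 * (12 * (1 + Real.log (8 * a ^ 3)) * (Y ^ 36 / a ^ 3 +
        (Real.sqrt (X / W) + Real.sqrt (X / W)) + 8 * a ^ 3) * (Y ^ 36 * (1 + L) ^ 3) * L) := by ring
    _ ≤ 17000 * Y ^ 71 * L ^ 5 + (2000 * (X / a) + 20000 * Y ^ 71) * L ^ 5 := add_le_add hI hII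
    _ ≤ _ := by
        have h3 : 0 ≤ X / a := by positivity
        have h4 : 0 ≤ Y ^ 71 := by positivity
        have h5 : 0 ≤ L ^ 5 := by positivity
        nlinarith [mul_nonneg h3 h5, mul_nonneg h4 h5]

/-- the mean value theorem with the weights `f^(-1/3)` -/
theorem mean_w (U : ℕ) : ∃ X0 : ℝ, ∀ X : ℝ, X0 ≤ X → ∀ (w : ℕ → ℝ) (F : ℕ), (∀ f, 0 ≤ w f) →
    (∀ f, 1 ≤ f → w f ^ 3 * f ≤ 1) → (F : ℝ) ^ 6 ≤ X →
    ∑ f ∈ Icc 2 F, w f * Sc X f ≤ X / Real.log X ^ U := by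
  set V := 3 * (U + 8) + 2 with hV
  obtain ⟨x₀, hx₀⟩ := sw (2 * V + U + 2) V
  have hlog : Tendsto Real.log atTop atTop := Real.tendsto_log_atTop
  have ev1 : ∀ᶠ X : ℝ in atTop, 8000000 * Real.log X ^ (U + 7) ≤ X ^ ((1 : ℝ) / 72) := ev_log 8000000 (U + 7) (1 / 72) (by norm_num)
  have ev : ∀ᶠ X : ℝ in atTop, ∀ (w : ℕ → ℝ) (F : ℕ), (∀ f, 0 ≤ w f) →
      (∀ f, 1 ≤ f → w f ^ 3 * f ≤ 1) → (F : ℝ) ^ 6 ≤ X →
      ∑ f ∈ Icc 2 F, w f * Sc X f ≤ X / Real.log X ^ U := by
    filter_upwards [eventually_ge_atTop x₀, eventually_ge_atTop (4 : ℝ),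
      hlog.eventually_ge_atTop 10000000, ev1] with X h1 h2 h3 h4 w F hw0 hw hF
    have hX0 : 0 < X := by linarith
    have hX1 : 1 ≤ X := by linarith
    set L := Real.log X with hL
    have hL0 : 0 < L := by linarith
    have hL1 : 1 ≤ L := by linarith
    set Y : ℝ := X ^ ((1 : ℝ) / 72) with hY
    have hY1 : 1 ≤ Y := Real.one_le_rpow hX1 (by norm_num)
    have hY0 : 0 < Y := by linarith
    have hYX : Y ^ 72 = X := by
      rw [hY, ← Real.rpow_natCast, ← Real.rpow_mul hX0.le]; norm_num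
    have hXU : 0 < X / L ^ U := by positivity
    -- the first block
    set K : ℕ := ⌈L ^ (U + 8)⌉₊ with hK
    have hKl : L ^ (U + 8) ≤ K := Nat.le_ceil _
    have hK1 : 1 ≤ L ^ (U + 8) := one_le_pow₀ hL1
    have hKu : (K : ℝ) ≤ 2 * L ^ (U + 8) := by
      have := Nat.ceil_lt_add_one (show 0 ≤ L ^ (U + 8) by positivity)
      linarith
    have hK2 : 2 ≤ K := by
      have h5 : (2 : ℝ) ≤ K := by
        refine le_trans ?_ hKl
        calc (2 : ℝ) ≤ L := by linarith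
          _ = L ^ 1 := (pow_one L).symm
          _ ≤ L ^ (U + 8) := pow_le_pow_right₀ hL1 (by omega)
      exact_mod_cast h5
    set J0 := Nat.clog 2 K with hJ0
    have hJ0l : K ≤ 2 ^ J0 := Nat.le_pow_clog (by norm_num) K
    have hJ01 : 1 ≤ J0 := Nat.clog_pos (by norm_num) hK2
    have hJ0u : 2 ^ J0 ≤ 2 * K := by
      have h5 := Nat.pow_pred_clog_lt_self (b := 2) (by norm_num) (x := K) (by omega)
      have h6 : 2 ^ J0 = 2 * 2 ^ (Nat.clog 2 K).pred := by
        rw [← pow_succ']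
        congr 1
        show J0 = _
        rw [← hJ0, Nat.pred_eq_sub_one]
        omega
      omega
    have h8u : ((8 ^ J0 : ℕ) : ℝ) ≤ L ^ V := by
      have h5 : (8 ^ J0 : ℕ) = (2 ^ J0) ^ 3 := by
        rw [← pow_mul, mul_comm, pow_mul]; norm_num
      rw [h5]
      push_cast
      have h6 : ((2 : ℝ) ^ J0) ≤ 4 * L ^ (U + 8) := by
        have : ((2 ^ J0 : ℕ) : ℝ) ≤ ((2 * K : ℕ) : ℝ) := by exact_mod_cast hJ0u
        push_cast at this
        linarith
      calc ((2 : ℝ) ^ J0) ^ 3 ≤ (4 * L ^ (U + 8)) ^ 3 := by gcongr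
        _ = 64 * L ^ (3 * (U + 8)) := by rw [mul_pow, ← pow_mul]; ring_nf
        _ ≤ L ^ 2 * L ^ (3 * (U + 8)) := by
            apply mul_le_mul_of_nonneg_right _ (by positivity)
            nlinarith
        _ = L ^ V := by rw [← pow_add, hV]; ring_nf
    -- the small conductors
    have hsmall : ∑ f ∈ Icc 2 (8 ^ J0), w f * Sc X f ≤ (1 / 2) * (X / L ^ U) := by
      have hf : ∀ f ∈ Icc 2 (8 ^ J0), w f * Sc X f ≤ L ^ V * (X / L ^ (2 * V + U + 2)) := by
        intro f hf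
        rw [mem_Icc] at hf
        have hf0 : (1 : ℝ) ≤ f := by exact_mod_cast (by omega : 1 ≤ f)
        have hfV : (f : ℝ) ≤ L ^ V := by
          calc (f : ℝ) ≤ ((8 ^ J0 : ℕ) : ℝ) := by exact_mod_cast hf.2
            _ ≤ L ^ V := h8u
        have hw1 : w f ≤ 1 := by
          by_contra hcon
          push Not at hcon
          have h5 : 1 < w f ^ 3 := one_lt_pow₀ hcon (by norm_num)
          have h6 := hw f (by omega)
          nlinarith
        have hSc : Sc X f ≤ L ^ V * (X / L ^ (2 * V + U + 2)) := by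
          unfold Sc
          calc ∑ ψ ∈ Prim f, ‖psiLog X f ψ‖ ≤ ∑ ψ ∈ Prim f, X / L ^ (2 * V + U + 2) := by
                apply sum_le_sum
                intro ψ hψ
                apply hx₀ X h1 f (by omega) hfV
                classical
                unfold Prim at hψ
                rw [mem_filter] at hψ
                exact hψ.2
            _ = ((Prim f).card : ℝ) * (X / L ^ (2 * V + U + 2)) := by rw [sum_const, nsmul_eq_mul]
            _ ≤ L ^ V * (X / L ^ (2 * V + U + 2)) := by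
                apply mul_le_mul_of_nonneg_right _ (by positivity)
                have h7 := card_prim_le (f := f) (by omega)
                have h8 : (Nat.totient f : ℝ) ≤ f := by exact_mod_cast Nat.totient_le f
                linarith
        calc w f * Sc X f ≤ 1 * Sc X f := mul_le_mul_of_nonneg_right hw1 (Sc_nonneg X f)
          _ ≤ _ := by rw [one_mul]; exact hSc
      refine (sum_le_sum hf).trans ?_
      rw [sum_const, nsmul_eq_mul, Nat.card_Icc]
      have h5 : ((8 ^ J0 + 1 - 2 : ℕ) : ℝ) ≤ L ^ V := by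
        refine le_trans ?_ h8u
        have h9 : 8 ^ J0 + 1 - 2 ≤ 8 ^ J0 := by
          generalize 8 ^ J0 = z
          omega
        exact_mod_cast h9
      calc ((8 ^ J0 + 1 - 2 : ℕ) : ℝ) * (L ^ V * (X / L ^ (2 * V + U + 2)))
          ≤ L ^ V * (L ^ V * (X / L ^ (2 * V + U + 2))) := by gcongr
        _ = (1 / L ^ 2) * (X / L ^ U) := by
            have e1 : L ^ (2 * V + U + 2) = (L ^ V) ^ 2 * L ^ U * L ^ 2 := by
              rw [pow_add, pow_add, mul_comm 2 V, pow_mul]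
            rw [e1]
            field_simp
        _ ≤ (1 / 2) * (X / L ^ U) := by
            apply mul_le_mul_of_nonneg_right _ hXU.le
            apply one_div_le_one_div_of_le (by norm_num)
            nlinarith
    -- the large conductors
    set J1 := Nat.log 8 F with hJ1
    have hcov : ∑ f ∈ Icc (8 ^ J0) F, w f * Sc X f ≤
        ∑ j ∈ Icc J0 J1, ∑ f ∈ Icc (8 ^ j) (8 ^ (j + 1)), w f * Sc X f := by
      apply sum_cover
      · intro f
        exact mul_nonneg (hw0 f) (Sc_nonneg X f)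
      · intro f hf
        rw [mem_Icc] at hf
        have hf1 : 1 ≤ f := le_trans (Nat.one_le_pow _ _ (by norm_num)) hf.1
        refine ⟨Nat.log 8 f, ?_, ?_⟩
        · rw [mem_Icc]
          refine ⟨?_, Nat.log_mono_right hf.2⟩
          exact Nat.le_log_of_pow_le (by norm_num) hf.1
        · rw [mem_Icc]
          exact ⟨Nat.pow_log_le_self 8 (by omega), (Nat.lt_pow_succ_log_self (by norm_num) f).le⟩
    have hblk : ∀ j ∈ Icc J0 J1, ∑ f ∈ Icc (8 ^ j) (8 ^ (j + 1)), w f * Sc X f ≤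
        400000 * (Y ^ 71 + X / L ^ (U + 8)) * L ^ 5 := by
      intro j hj
      rw [mem_Icc] at hj
      have hF1 : F ≠ 0 := by
        intro h0
        rw [hJ1, h0] at hj
        simp at hj
        omega
      have h8F : 8 ^ j ≤ F := le_trans (Nat.pow_le_pow_right (by norm_num) hj.2) (Nat.pow_log_le_self 8 hF1)
      have h2Y : (2 : ℝ) ^ j ≤ Y ^ 4 := by
        have h5 : ((2 : ℝ) ^ j) ^ 18 ≤ (Y ^ 4) ^ 18 := by
          calc ((2 : ℝ) ^ j) ^ 18 = (((8 ^ j : ℕ) : ℝ)) ^ 6 := by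
                push_cast
                rw [show (8 : ℝ) = 2 ^ 3 by norm_num, ← pow_mul, ← pow_mul, ← pow_mul]
                congr 1
                ring
            _ ≤ (F : ℝ) ^ 6 := by
                have : ((8 ^ j : ℕ) : ℝ) ≤ F := by exact_mod_cast h8F
                gcongr
            _ ≤ X := hF
            _ = (Y ^ 4) ^ 18 := by rw [← hYX]; ring
        exact (pow_le_pow_iff_left₀ (by positivity) (by positivity) (by norm_num)).1 h5
      refine (block_bd X (by linarith) Y hY1 hYX w hw0 hw j (by omega) h2Y (by linarith)).trans ?_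
      have h6 : L ^ (U + 8) ≤ (2 : ℝ) ^ j := by
        calc L ^ (U + 8) ≤ K := hKl
          _ ≤ ((2 ^ J0 : ℕ) : ℝ) := by exact_mod_cast hJ0l
          _ = 2 ^ J0 := by push_cast; rfl
          _ ≤ 2 ^ j := pow_le_pow_right₀ (by norm_num) hj.1
      have h7 : X / (2 : ℝ) ^ j ≤ X / L ^ (U + 8) := by
        apply div_le_div_of_nonneg_left hX0.le (by positivity) h6
      gcongr
    have hcard : ((Icc J0 J1).card : ℝ) ≤ L := by
      rw [Nat.card_Icc]
      by_cases hF1 : F = 0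
      · have h5 : J1 = 0 := by rw [hJ1, hF1]; simp
        rw [h5]
        have h6 : 0 + 1 - J0 = 0 := by omega
        rw [h6]; simpa using hL0.le
      · have h5 : ((J1 : ℕ) : ℝ) ≤ L := by
          have h6 : ((8 ^ J1 : ℕ) : ℝ) ≤ X := by
            have h7 : ((8 ^ J1 : ℕ) : ℝ) ≤ F := by exact_mod_cast Nat.pow_log_le_self 8 hF1
            have h8 : (1 : ℝ) ≤ F := by exact_mod_cast (by omega : 1 ≤ F)
            have h9 : (F : ℝ) ≤ (F : ℝ) ^ 6 := le_self_pow₀ h8 (by norm_num)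
            linarith
          have h10 := Real.log_le_log (by positivity) h6
          push_cast at h10
          rw [Real.log_pow] at h10
          have h11 : (1 : ℝ) ≤ Real.log 8 := by
            have : Real.log 8 = 3 * Real.log 2 := by
              rw [show (8 : ℝ) = 2 ^ 3 by norm_num, Real.log_pow]; norm_num
            have h4 := Real.log_two_gt_d9
            rw [this]; linarith
          have h12 : (0 : ℝ) ≤ (J1 : ℝ) := Nat.cast_nonneg _
          nlinarith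
        refine le_trans ?_ h5
        exact_mod_cast (by omega : J1 + 1 - J0 ≤ J1)
    have hlarge : ∑ f ∈ Icc (8 ^ J0) F, w f * Sc X f ≤ (1 / 2) * (X / L ^ U) := by
      refine hcov.trans ((sum_le_sum hblk).trans ?_)
      rw [sum_const, nsmul_eq_mul]
      have hpos : 0 ≤ 400000 * (Y ^ 71 + X / L ^ (U + 8)) * L ^ 5 := by positivity
      have h5 : Y ^ 71 ≤ (1 / 8000000) * (X / L ^ (U + 7)) := by
        rw [← hYX, mul_div_assoc', le_div_iff₀ (by positivity)]
        have h6 : Y ^ 71 * L ^ (U + 7) * 8000000 ≤ Y ^ 71 * Y := by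
          have := mul_le_mul_of_nonneg_left h4 (show 0 ≤ Y ^ 71 by positivity)
          nlinarith
        calc Y ^ 71 * L ^ (U + 7) = (Y ^ 71 * L ^ (U + 7) * 8000000) / 8000000 := by ring
          _ ≤ (Y ^ 71 * Y) / 8000000 := by gcongr
          _ = _ := by ring
      calc ((Icc J0 J1).card : ℝ) * (400000 * (Y ^ 71 + X / L ^ (U + 8)) * L ^ 5)
          ≤ L * (400000 * (Y ^ 71 + X / L ^ (U + 8)) * L ^ 5) := by gcongr
        _ ≤ L * (400000 * ((1 / 8000000) * (X / L ^ (U + 7)) + X / L ^ (U + 8)) * L ^ 5) := by gcongr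
        _ = (X / L ^ U) * ((1 / 20) * (L ^ 6 / L ^ 7) + 400000 * (L ^ 6 / L ^ 8)) := by
            rw [pow_add, pow_add]
            field_simp
            ring
        _ = (X / L ^ U) * ((1 / 20) * (1 / L) + 400000 * (1 / L ^ 2)) := by
            congr 1
            field_simp
        _ ≤ (X / L ^ U) * (1 / 2) := by
            apply mul_le_mul_of_nonneg_left _ hXU.le
            have h6 : 1 / L ≤ 1 / 10000000 := one_div_le_one_div_of_le (by norm_num) h3
            have h7 : 1 / L ^ 2 ≤ 1 / 10000000 := by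
              apply one_div_le_one_div_of_le (by norm_num)
              nlinarith
            linarith
        _ = _ := by ring
    have hfin : ∑ f ∈ Icc 2 F, w f * Sc X f ≤ ∑ f ∈ Icc 2 (8 ^ J0), w f * Sc X f +
        ∑ f ∈ Icc (8 ^ J0) F, w f * Sc X f := by
      rw [← sum_filter_add_sum_filter_not (Icc 2 F) (fun f => f ≤ 8 ^ J0)]
      apply add_le_add
      · apply sum_le_sum_of_subset_of_nonneg
        · intro f hf
          rw [mem_filter, mem_Icc] at hf
          rw [mem_Icc]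
          exact ⟨hf.1.1, hf.2⟩
        · intro f _ _
          exact mul_nonneg (hw0 f) (Sc_nonneg X f)
      · apply sum_le_sum_of_subset_of_nonneg
        · intro f hf
          rw [mem_filter, mem_Icc] at hf
          rw [mem_Icc]
          omega
        · intro f _ _
          exact mul_nonneg (hw0 f) (Sc_nonneg X f)
    linarith
  exact eventually_atTop.1 ev

/-- Bombieri-Vinogradov for a family of moduli in which the multiples of `f` are rare -/
theorem fam_bv (U : ℕ) : ∃ X0 : ℝ, ∀ X : ℝ, X0 ≤ X → ∀ (I : Finset ℕ) (q r : ℕ → ℕ) (ω M : ℝ), 0 < M → 0 ≤ ω →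
    (∀ i ∈ I, 1 ≤ q i ∧ (q i : ℝ) ^ 6 ≤ X ∧ (r i).Coprime (q i) ∧ 1 / (Nat.totient (q i) : ℝ) ≤ ω) →
    (∀ f : ℕ, 1 ≤ f → ((#{i ∈ I | f ∣ q i} : ℕ) : ℝ) ^ 3 * f ≤ M ^ 3) →
    ∑ i ∈ I, |psiLogAP X (q i) (r i) - psiLog1 X / (Nat.totient (q i) : ℝ)| ≤
      ω * M * (X / Real.log X ^ U) + #I * (4 * Real.log X ^ 3) := by
  classical
  obtain ⟨X0, h0⟩ := mean_w U
  refine ⟨max X0 3, ?_⟩
  intro X hX I q r ω M hM hω hq hf
  have hX0 : X0 ≤ X := (le_max_left _ _).trans hX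
  have hX3 : 3 ≤ X := (le_max_right _ _).trans hX
  have hX1 : 1 ≤ X := by linarith
  set L := Real.log X with hL
  have hL0 : 0 ≤ L := Real.log_nonneg hX1
  set F := I.sup q with hF
  have hF6 : (F : ℝ) ^ 6 ≤ X := by
    rcases I.eq_empty_or_nonempty with hI | hI
    · rw [hF, hI]; simp; linarith
    · obtain ⟨i, hi, hi2⟩ := Finset.exists_mem_eq_sup I hI q
      rw [hF, hi2]; exact (hq i hi).2.1
  have hterm : ∀ i ∈ I, |psiLogAP X (q i) (r i) - psiLog1 X / (Nat.totient (q i) : ℝ)| ≤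
      ω * (∑ f ∈ Icc 2 F, if f ∣ q i then Sc X f else 0) + 4 * L ^ 3 := by
    intro i hi
    obtain ⟨h1, h2, h3, h4⟩ := hq i hi
    have h5 := disc_le X hX1 (q i) (r i) h1 h3
    have h6 : ∑ f ∈ (q i).divisors.filter (fun f => f ≠ 1), ∑ ψ ∈ Prim f, ‖psiLog X f ψ‖ ≤
        ∑ f ∈ Icc 2 F, if f ∣ q i then Sc X f else 0 := by
      rw [← sum_filter]
      apply sum_le_sum_of_subset_of_nonneg
      · intro f hf2
        rw [mem_filter, Nat.mem_divisors] at hf2
        rw [mem_filter, mem_Icc]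
        have h7 : 0 < f := Nat.pos_of_dvd_of_pos hf2.1.1 h1
        have h8 : f ≤ q i := Nat.le_of_dvd h1 hf2.1.1
        have h9 : q i ≤ F := Finset.le_sup (f := q) hi
        exact ⟨⟨by have := hf2.2; omega, by omega⟩, hf2.1.1⟩
      · intro f _ _; exact Sc_nonneg X f
    have h7 : 0 ≤ ∑ f ∈ (q i).divisors.filter (fun f => f ≠ 1), ∑ ψ ∈ Prim f, ‖psiLog X f ψ‖ :=
      sum_nonneg fun f _ => Sc_nonneg X f
    have h8 : 2 * ((q i).primeFactors.card * L ^ 2) ≤ 4 * L ^ 3 := by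
      have h9 := omega_le_log (q i) h1
      have h10 : Real.log (q i) ≤ L := by
        apply Real.log_le_log (by exact_mod_cast h1)
        have h11 : (1 : ℝ) ≤ q i := by exact_mod_cast h1
        exact (le_self_pow₀ h11 (by norm_num)).trans h2
      calc 2 * ((q i).primeFactors.card * L ^ 2) ≤ 2 * ((2 * L) * L ^ 2) := by gcongr; linarith
        _ = 4 * L ^ 3 := by ring
    calc _ ≤ (1 / (Nat.totient (q i) : ℝ)) * (∑ f ∈ (q i).divisors.filter (fun f => f ≠ 1),
        ∑ ψ ∈ Prim f, ‖psiLog X f ψ‖) + 2 * ((q i).primeFactors.card * L ^ 2) := h5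
      _ ≤ ω * (∑ f ∈ Icc 2 F, if f ∣ q i then Sc X f else 0) + 4 * L ^ 3 := by
          apply add_le_add _ h8
          exact mul_le_mul h4 h6 h7 hω
  refine (sum_le_sum hterm).trans ?_
  rw [sum_add_distrib, sum_const, nsmul_eq_mul, ← mul_sum]
  apply add_le_add _ le_rfl
  have h1 : ∑ i ∈ I, ∑ f ∈ Icc 2 F, (if f ∣ q i then Sc X f else 0) =
      M * ∑ f ∈ Icc 2 F, (((#{i ∈ I | f ∣ q i} : ℕ) : ℝ) / M) * Sc X f := by
    rw [sum_comm, mul_sum]
    apply sum_congr rfl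
    intro f _
    rw [← sum_filter, sum_const, nsmul_eq_mul]
    field_simp
  rw [h1]
  have h2 := h0 X hX0 (fun f => ((#{i ∈ I | f ∣ q i} : ℕ) : ℝ) / M) F (fun f => by positivity) (by
    intro f hf1
    have h3 := hf f hf1
    rw [div_pow, div_mul_eq_mul_div, div_le_one (by positivity)]
    exact h3) hF6
  calc ω * (M * ∑ f ∈ Icc 2 F, (((#{i ∈ I | f ∣ q i} : ℕ) : ℝ) / M) * Sc X f) ≤ ω * (M * (X / L ^ U)) := by
        gcongr
    _ = _ := by ring

end Pool.Agent.X56.PN
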