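import Pool.Agent.X56.PN.Smo
import Pool.Agent.W218.HF.FirstTotal

set_option autoImplicit false

/-!
The first moment over one block, for a general line.
-/

open Finset Filter Topology

namespace Pool.Agent.X56.PN

open Pool.Agent.H410R2 Pool.Agent.H398R2.BV Pool.Agent.Helper112 Pool.Agent.Erdos456

lemma prod_fac_le (S : Finset ℕ) : (∀ p ∈ S, 2 ≤ p) → ∏ p ∈ S, (1 - (p : ℝ)⁻¹)⁻¹ ≤ (#S : ℝ) + 1 := by
  classical
  induction S using Finset.induction_on_max with
  | empty => intro _; simp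
  | insert a S hmax ih =>
    intro hS
    have ha2 : 2 ≤ a := hS a (mem_insert_self _ _)
    have hna : a ∉ S := fun h => lt_irrefl _ (hmax a h)
    have ih' := ih (fun p hp => hS p (mem_insert_of_mem hp))
    have hsub : S ⊆ Ico 2 a := by
      intro p hp
      rw [mem_Ico]
      exact ⟨hS p (mem_insert_of_mem hp), hmax p hp⟩
    have hcard : #S + 2 ≤ a := by
      have := card_le_card hsub
      rw [Nat.card_Ico] at this
      omega
    have hcr : (#S : ℝ) + 2 ≤ a := by exact_mod_cast hcard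
    rw [prod_insert hna, card_insert_of_notMem hna]
    have hs0 : (0 : ℝ) ≤ #S := by positivity
    have ha0 : (0 : ℝ) < a := by linarith
    have h1 : (1 - (a : ℝ)⁻¹)⁻¹ ≤ ((#S : ℝ) + 2) / (#S + 1) := by
      have h2 : 1 - (a : ℝ)⁻¹ = (a - 1) / a := by field_simp
      rw [h2, inv_div, div_le_div_iff₀ (by linarith) (by linarith)]
      nlinarith
    have h3 : 0 ≤ ∏ p ∈ S, (1 - (p : ℝ)⁻¹)⁻¹ := by
      apply prod_nonneg
      intro p hp
      have h4 : (2 : ℝ) ≤ p := by exact_mod_cast hS p (mem_insert_of_mem hp)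
      have h5 : (p : ℝ)⁻¹ ≤ 2⁻¹ := inv_anti₀ (by norm_num) h4
      apply inv_nonneg.2
      norm_num at h5
      linarith
    calc (1 - (a : ℝ)⁻¹)⁻¹ * ∏ p ∈ S, (1 - (p : ℝ)⁻¹)⁻¹ ≤ (((#S : ℝ) + 2) / (#S + 1)) * (#S + 1) := by
          apply mul_le_mul h1 ih' h3
          positivity
      _ = ((#S + 1 : ℕ) : ℝ) + 1 := by
          push_cast
          field_simp
          ring

lemma GG_log {n : ℕ} (hn : 1 ≤ n) : GG n ≤ 1 + 2 * Real.log n := by
  rw [GG_eq_prod hn]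
  have h1 := prod_fac_le n.primeFactors (fun p hp => (Nat.prime_of_mem_primeFactors hp).two_le)
  have h2 := omega_le_log n hn
  linarith

/-- the number of `n ∈ (n0, N]` with `n h + g` prime -/
noncomputable def cn (h : ℕ) (g : ℤ) (n0 N : ℕ) : ℝ :=
  ((((Ioc n0 N).filter (fun n : ℕ => ((n : ℤ) * h + g).toNat.Prime)).card : ℕ) : ℝ)

lemma cn_nonneg (h : ℕ) (g : ℤ) (n0 N : ℕ) : 0 ≤ cn h g n0 N := Nat.cast_nonneg _

lemma to_n {h n0 N X₁ X₂ : ℕ} {g : ℤ} (hh : 0 < h)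
    (h1 : (h : ℤ) * n0 + g ≤ X₁) (h2 : (X₂ : ℤ) ≤ (h : ℤ) * N + g) :
    ((((Ioc X₁ X₂).filter (fun p => p.Prime ∧ p ≡ (g % h).toNat [MOD h])).card : ℕ) : ℝ) ≤ cn h g n0 N := by
  have h3 := Pool.Agent.W218.HF.to_b (a := 0) (t := h) (b0 := n0) (B := N) (X₁ := X₁) (X₂ := X₂) (c := g) hh
    (by simpa using h1) (by simpa using h2)
  unfold cn
  have e : (Ioc n0 N).filter (fun b : ℕ => (((0 : ℕ) : ℤ) * h ^ 2 + b * h + g).toNat.Prime) =
      (Ioc n0 N).filter (fun n : ℕ => ((n : ℤ) * h + g).toNat.Prime) := by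
    apply filter_congr
    intro b _
    simp
  rw [e] at h3
  exact_mod_cast h3

lemma cop_mod {h : ℕ} {g : ℤ} (hh : 0 < h) (hc : Nat.Coprime h g.natAbs) : Nat.Coprime (g % h).toNat h := by
  have h0 := Int.emod_nonneg g (by positivity : (h : ℤ) ≠ 0)
  have h1 : (((g % (h : ℤ)).toNat : ℕ) : ℤ) = g % (h : ℤ) := Int.toNat_of_nonneg h0
  have h2 : IsCoprime (g : ℤ) (h : ℤ) := by
    rw [Int.isCoprime_iff_gcd_eq_one]
    exact hc.symm
  have h3 : IsCoprime (g % (h : ℤ)) (h : ℤ) := by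
    rw [Int.emod_def]
    have := h2.add_mul_right_left (-(g / h))
    have e2 : g + -(g / h) * h = g - h * (g / h) := by ring
    rwa [e2] at this
  rw [← h1] at h3
  exact Nat.isCoprime_iff_coprime.1 h3

/-- the growth conditions -/
lemma ev_block (η : ℝ) (hη : 0 < η) (X0 : ℝ) (x₀ : ℕ) : ∃ N0 : ℕ, ∀ N : ℕ, N0 ≤ N →
    1 / η ≤ N ∧ X0 ≤ η * N ∧ (x₀ : ℝ) ≤ N / 2 ∧ 2 ≤ η * Real.log N ∧ - Real.log (2 * η) ≤ η * Real.log N ∧
    -Real.log η ≤ (1 / 2) * Real.log N ∧ 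
    (4 / η) * 256 * 3 ≤ Real.log N ∧ (64 / η) * 4 * 3 * Real.log N ^ 5 ≤ N ∧ 
    6 * Real.log N ^ 2 * (N : ℝ) ^ ((3 : ℝ) / 5) ≤ N := by
  have hlog : Tendsto (fun N : ℕ => Real.log N) atTop atTop := Real.tendsto_log_atTop.comp tendsto_natCast_atTop_atTop
  have hN : Tendsto (fun N : ℕ => (N : ℝ)) atTop atTop := tendsto_natCast_atTop_atTop
  have h8 : ∀ᶠ N : ℕ in atTop, (64 / η) * 4 * 3 * Real.log N ^ 5 ≤ N := by
    have h1 := ev_log ((64 / η) * 4 * 3) 5 1 (by norm_num)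
    filter_upwards [hN.eventually h1] with N h2
    rw [Real.rpow_one] at h2
    exact h2
  have h9 : ∀ᶠ N : ℕ in atTop, 6 * Real.log N ^ 2 * (N : ℝ) ^ ((3 : ℝ) / 5) ≤ N := by
    have h1 := ev_log 6 2 (2 / 5) (by norm_num)
    filter_upwards [hN.eventually h1, hN.eventually_ge_atTop 1] with N h2 h3
    calc 6 * Real.log N ^ 2 * (N : ℝ) ^ ((3 : ℝ) / 5) ≤ (N : ℝ) ^ ((2 : ℝ) / 5) * (N : ℝ) ^ ((3 : ℝ) / 5) := by gcongr
      _ = N := by
          rw [← Real.rpow_add (by linarith)]; norm_num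
  have hall := (hN.eventually_ge_atTop (1 / η)).and ((hN.eventually_ge_atTop (X0 / η)).and
    ((hN.eventually_ge_atTop (2 * (x₀ : ℝ))).and ((hlog.eventually_ge_atTop (2 / η)).and
    ((hlog.eventually_ge_atTop (-Real.log (2 * η) / η)).and ((hlog.eventually_ge_atTop (2 * (- Real.log η))).and
    ((hlog.eventually_ge_atTop (max 1 ((4 / η) * 256 * 3))).and (h8.and h9)))))))
  obtain ⟨N0, hN0⟩ := eventually_atTop.1 hall
  refine ⟨N0, fun N hNN => ?_⟩
  obtain ⟨a1, a2, a3, a4, a5, a6, a7, a8, a9⟩ := hN0 N hNN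
  refine ⟨a1, ?_, by linarith, ?_, ?_, by linarith, ?_, a8, a9⟩
  · rw [div_le_iff₀ hη] at a2; linarith
  · rw [div_le_iff₀ hη] at a4; linarith
  · rw [div_le_iff₀ hη] at a5; linarith
  · exact (le_max_right _ _).trans a7


theorem blockH (η : ℝ) (hη : 0 < η) (hη2 : η ≤ 1 / 100) : ∃ N0 : ℕ, ∀ N : ℕ, N0 ≤ N →
    ∀ (V Lg M : ℝ) (T : Finset ℕ) (H : ℕ → ℕ) (G : ℕ → ℤ), 1 ≤ V → V ^ 5 ≤ η * N → 0 < Lg →
    Real.log (N * V) ≤ (1 + η) * Lg →
    (∀ t ∈ T, 1 ≤ H t ∧ (1 - 4 * η) * V ≤ H t ∧ (H t : ℝ) ≤ V ∧ |(G t : ℝ)| ≤ η * N * V ∧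
      Nat.Coprime (H t) (G t).natAbs) → 0 < M →
    (∀ f : ℕ, 1 ≤ f → ((#{t ∈ T | f ∣ H t} : ℕ) : ℝ) ^ 3 * f ≤ M ^ 3) →
    (1 - 16 * η) * (N / Lg) * ∑ t ∈ T, GG (H t) - N * M / Real.log N ^ 2 ≤
      ∑ t ∈ T, cn (H t) (G t) ⌊η * N⌋₊ N := by
  classical
  obtain ⟨X0, hfam⟩ := fam_bv 4
  obtain ⟨x₀, hpnt⟩ := Pool.Agent.H373R2.SH.pnt_windowB 4 (by norm_num) η hη
  obtain ⟨N0, hN0⟩ := ev_block η hη X0 x₀
  refine ⟨max N0 3, fun N hN V Lg M T H G hV hV5 hLg hlogNV hT hM hf => ?_⟩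
  obtain ⟨a1, a2, a3, a4, a5, a6, a7, a8, a9⟩ := hN0 N ((le_max_left _ _).trans hN)
  have hN3 : 3 ≤ N := (le_max_right _ _).trans hN
  have hNr : (3 : ℝ) ≤ N := by exact_mod_cast hN3
  have hN0' : (0 : ℝ) < N := by linarith
  have hηN : 1 ≤ η * N := by
    rw [div_le_iff₀ hη] at a1; linarith
  set P : ℝ := N * V with hP
  have hNP : (N : ℝ) ≤ P := le_mul_of_one_le_right hN0'.le hV
  have hP0 : 0 < P := by linarith
  have hηNP : η * N ≤ η * P := mul_le_mul_of_nonneg_left hNP hη.le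
  have hηP : 1 ≤ η * P := hηN.trans hηNP
  set lN := Real.log N with hlN
  set lP := Real.log P with hlP
  have hlNP : lN ≤ lP := Real.log_le_log hN0' hNP
  have hlN1 : 100 ≤ lN := by
    have h1 : 0 ≤ lN := Real.log_nonneg (by linarith)
    have h2 : η * lN ≤ (1 / 100) * lN := mul_le_mul_of_nonneg_right hη2 h1
    linarith
  have hlP0 : 0 < lP := by linarith
  -- sizes
  set X₁ : ℕ := ⌈2 * η * P⌉₊ with hX₁
  set X₂ : ℕ := ⌊(1 - 5 * η) * P⌋₊ with hX₂
  have hX1l : 2 * η * P ≤ X₁ := Nat.le_ceil _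
  have hX1u : (X₁ : ℝ) ≤ 3 * η * P := by
    have := Nat.ceil_lt_add_one (show 0 ≤ 2 * η * P by positivity)
    linarith
  have h5η : 0 < 1 - 5 * η := by linarith
  have hX2u : (X₂ : ℝ) ≤ (1 - 5 * η) * P := Nat.floor_le (by positivity)
  have hX2l : (1 - 6 * η) * P ≤ X₂ := by
    have := Nat.lt_floor_add_one ((1 - 5 * η) * P)
    rw [← hX₂] at this
    linarith
  have hX2P : (X₂ : ℝ) ≤ P := by
    have : (1 - 5 * η) * P ≤ 1 * P := mul_le_mul_of_nonneg_right (by linarith) hP0.le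
    linarith
  set lam : ℝ := 1 + η with hlam
  have hlam1 : 1 < lam := by rw [hlam]; linarith
  have hlam0 : 0 < lam := by linarith
  set Y₁ : ℕ := ⌈lam * X₁⌉₊ with hY₁
  set Y₂ : ℕ := ⌊X₂ / lam⌋₊ with hY₂
  have hY1l : lam * X₁ ≤ Y₁ := Nat.le_ceil _
  have hX1pos : 1 ≤ X₁ := by
    have : (0 : ℝ) < X₁ := by linarith
    exact_mod_cast this
  have hX1r : (1 : ℝ) ≤ X₁ := by exact_mod_cast hX1pos
  have hY1u : (Y₁ : ℝ) ≤ 5 * η * P := by
    have h1 := Nat.ceil_lt_add_one (show 0 ≤ lam * X₁ by positivity)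
    have h2 : lam * X₁ ≤ lam * (3 * η * P) := mul_le_mul_of_nonneg_left hX1u hlam0.le
    have h3 : lam * (3 * η * P) ≤ 1.1 * (3 * η * P) := by
      apply mul_le_mul_of_nonneg_right _ (by positivity)
      rw [hlam]; linarith
    linarith
  have hdivl : (1 - 7 * η) * P ≤ X₂ / lam := by
    rw [le_div_iff₀ hlam0]
    refine le_trans ?_ hX2l
    have : (1 - 7 * η) * P * lam = ((1 - 7 * η) * (1 + η)) * P := by rw [hlam]; ring
    rw [this]
    apply mul_le_mul_of_nonneg_right _ hP0.le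
    have h1 : (1 - 7 * η) * (1 + η) = 1 - 6 * η - 7 * (η * η) := by ring
    have h2 : 0 ≤ η * η := mul_self_nonneg η
    rw [h1]; linarith
  have hY2u : (Y₂ : ℝ) ≤ X₂ / lam := Nat.floor_le (by positivity)
  have hY2l : (1 - 8 * η) * P ≤ Y₂ := by
    have := Nat.lt_floor_add_one ((X₂ : ℝ) / lam)
    rw [← hY₂] at this
    linarith
  have hlX : lam * X₁ ≤ X₂ / lam := by
    have h1 : 5 * η * P ≤ (1 - 7 * η) * P := mul_le_mul_of_nonneg_right (by linarith) hP0.le
    linarith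
  have hY12r : (Y₁ : ℝ) ≤ Y₂ := by
    have h1 : 5 * η * P ≤ (1 - 8 * η) * P := mul_le_mul_of_nonneg_right (by linarith) hP0.le
    linarith
  have hY12 : Y₁ ≤ Y₂ := by exact_mod_cast hY12r
  set W : ℕ := Y₂ - Y₁ with hW
  have hWr : (W : ℝ) = (Y₂ : ℝ) - Y₁ := by rw [hW, Nat.cast_sub hY12]
  have hWl : (1 - 13 * η) * P ≤ W := by rw [hWr]; linarith
  have hWhalf : P / 2 ≤ W := by
    have h1 : (1 / 2) * P ≤ (1 - 13 * η) * P := mul_le_mul_of_nonneg_right (by linarith) hP0.le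
    linarith
  have hWx₀ : x₀ ≤ W := by
    have : (x₀ : ℝ) ≤ W := by linarith
    exact_mod_cast this
  have hYW : Y₁ ≤ 4 * W := by
    have h1 : 5 * η * P ≤ 2 * P := mul_le_mul_of_nonneg_right (by linarith) hP0.le
    have : (Y₁ : ℝ) ≤ 4 * W := by linarith
    exact_mod_cast this
  have hpn := hpnt W hWx₀ Y₁ hYW
  have hWY : W + Y₁ = Y₂ := by omega
  rw [hWY] at hpn
  -- logs
  have hW1 : (1 : ℝ) < W := by linarith
  have hlW0 : 0 < Real.log W := Real.log_pos hW1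
  have hX2W : (W : ℝ) ≤ X₂ := by
    have h1 : (X₂ : ℝ) / lam ≤ X₂ := div_le_self (by positivity) hlam1.le
    rw [hWr]
    have : (0 : ℝ) ≤ Y₁ := Nat.cast_nonneg _
    linarith
  have hlWX : Real.log W ≤ lP := Real.log_le_log (by linarith) (hX2W.trans hX2P)
  have hX2one : (1 : ℝ) < X₂ := by linarith
  have hlX2 : 0 < Real.log X₂ := Real.log_pos hX2one
  have hlX2P : Real.log X₂ ≤ lP := Real.log_le_log (by linarith) hX2P
  have hlX1 : (1 - η) * lP ≤ Real.log X₁ := by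
    have h1 : Real.log (2 * η * P) ≤ Real.log X₁ := Real.log_le_log (by positivity) hX1l
    rw [Real.log_mul (by positivity) hP0.ne'] at h1
    have h2 : η * lN ≤ η * lP := mul_le_mul_of_nonneg_left hlNP hη.le
    linarith
  have hlX1' : 0 < Real.log X₁ := by
    have : 0 < (1 - η) * lP := mul_pos (by linarith) hlP0
    linarith
  set ℓ : ℝ := Real.log lam with hℓ
  have hℓ0 : 0 < ℓ := Real.log_pos hlam1
  have hℓl : η / 2 ≤ ℓ := by
    have h1 := Real.one_sub_inv_le_log_of_pos hlam0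
    have h2 : η / 2 ≤ 1 - lam⁻¹ := by
      have h3 : 1 - lam⁻¹ = η / lam := by rw [hlam]; field_simp; ring
      rw [h3, le_div_iff₀ hlam0]
      have h4 : η * lam ≤ η * 2 := mul_le_mul_of_nonneg_left (by rw [hlam]; linarith) hη.le
      linarith
    linarith
  -- main term
  have hSm1 := Sm1_ge X₁ X₂ Y₁ Y₂ hX1pos lam hlam1 hlX hY1l hY2u hY12
  have hmain : (1 - 16 * η) * (P / Lg) ≤ Sm1 X₁ X₂ lam / (ℓ * Real.log X₂) := by
    rw [le_div_iff₀ (by positivity)]
    refine le_trans ?_ hSm1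
    have h1 : (1 - η) * ((1 - 13 * η) * P / lP) ≤ (Nat.primeCounting Y₂ : ℝ) - Nat.primeCounting Y₁ := by
      refine le_trans ?_ hpn
      apply mul_le_mul_of_nonneg_left _ (by linarith)
      apply div_le_div₀ (by linarith) hWl hlW0 hlWX
    have h2 : 0 ≤ (1 - η) * ((1 - 13 * η) * P / lP) := by
      have h3 : 0 ≤ 1 - η := by linarith
      have h4 : 0 ≤ 1 - 13 * η := by linarith
      positivity
    have h3 : (1 - η) * lP * ((1 - η) * ((1 - 13 * η) * P / lP)) ≤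
        Real.log X₁ * ((Nat.primeCounting Y₂ : ℝ) - Nat.primeCounting Y₁) :=
      mul_le_mul hlX1 h1 h2 hlX1'.le
    have h4 : (1 - η) * lP * ((1 - η) * ((1 - 13 * η) * P / lP)) = ((1 - η) ^ 2 * (1 - 13 * η)) * P := by
      field_simp
    rw [h4] at h3
    calc (1 - 16 * η) * (P / Lg) * (ℓ * Real.log X₂) ≤ (1 - 16 * η) * (P / Lg) * (ℓ * ((1 + η) * Lg)) := by
          have h5 : 0 ≤ 1 - 16 * η := by linarith
          have h6 : Real.log X₂ ≤ (1 + η) * Lg := hlX2P.trans hlogNV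
          gcongr
      _ = ℓ * (((1 - 16 * η) * (1 + η)) * P) := by field_simp
      _ ≤ ℓ * (((1 - η) ^ 2 * (1 - 13 * η)) * P) := by
          apply mul_le_mul_of_nonneg_left _ hℓ0.le
          apply mul_le_mul_of_nonneg_right _ hP0.le
          have e1 : (1 - η) ^ 2 * (1 - 13 * η) - (1 - 16 * η) * (1 + η) = (43 - 13 * η) * η ^ 2 := by ring
          have e2 : 0 ≤ (43 - 13 * η) * η ^ 2 := mul_nonneg (by linarith) (sq_nonneg η)
          linarith
      _ ≤ _ := mul_le_mul_of_nonneg_left h3 hℓ0.le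
  -- the discrepancies
  set rr : ℕ → ℕ := fun t => (G t % (H t : ℤ)).toNat with hrr
  set Dd : ℝ → ℕ → ℝ := fun X t => |psiLogAP X (H t) (rr t) - psiLog1 X / (Nat.totient (H t) : ℝ)| with hDd
  have hVlog : Real.log V ≤ lP := Real.log_le_log (by linarith)
    (le_mul_of_one_le_left (by linarith) (by linarith))
  set ω : ℝ := 4 * lP / V with hω
  have hω0 : 0 ≤ ω := by positivity
  have hωt : ∀ t ∈ T, 1 / (Nat.totient (H t) : ℝ) ≤ ω := by
    intro t ht
    obtain ⟨b1, b2, b3, b4, b5⟩ := hT t ht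
    have hφ : (0 : ℝ) < Nat.totient (H t) := by exact_mod_cast Nat.totient_pos.2 b1
    have hH0 : (0 : ℝ) < H t := by exact_mod_cast b1
    have h1 := GG_log b1
    have h2 : Real.log (H t) ≤ lP := (Real.log_le_log hH0 b3).trans hVlog
    have h3 : 1 / (Nat.totient (H t) : ℝ) = GG (H t) / H t := by
      unfold GG; field_simp
    rw [h3, hω, div_le_div_iff₀ hH0 (by linarith)]
    have h4 : (3 / 4 : ℝ) * V ≤ H t := by
      have : (3 / 4 : ℝ) * V ≤ (1 - 4 * η) * V := mul_le_mul_of_nonneg_right (by linarith) (by linarith)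
      linarith
    calc GG (H t) * V ≤ (3 * lP) * V := by
          apply mul_le_mul_of_nonneg_right _ (by linarith)
          linarith
      _ = 4 * lP * ((3 / 4 : ℝ) * V) := by ring
      _ ≤ 4 * lP * H t := mul_le_mul_of_nonneg_left h4 (by linarith)
  have hV6 : V ^ 6 ≤ η * P := by
    calc V ^ 6 = V ^ 5 * V := by ring
      _ ≤ (η * N) * V := mul_le_mul_of_nonneg_right hV5 (by linarith)
      _ = _ := by rw [hP]; ring
  have hTM : (#T : ℝ) ≤ M := by
    have h1 := hf 1 le_rfl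
    have h2 : {t ∈ T | 1 ∣ H t} = T := filter_true_of_mem fun t _ => one_dvd _
    rw [h2, Nat.cast_one, mul_one] at h1
    exact (pow_le_pow_iff_left₀ (by positivity) hM.le (by norm_num)).1 h1
  have hD : ∀ X : ℝ, η * P ≤ X → X ≤ P → ∑ t ∈ T, Dd X t ≤ 64 * (N * M / lN ^ 3) + 4 * M * lP ^ 3 := by
    intro X c1 c2
    have hX : X0 ≤ X := by linarith
    have hX1 : 1 ≤ X := by linarith
    have h1 := hfam X hX T H rr ω M hM hω0 (by
      intro t ht
      obtain ⟨b1, b2, b3, b4, b5⟩ := hT t ht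
      refine ⟨b1, ?_, cop_mod b1 b5, hωt t ht⟩
      have : ((H t : ℕ) : ℝ) ^ 6 ≤ V ^ 6 := pow_le_pow_left₀ (by positivity) b3 6
      linarith) hf
    refine h1.trans ?_
    have hlX : lN / 2 ≤ Real.log X := by
      have h2 : Real.log (η * P) ≤ Real.log X := Real.log_le_log (by positivity) c1
      rw [Real.log_mul hη.ne' hP0.ne'] at h2
      linarith
    have hlX' : lP / 2 ≤ Real.log X := by
      have h2 : Real.log (η * P) ≤ Real.log X := Real.log_le_log (by positivity) c1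
      rw [Real.log_mul hη.ne' hP0.ne'] at h2
      linarith
    have hlXP : Real.log X ≤ lP := Real.log_le_log (by linarith) c2
    have hlX0 : 0 < Real.log X := by linarith
    apply add_le_add
    · have h2 : X / Real.log X ^ 4 ≤ 16 * (P / lP ^ 4) := by
        calc X / Real.log X ^ 4 ≤ P / (lP / 2) ^ 4 := by gcongr
          _ = 16 * (P / lP ^ 4) := by field_simp; ring
      calc ω * M * (X / Real.log X ^ 4) ≤ ω * M * (16 * (P / lP ^ 4)) := by gcongr
        _ = 64 * (N * M / lP ^ 3) := by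
            rw [hω, hP]
            field_simp
            ring
        _ ≤ 64 * (N * M / lN ^ 3) := by gcongr
    · calc (#T : ℝ) * (4 * Real.log X ^ 3) ≤ M * (4 * lP ^ 3) := by gcongr
        _ = _ := by ring
  have hsum4 : ∑ t ∈ T, (Dd X₂ t + Dd (X₂ / lam) t + Dd (lam * X₁) t + Dd X₁ t) ≤
      4 * (64 * (N * M / lN ^ 3) + 4 * M * lP ^ 3) := by
    rw [sum_add_distrib, sum_add_distrib, sum_add_distrib]
    have hbigP : η * P ≤ (1 - 7 * η) * P := mul_le_mul_of_nonneg_right (by linarith) hP0.le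
    have hlx1 : (X₁ : ℝ) ≤ lam * X₁ := le_mul_of_one_le_left (by linarith) hlam1.le
    have hd : (X₂ : ℝ) / lam ≤ X₂ := div_le_self (by positivity) hlam1.le
    have c1 := hD X₂ (by linarith) hX2P
    have c2 := hD (X₂ / lam) (by linarith) (by linarith)
    have c3 := hD (lam * X₁) (by linarith) (by linarith)
    have c4 := hD X₁ (by linarith) (by linarith)
    linarith
  -- termwise
  have hterm : ∀ t ∈ T, (1 - 16 * η) * (N / Lg) * GG (H t) -
      (Dd X₂ t + Dd (X₂ / lam) t + Dd (lam * X₁) t + Dd X₁ t) / (ℓ * Real.log X₂) - 2 * Real.sqrt X₂ ≤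
      cn (H t) (G t) ⌊η * N⌋₊ N := by
    intro t ht
    obtain ⟨b1, b2, b3, b4, b5⟩ := hT t ht
    have hφ : (0 : ℝ) < Nat.totient (H t) := by exact_mod_cast Nat.totient_pos.2 b1
    have hH0 : (0 : ℝ) < H t := by exact_mod_cast b1
    have hG := abs_le.1 b4
    have hn0 : ((⌊η * N⌋₊ : ℕ) : ℝ) ≤ η * N := Nat.floor_le (by positivity)
    have hcnt := to_n (h := H t) (n0 := ⌊η * N⌋₊) (N := N) (X₁ := X₁) (X₂ := X₂) (g := G t) b1 (by
      have : (H t : ℝ) * ((⌊η * N⌋₊ : ℕ) : ℝ) + G t ≤ X₁ := by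
        refine le_trans ?_ hX1l
        have h1 : (H t : ℝ) * ((⌊η * N⌋₊ : ℕ) : ℝ) ≤ V * (η * N) := by gcongr
        have e : 2 * η * P = V * (η * N) + η * N * V := by rw [hP]; ring
        linarith
      exact_mod_cast this) (by
      have : (X₂ : ℝ) ≤ (H t : ℝ) * N + G t := by
        refine hX2u.trans ?_
        have h1 : (1 - 4 * η) * V * N ≤ H t * N := by gcongr
        have e : (1 - 5 * η) * P = (1 - 4 * η) * V * N - η * N * V := by rw [hP]; ring
        linarith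
      exact_mod_cast this)
    have hup := Sm_le X₁ X₂ hX1pos lam hlam1 hlX (H t) (rr t)
    have hlow : Sm1 X₁ X₂ lam / (Nat.totient (H t) : ℝ) -
        (Dd X₂ t + Dd (X₂ / lam) t + Dd (lam * X₁) t + Dd X₁ t) ≤ Sm X₁ X₂ lam (H t) (rr t) := by
      have i1 := neg_abs_le (psiLogAP X₂ (H t) (rr t) - psiLog1 X₂ / (Nat.totient (H t) : ℝ))
      have i2 := le_abs_self (psiLogAP (X₂ / lam) (H t) (rr t) - psiLog1 (X₂ / lam) / (Nat.totient (H t) : ℝ))
      have i3 := le_abs_self (psiLogAP (lam * X₁) (H t) (rr t) - psiLog1 (lam * X₁) / (Nat.totient (H t) : ℝ))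
      have i4 := neg_abs_le (psiLogAP X₁ (H t) (rr t) - psiLog1 X₁ / (Nat.totient (H t) : ℝ))
      have e : Sm1 X₁ X₂ lam / (Nat.totient (H t) : ℝ) = psiLog1 X₂ / (Nat.totient (H t) : ℝ) -
          psiLog1 (X₂ / lam) / (Nat.totient (H t) : ℝ) - psiLog1 (lam * X₁) / (Nat.totient (H t) : ℝ) +
          psiLog1 X₁ / (Nat.totient (H t) : ℝ) := by unfold Sm1; ring
      rw [e]
      unfold Sm
      simp only [hDd]
      linarith
    have h1 : Sm1 X₁ X₂ lam / (Nat.totient (H t) : ℝ) -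
        (Dd X₂ t + Dd (X₂ / lam) t + Dd (lam * X₁) t + Dd X₁ t) ≤
        ℓ * (Real.log X₂ * cn (H t) (G t) ⌊η * N⌋₊ N + 2 * Real.sqrt X₂ * Real.log X₂) := by
      refine hlow.trans (hup.trans ?_)
      apply mul_le_mul_of_nonneg_left _ hℓ0.le
      apply add_le_add_left
      exact mul_le_mul_of_nonneg_left hcnt hlX2.le
    have h2 := div_le_div_of_nonneg_right h1 (show 0 ≤ ℓ * Real.log X₂ by positivity)
    have e2 : ℓ * (Real.log X₂ * cn (H t) (G t) ⌊η * N⌋₊ N + 2 * Real.sqrt X₂ * Real.log X₂) / (ℓ * Real.log X₂) =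
        cn (H t) (G t) ⌊η * N⌋₊ N + 2 * Real.sqrt X₂ := by field_simp
    rw [e2, sub_div] at h2
    have h3 : (1 - 16 * η) * (N / Lg) * GG (H t) ≤ Sm1 X₁ X₂ lam / (Nat.totient (H t) : ℝ) / (ℓ * Real.log X₂) := by
      have h4 : Sm1 X₁ X₂ lam / (Nat.totient (H t) : ℝ) / (ℓ * Real.log X₂) =
          (Sm1 X₁ X₂ lam / (ℓ * Real.log X₂)) * (1 / (Nat.totient (H t) : ℝ)) := by ring
      rw [h4]
      refine le_trans ?_ (mul_le_mul_of_nonneg_right hmain (by positivity))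
      have h5 : 0 ≤ 1 - 16 * η := by linarith
      have h6 : GG (H t) ≤ V / (Nat.totient (H t) : ℝ) := by
        unfold GG
        exact div_le_div_of_nonneg_right b3 hφ.le
      calc (1 - 16 * η) * (N / Lg) * GG (H t) ≤ (1 - 16 * η) * (N / Lg) * (V / (Nat.totient (H t) : ℝ)) := by gcongr
        _ = _ := by rw [hP]; ring
    linarith
  have hfin := sum_le_sum hterm
  rw [sum_sub_distrib, sum_sub_distrib, ← mul_sum, ← sum_div, sum_const, nsmul_eq_mul] at hfin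
  -- the error
  have hlX2half : 1 ≤ Real.log X₂ := by
    have h2 : Real.log (η * P) ≤ Real.log X₂ := by
      apply Real.log_le_log (by positivity)
      have : η * P ≤ (1 - 6 * η) * P := mul_le_mul_of_nonneg_right (by linarith) hP0.le
      linarith
    rw [Real.log_mul hη.ne' hP0.ne'] at h2
    linarith
  have hPN2 : lP ≤ 2 * lN := by
    have h1 : P ≤ (N : ℝ) ^ 2 := by
      rw [hP, sq]
      apply mul_le_mul_of_nonneg_left _ hN0'.le
      have h2 : V ≤ V ^ 5 := le_self_pow₀ hV (by norm_num)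
      have h3 : η * N ≤ N := mul_le_of_le_one_left hN0'.le (by linarith)
      linarith
    have h2 := Real.log_le_log hP0 h1
    rw [Real.log_pow] at h2
    exact_mod_cast h2
  have hsq : Real.sqrt X₂ ≤ (N : ℝ) ^ ((3 : ℝ) / 5) := by
    apply Real.sqrt_le_iff.2
    refine ⟨by positivity, ?_⟩
    refine hX2P.trans ?_
    have h1 : P ^ 5 ≤ (((N : ℝ) ^ ((3 : ℝ) / 5)) ^ 2) ^ 5 := by
      have e1 : (((N : ℝ) ^ ((3 : ℝ) / 5)) ^ 2) ^ 5 = (N : ℝ) ^ 6 := by
        rw [← pow_mul, ← Real.rpow_natCast, ← Real.rpow_mul hN0'.le, ← Real.rpow_natCast]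
        norm_num
      rw [e1, hP, mul_pow]
      have h2 : V ^ 5 ≤ N := by
        have h3 : η * N ≤ N := mul_le_of_le_one_left hN0'.le (by linarith)
        linarith
      calc (N : ℝ) ^ 5 * V ^ 5 ≤ (N : ℝ) ^ 5 * N := by gcongr
        _ = _ := by ring
    exact (pow_le_pow_iff_left₀ hP0.le (by positivity) (by norm_num)).1 h1
  have herr1 : (∑ t ∈ T, (Dd X₂ t + Dd (X₂ / lam) t + Dd (lam * X₁) t + Dd X₁ t)) / (ℓ * Real.log X₂) ≤
      (2 / 3) * (N * M / lN ^ 2) := by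
    have hnn : 0 ≤ 4 * (64 * (N * M / lN ^ 3) + 4 * M * lP ^ 3) := by positivity
    have hℓX : η / 2 ≤ ℓ * Real.log X₂ := hℓl.trans (le_mul_of_one_le_right hℓ0.le hlX2half)
    calc _ ≤ (4 * (64 * (N * M / lN ^ 3) + 4 * M * lP ^ 3)) / (η / 2) := by
          apply div_le_div₀ hnn hsum4 (by positivity) hℓX
      _ = (2 / η) * (256 * (N * M / lN ^ 3)) + (32 / η) * M * lP ^ 3 := by field_simp; ring
      _ ≤ (1 / 3) * (N * M / lN ^ 2) + (1 / 3) * (N * M / lN ^ 2) := by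
          apply add_le_add
          · have h1 : (2 / η) * (256 * (N * M / lN ^ 3)) = ((2 / η) * 256 * 3 / lN) * ((1 / 3) * (N * M / lN ^ 2)) := by
              field_simp
            rw [h1]
            have h2 : (2 / η) * 256 * 3 / lN ≤ 1 := by
              rw [div_le_one (by linarith)]
              have h4 : 0 ≤ (2 / η) * 256 * 3 := by positivity
              have h5 : (4 / η) * 256 * 3 = 2 * ((2 / η) * 256 * 3) := by ring
              linarith
            have h3 : 0 ≤ (1 / 3) * (N * M / lN ^ 2) := by positivity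
            calc _ ≤ 1 * ((1 / 3) * (N * M / lN ^ 2)) := mul_le_mul_of_nonneg_right h2 h3
              _ = _ := one_mul _
          · have h1 : (32 / η) * M * lP ^ 3 ≤ (32 / η) * M * (2 * lN) ^ 3 := by gcongr
            refine h1.trans ?_
            rw [mul_div_assoc', le_div_iff₀ (by positivity)]
            have h2 : (32 / η) * M * (2 * lN) ^ 3 * lN ^ 2 = (1 / 3) * M * ((64 / η) * 4 * 3 * lN ^ 5) := by ring
            rw [h2]
            have h3 : (1 / 3) * M * ((64 / η) * 4 * 3 * lN ^ 5) ≤ (1 / 3) * M * N := by gcongr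
            linarith
      _ = _ := by ring
  have herr2 : (#T : ℝ) * (2 * Real.sqrt X₂) ≤ (1 / 3) * (N * M / lN ^ 2) := by
    calc (#T : ℝ) * (2 * Real.sqrt X₂) ≤ M * (2 * (N : ℝ) ^ ((3 : ℝ) / 5)) := by gcongr
      _ = (1 / 3) * M * ((6 * lN ^ 2 * (N : ℝ) ^ ((3 : ℝ) / 5)) / lN ^ 2) := by field_simp; ring
      _ ≤ (1 / 3) * M * (N / lN ^ 2) := by gcongr
      _ = _ := by ring
  linarith

end Pool.Agent.X56.PN
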