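import Pool.Agent.W218.HF.Second

set_option autoImplicit false

/-!
The values of a quadratic polynomial divisible by `f`, and the sixth moment of `n / φ(n)` over them.
-/

open Finset Filter Topology

namespace Pool.Agent.X56.PN

open Pool.Agent.Erdos456 Pool.Agent.Erdos456.Mert Pool.Agent.W218.HF

lemma three_roots (a b c f t₁ t₂ t₃ : ℤ) (h₁ : f ∣ a * t₁ ^ 2 + b * t₁ + c) (h₂ : f ∣ a * t₂ ^ 2 + b * t₂ + c)
    (h₃ : f ∣ a * t₃ ^ 2 + b * t₃ + c) : f ∣ a * ((t₂ - t₁) * (t₃ - t₂) * (t₃ - t₁)) := by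
  have e : a * ((t₂ - t₁) * (t₃ - t₂) * (t₃ - t₁)) =
      (a * t₁ ^ 2 + b * t₁ + c) * (t₃ - t₂) - (a * t₂ ^ 2 + b * t₂ + c) * ((t₃ - t₂) + (t₂ - t₁)) +
      (a * t₃ ^ 2 + b * t₃ + c) * (t₂ - t₁) := by ring
  rw [e]
  exact dvd_add (dvd_sub (h₁.mul_right _) (h₂.mul_right _)) (h₃.mul_right _)

/-- at most two values in a short window -/
lemma root_window (a f L : ℕ) (ha : 1 ≤ a) (b c : ℤ) (hf : a * L ^ 3 < f) (S : Finset ℕ) (s : ℕ)
    (hS : ∀ t ∈ S, s ≤ t ∧ t ≤ s + L ∧ (f : ℤ) ∣ (a : ℤ) * t ^ 2 + b * t + c) : #S ≤ 2 := by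
  by_contra hcon
  push Not at hcon
  obtain ⟨t₁, t₂, t₃, h1, h2, h3, h12, h13, h23⟩ := Finset.two_lt_card_iff.1 hcon
  obtain ⟨a1, a2, a3⟩ := hS t₁ h1
  obtain ⟨b1, b2, b3⟩ := hS t₂ h2
  obtain ⟨c1, c2, c3⟩ := hS t₃ h3
  have hd := three_roots a b c f t₁ t₂ t₃ a3 b3 c3
  set Z : ℤ := (a : ℤ) * (((t₂ : ℤ) - t₁) * ((t₃ : ℤ) - t₂) * ((t₃ : ℤ) - t₁)) with hZ
  have hZ0 : Z ≠ 0 := by
    rw [hZ]
    have g1 : (a : ℤ) ≠ 0 := by exact_mod_cast (by omega : a ≠ 0)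
    have g2 : (t₂ : ℤ) - t₁ ≠ 0 := by omega
    have g3 : (t₃ : ℤ) - t₂ ≠ 0 := by omega
    have g4 : (t₃ : ℤ) - t₁ ≠ 0 := by omega
    exact mul_ne_zero g1 (mul_ne_zero (mul_ne_zero g2 g3) g4)
  have hle : (f : ℤ) ≤ |Z| := by
    have := Int.le_of_dvd (abs_pos.2 hZ0) ((dvd_abs _ _).2 hd)
    exact this
  have hub : |Z| ≤ (a : ℤ) * (L : ℤ) ^ 3 := by
    rw [hZ, abs_mul, abs_mul, abs_mul, Nat.abs_cast]
    have g2 : |(t₂ : ℤ) - t₁| ≤ L := by rw [abs_le]; constructor <;> omega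
    have g3 : |(t₃ : ℤ) - t₂| ≤ L := by rw [abs_le]; constructor <;> omega
    have g4 : |(t₃ : ℤ) - t₁| ≤ L := by rw [abs_le]; constructor <;> omega
    calc (a : ℤ) * (|(t₂ : ℤ) - t₁| * |(t₃ : ℤ) - t₂| * |(t₃ : ℤ) - t₁|) ≤ a * (L * L * L) := by gcongr
      _ = _ := by ring
  have : (f : ℤ) ≤ (a : ℤ) * (L : ℤ) ^ 3 := hle.trans hub
  have h5 : f ≤ a * L ^ 3 := by exact_mod_cast this
  omega

/-- the count of the multiples of `f` -/
theorem root_count (a f L y : ℕ) (ha : 1 ≤ a) (b c : ℤ) (hf : a * L ^ 3 < f) (S : Finset ℕ) (hS : S ⊆ Icc 1 y)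
    (hd : ∀ t ∈ S, (f : ℤ) ∣ (a : ℤ) * t ^ 2 + b * t + c) : #S ≤ 2 * (y / (L + 1) + 1) := by
  have h1 := card_le_mul_card_image_of_maps_to (f := fun t => t / (L + 1)) (s := S) (t := range (y / (L + 1) + 1))
    (by
      intro t ht
      have := mem_Icc.1 (hS ht)
      rw [mem_range]
      exact Nat.lt_succ_of_le (Nat.div_le_div_right this.2)) 2 (by
      intro j _
      apply root_window a f L ha b c hf _ (j * (L + 1))
      intro t ht
      rw [mem_filter] at ht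
      have h2 := Nat.div_add_mod t (L + 1)
      have h3 := Nat.mod_lt t (show 0 < L + 1 by omega)
      have h4 : t / (L + 1) = j := ht.2
      rw [h4] at h2
      refine ⟨?_, ?_, hd t ht.1⟩
      · rw [mul_comm]; omega
      · rw [mul_comm]; omega)
  rwa [card_range] at h1

/-- the cubic form of the count -/
theorem root_cube (a : ℕ) (ha : 1 ≤ a) (b c : ℤ) (y : ℕ) (H : ℕ → ℕ) (S : Finset ℕ) (hS : S ⊆ Icc 1 y)
    (hH : ∀ t ∈ S, 1 ≤ H t ∧ ((H t : ℕ) : ℤ) = (a : ℤ) * t ^ 2 + b * t + c) (f : ℕ) (hf : 1 ≤ f) :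
    ((#{t ∈ S | f ∣ H t} : ℕ) : ℝ) ^ 3 * f ≤ (((6 * a * (a + b.natAbs + c.natAbs) * y : ℕ)) : ℝ) ^ 3 := by
  classical
  set A : ℕ := a + b.natAbs + c.natAbs with hA
  have hA1 : 1 ≤ A := by omega
  have hex : ∃ m : ℕ, f ≤ a * m ^ 3 := ⟨f, by
    calc f = 1 * f := (one_mul f).symm
      _ ≤ a * f ^ 3 := Nat.mul_le_mul ha (Nat.le_self_pow (by norm_num) f)⟩
  set m := Nat.find hex with hm
  have hm1 : f ≤ a * m ^ 3 := Nat.find_spec hex
  have hm0 : 1 ≤ m := by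
    by_contra hcon
    have : m = 0 := by omega
    rw [this] at hm1
    simp at hm1
    omega
  have hmm : a * (m - 1) ^ 3 < f := by
    have := Nat.find_min hex (show m - 1 < Nat.find hex by omega)
    omega
  rcases ({t ∈ S | f ∣ H t}).eq_empty_or_nonempty with he | ⟨t, ht⟩
  · rw [he]; simp; positivity
  rw [mem_filter] at ht
  have hty := mem_Icc.1 (hS ht.1)
  have hy1 : 1 ≤ y := by omega
  -- size of `f`
  have hHt : H t ≤ A * y ^ 2 := by
    have h1 := (hH t ht.1).2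
    have h2 : ((H t : ℕ) : ℤ) ≤ ((A * y ^ 2 : ℕ) : ℤ) := by
      rw [h1]
      have e1 : (t : ℤ) ≤ y := by exact_mod_cast hty.2
      have e0 : (0 : ℤ) ≤ t := by positivity
      have e0y : (1 : ℤ) ≤ y := by exact_mod_cast hy1
      have e2 : (t : ℤ) ^ 2 ≤ (y : ℤ) ^ 2 := pow_le_pow_left₀ e0 e1 2
      have e3 : b * t ≤ |b| * (y : ℤ) ^ 2 := by
        calc b * t ≤ |b| * t := mul_le_mul_of_nonneg_right (le_abs_self b) e0
          _ ≤ |b| * (y : ℤ) ^ 2 := by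
              apply mul_le_mul_of_nonneg_left _ (abs_nonneg b)
              have : (y : ℤ) ≤ (y : ℤ) ^ 2 := by rw [sq]; exact le_mul_of_one_le_left (by positivity) e0y
              linarith
      have e4 : c ≤ |c| * (y : ℤ) ^ 2 := by
        calc c ≤ |c| := le_abs_self c
          _ ≤ |c| * (y : ℤ) ^ 2 := le_mul_of_one_le_right (abs_nonneg c) (one_le_pow₀ e0y)
      have e5 : (a : ℤ) * (t : ℤ) ^ 2 ≤ a * (y : ℤ) ^ 2 := mul_le_mul_of_nonneg_left e2 (by positivity)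
      rw [hA]
      push_cast
      have e6 : ((a : ℤ) + |b| + |c|) * (y : ℤ) ^ 2 = a * (y : ℤ) ^ 2 + |b| * (y : ℤ) ^ 2 + |c| * (y : ℤ) ^ 2 := by ring
      rw [e6]
      linarith
    exact_mod_cast h2
  have hfH : f ≤ A * y ^ 2 := (Nat.le_of_dvd (hH t ht.1).1 ht.2).trans hHt
  have hmA : m - 1 ≤ A * y := by
    by_contra hcon
    push Not at hcon
    have h1 : (A * y) ^ 3 < (m - 1) ^ 3 := Nat.pow_lt_pow_left hcon (by norm_num)
    have h2 : A * y ^ 2 ≤ (A * y) ^ 3 := by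
      calc A * y ^ 2 ≤ A ^ 3 * y ^ 3 := Nat.mul_le_mul (Nat.le_self_pow (by norm_num) A)
            (Nat.pow_le_pow_right hy1 (by norm_num))
        _ = _ := by ring
    have h3 : (m - 1) ^ 3 ≤ a * (m - 1) ^ 3 := Nat.le_mul_of_pos_left _ ha
    omega
  have hcnt := root_count a f (m - 1) y ha b c hmm {t ∈ S | f ∣ H t} ((filter_subset _ _).trans hS) (by
    intro t ht
    rw [mem_filter] at ht
    rw [← (hH t ht.1).2]
    exact_mod_cast ht.2)
  have hm2 : m - 1 + 1 = m := by omega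
  rw [hm2] at hcnt
  have hmy : m ≤ 2 * (A * y) := by
    have : 1 ≤ A * y := Nat.mul_pos hA1 hy1
    omega
  have h1 : #{t ∈ S | f ∣ H t} * m ≤ 6 * (A * y) := by
    calc #{t ∈ S | f ∣ H t} * m ≤ 2 * (y / m + 1) * m := Nat.mul_le_mul_right _ hcnt
      _ = 2 * (y / m * m) + 2 * m := by ring
      _ ≤ 2 * y + 2 * (2 * (A * y)) := by
          apply add_le_add
          · exact Nat.mul_le_mul_left _ (Nat.div_mul_le_self y m)
          · exact Nat.mul_le_mul_left _ hmy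
      _ ≤ 2 * (A * y) + 2 * (2 * (A * y)) := by
          have : y ≤ A * y := Nat.le_mul_of_pos_left _ hA1
          omega
      _ = _ := by ring
  have h2 : #{t ∈ S | f ∣ H t} ^ 3 * f ≤ (6 * a * A * y) ^ 3 := by
    calc #{t ∈ S | f ∣ H t} ^ 3 * f ≤ #{t ∈ S | f ∣ H t} ^ 3 * (a * m ^ 3) := Nat.mul_le_mul_left _ hm1
      _ = a * (#{t ∈ S | f ∣ H t} * m) ^ 3 := by ring
      _ ≤ a ^ 3 * (6 * (A * y)) ^ 3 := Nat.mul_le_mul (Nat.le_self_pow (by norm_num) a) (Nat.pow_le_pow_left h1 3)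
      _ = _ := by ring
  exact_mod_cast h2

/-- the sixth moment -/
theorem momH (a : ℕ) (ha : 1 ≤ a) (b c : ℤ) : ∃ C : ℝ, 0 < C ∧ ∀ (y : ℕ) (H : ℕ → ℕ) (S : Finset ℕ), S ⊆ Icc 1 y →
    (∀ t ∈ S, 1 ≤ H t ∧ ((H t : ℕ) : ℤ) = (a : ℤ) * t ^ 2 + b * t + c) →
    ∑ t ∈ S, GG (H t) ^ 6 ≤ C * y := by
  classical
  set A : ℕ := a + b.natAbs + c.natAbs with hA
  have hA1 : 1 ≤ A := by omega
  have hsum : Summable (fun n : ℕ => 1 / (n : ℝ) ^ ((4 : ℝ) / 3)) := Real.summable_one_div_nat_rpow.2 (by norm_num)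
  set Z : ℝ := ∑' n : ℕ, 1 / (n : ℝ) ^ ((4 : ℝ) / 3) with hZ
  refine ⟨Real.exp 6 ^ 6 * ((6 * a * A : ℕ) * Real.exp (126 * Z)), by
    have : 0 < 6 * a * A := by positivity
    have h2 : (0 : ℝ) < ((6 * a * A : ℕ) : ℝ) := by exact_mod_cast this
    positivity, ?_⟩
  intro y H S hS hH
  rcases Nat.eq_zero_or_pos y with h0 | hy
  · subst h0
    have : S = ∅ := by
      rw [← subset_empty]; simpa using hS
    rw [this]; simp
  set X : ℕ := A * y with hX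
  have hX1 : 1 ≤ X := Nat.mul_pos hA1 hy
  set w : Finset ℕ → ℝ := fun s => ∏ p ∈ s, (126 / (p : ℝ)) with hw
  have hw0 : ∀ s, 0 ≤ w s := fun s => prod_nonneg fun p _ => by positivity
  have hpt : ∀ t ∈ S, GG (H t) ^ 6 ≤ Real.exp 6 ^ 6 *
      ∑ s ∈ (PP X).powerset, (if (∏ p ∈ s, p) ∣ H t then w s else 0) := by
    intro t ht
    obtain ⟨h1, h2⟩ := hH t ht
    have hty := mem_Icc.1 (hS ht)
    have hsize : ((H t : ℕ) : ℝ) ≤ Real.exp (4 * X) := by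
      have h3 : H t ≤ X ^ 2 := by
        have h4 : ((H t : ℕ) : ℤ) ≤ ((A * y ^ 2 : ℕ) : ℤ) := by
          rw [h2]
          have e1 : (t : ℤ) ≤ y := by exact_mod_cast hty.2
          have e0 : (0 : ℤ) ≤ t := by positivity
          have e0y : (1 : ℤ) ≤ y := by exact_mod_cast hy
          have e2 : (t : ℤ) ^ 2 ≤ (y : ℤ) ^ 2 := pow_le_pow_left₀ e0 e1 2
          have e3 : b * t ≤ |b| * (y : ℤ) ^ 2 := by
            calc b * t ≤ |b| * t := mul_le_mul_of_nonneg_right (le_abs_self b) e0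
              _ ≤ |b| * (y : ℤ) ^ 2 := by
                  apply mul_le_mul_of_nonneg_left _ (abs_nonneg b)
                  have : (y : ℤ) ≤ (y : ℤ) ^ 2 := by rw [sq]; exact le_mul_of_one_le_left (by positivity) e0y
                  linarith
          have e4 : c ≤ |c| * (y : ℤ) ^ 2 := by
            calc c ≤ |c| := le_abs_self c
              _ ≤ |c| * (y : ℤ) ^ 2 := le_mul_of_one_le_right (abs_nonneg c) (one_le_pow₀ e0y)
          have e5 : (a : ℤ) * (t : ℤ) ^ 2 ≤ a * (y : ℤ) ^ 2 := mul_le_mul_of_nonneg_left e2 (by positivity)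
          rw [hA]
          push_cast
          have e6 : ((a : ℤ) + |b| + |c|) * (y : ℤ) ^ 2 = a * (y : ℤ) ^ 2 + |b| * (y : ℤ) ^ 2 + |c| * (y : ℤ) ^ 2 := by ring
          rw [e6]
          linarith
        have h5 : H t ≤ A * y ^ 2 := by exact_mod_cast h4
        calc H t ≤ A * y ^ 2 := h5
          _ ≤ A ^ 2 * y ^ 2 := Nat.mul_le_mul_right _ (Nat.le_self_pow (by norm_num) A)
          _ = X ^ 2 := by rw [hX]; ring
      have h4 : ((H t : ℕ) : ℝ) ≤ (X : ℝ) ^ 2 := by exact_mod_cast h3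
      have h5 : (X : ℝ) ≤ Real.exp X := by
        have := Real.add_one_le_exp (X : ℝ); linarith
      calc ((H t : ℕ) : ℝ) ≤ (X : ℝ) ^ 2 := h4
        _ ≤ Real.exp X ^ 2 := pow_le_pow_left₀ (by positivity) h5 2
        _ = Real.exp (2 * X) := by rw [← Real.exp_nat_mul]; norm_num
        _ ≤ Real.exp (4 * X) := Real.exp_le_exp.2 (by
            have : (0 : ℝ) ≤ X := by positivity
            linarith)
    have h3 := GG_le_small h1 hX1 hsize
    set F := (PP X).filter (fun p => p ∣ H t) with hF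
    have hFp : ∀ p ∈ F, p.Prime := fun p hp => by
      rw [hF, mem_filter, PP, mem_filter] at hp; exact hp.1.2
    have h4 : (∏ p ∈ F, (1 - (p : ℝ)⁻¹)⁻¹) ^ 6 ≤ ∏ p ∈ F, (1 + 126 / (p : ℝ)) := by
      rw [← prod_pow]
      apply Finset.prod_le_prod
      · intro p hp
        have : 0 ≤ (1 - (p : ℝ)⁻¹)⁻¹ := zero_le_one.trans (factor_ge_one (hFp p hp))
        positivity
      · intro p hp
        exact six_factor (hFp p hp)
    have h5 : ∏ p ∈ F, (1 + 126 / (p : ℝ)) =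
        ∑ s ∈ (PP X).powerset, (if (∏ p ∈ s, p) ∣ H t then w s else 0) := by
      rw [prod_one_add, ← sum_filter]
      apply sum_congr _ fun _ _ => rfl
      ext s
      simp only [mem_powerset, mem_filter, hF]
      constructor
      · intro h
        refine ⟨fun p hp => (mem_filter.1 (h hp)).1, ?_⟩
        apply Finset.prod_primes_dvd
        · intro p hp; exact (hFp p (h hp)).prime
        · intro p hp; exact (mem_filter.1 (h hp)).2
      · rintro ⟨h, h'⟩ p hp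
        exact mem_filter.2 ⟨h hp, (dvd_prod_of_mem _ hp).trans h'⟩
    rw [← h5]
    have h0 : 0 ≤ ∏ p ∈ F, (1 - (p : ℝ)⁻¹)⁻¹ := prod_nonneg fun p hp => zero_le_one.trans (factor_ge_one (hFp p hp))
    calc GG (H t) ^ 6 ≤ (Real.exp 6 * ∏ p ∈ F, (1 - (p : ℝ)⁻¹)⁻¹) ^ 6 := pow_le_pow_left₀ (GG_nonneg _) h3 6
      _ = Real.exp 6 ^ 6 * (∏ p ∈ F, (1 - (p : ℝ)⁻¹)⁻¹) ^ 6 := by ring
      _ ≤ _ := by gcongr
  refine (sum_le_sum hpt).trans ?_
  rw [← mul_sum, sum_comm, mul_assoc]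
  apply mul_le_mul_of_nonneg_left _ (by positivity)
  have hin : ∀ s ∈ (PP X).powerset, ∑ t ∈ S, (if (∏ p ∈ s, p) ∣ H t then w s else 0) ≤
      ((6 * a * A * y : ℕ) : ℝ) * ∏ p ∈ s, (126 / (p : ℝ) ^ ((4 : ℝ) / 3)) := by
    intro s hs
    rw [mem_powerset] at hs
    have hsp : ∀ p ∈ s, (0 : ℝ) < p := fun p hp => by
      have := hs hp
      rw [PP, mem_filter] at this
      exact_mod_cast this.2.pos
    rw [← sum_filter, sum_const, nsmul_eq_mul]
    set d := ∏ p ∈ s, p with hd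
    have hd1 : 1 ≤ d := by
      apply Nat.succ_le_of_lt
      apply Finset.prod_pos
      intro p hp
      exact_mod_cast hsp p hp
    have hd0 : (0 : ℝ) < d := by exact_mod_cast hd1
    have h1 := root_cube a ha b c y H S hS hH d hd1
    have h2 : ((#{t ∈ S | d ∣ H t} : ℕ) : ℝ) ≤ ((6 * a * A * y : ℕ) : ℝ) * (d : ℝ) ^ (-(1 / 3 : ℝ)) := by
      have h3 : ((#{t ∈ S | d ∣ H t} : ℕ) : ℝ) ^ 3 ≤ (((6 * a * A * y : ℕ) : ℝ) * (d : ℝ) ^ (-(1 / 3 : ℝ))) ^ 3 := by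
        rw [mul_pow, ← Real.rpow_natCast ((d : ℝ) ^ (-(1 / 3 : ℝ))) 3, ← Real.rpow_mul hd0.le]
        have e : -(1 / 3 : ℝ) * ((3 : ℕ) : ℝ) = -1 := by norm_num
        rw [e, Real.rpow_neg_one, ← div_eq_mul_inv, le_div_iff₀ hd0]
        exact h1
      exact (pow_le_pow_iff_left₀ (by positivity) (by positivity) (by norm_num)).1 h3
    have e : (d : ℝ) ^ (-(1 / 3 : ℝ)) * w s = ∏ p ∈ s, (126 / (p : ℝ) ^ ((4 : ℝ) / 3)) := by
      rw [hd, hw]
      push_cast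
      rw [← Real.finsetProd_rpow s _ (fun p hp => (hsp p hp).le), ← prod_mul_distrib]
      apply prod_congr rfl
      intro p hp
      have h4 : (p : ℝ) ^ ((4 : ℝ) / 3) = p * (p : ℝ) ^ (1 / 3 : ℝ) := by
        rw [show (4 : ℝ) / 3 = 1 + 1 / 3 by norm_num, Real.rpow_add (hsp p hp), Real.rpow_one]
      rw [h4, Real.rpow_neg (hsp p hp).le]
      have := hsp p hp
      have h5 : (0 : ℝ) < (p : ℝ) ^ (1 / 3 : ℝ) := Real.rpow_pos_of_pos this _
      field_simp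
    rw [← e, ← mul_assoc]
    exact mul_le_mul_of_nonneg_right h2 (hw0 s)
  refine (sum_le_sum hin).trans ?_
  rw [← mul_sum]
  have e1 : ∑ s ∈ (PP X).powerset, ∏ p ∈ s, (126 / (p : ℝ) ^ ((4 : ℝ) / 3)) =
      ∏ p ∈ PP X, (1 + 126 / (p : ℝ) ^ ((4 : ℝ) / 3)) := (prod_one_add _).symm
  rw [e1]
  have h1 : ∏ p ∈ PP X, (1 + 126 / (p : ℝ) ^ ((4 : ℝ) / 3)) ≤ Real.exp (126 * Z) := by
    refine (prod_exp_le (PP X) _ fun p _ => by positivity).trans (Real.exp_le_exp.2 ?_)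
    have e2 : ∑ p ∈ PP X, 126 / (p : ℝ) ^ ((4 : ℝ) / 3) = 126 * ∑ p ∈ PP X, 1 / (p : ℝ) ^ ((4 : ℝ) / 3) := by
      rw [mul_sum]; apply sum_congr rfl; intro p _; ring
    rw [e2]
    apply mul_le_mul_of_nonneg_left _ (by norm_num)
    exact hsum.sum_le_tsum _ (fun n _ => by positivity)
  calc ((6 * a * A * y : ℕ) : ℝ) * ∏ p ∈ PP X, (1 + 126 / (p : ℝ) ^ ((4 : ℝ) / 3)) ≤
      ((6 * a * A * y : ℕ) : ℝ) * Real.exp (126 * Z) := by gcongr
    _ = _ := by push_cast; ring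

end Pool.Agent.X56.PN
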