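import Pool.Agent.X56.PN.Blk
import Pool.Agent.X56.PN.Root

set_option autoImplicit false

/-!
The first moment over a line of quadratics, all `t`.
-/

open Finset Filter Topology

namespace Pool.Agent.X56.PN

open Pool.Agent.Erdos456

/-- the growth conditions -/
lemma ev_ft (K₁ K₂ K₃ K₄ K₅ : ℝ) : ∃ N0 : ℕ, ∀ N : ℕ, N0 ≤ N →
    K₁ ≤ Real.log N ∧ K₂ ≤ Real.log N ∧ K₃ ≤ Real.log N ∧ K₄ ≤ Real.log N ∧ K₅ ≤ N ∧ 3 ≤ N := by
  have hlog : Tendsto (fun N : ℕ => Real.log N) atTop atTop := Real.tendsto_log_atTop.comp tendsto_natCast_atTop_atTop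
  have hN : Tendsto (fun N : ℕ => (N : ℝ)) atTop atTop := tendsto_natCast_atTop_atTop
  have hall := (hlog.eventually_ge_atTop K₁).and ((hlog.eventually_ge_atTop K₂).and
    ((hlog.eventually_ge_atTop K₃).and ((hlog.eventually_ge_atTop K₄).and ((hN.eventually_ge_atTop K₅).and
    (eventually_ge_atTop 3)))))
  obtain ⟨N0, hN0⟩ := eventually_atTop.1 hall
  exact ⟨N0, hN0⟩

/-- the size of a quadratic polynomial at a large argument -/
lemma quad_size (a : ℕ) (ha : 1 ≤ a) (b c : ℤ) (η : ℝ) (hη : 0 < η) (t : ℕ) (ht : 1 ≤ t)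
    (hbig : ((b.natAbs : ℝ) + c.natAbs) / η ≤ t) (h : ℕ) (hh : (h : ℤ) = (a : ℤ) * t ^ 2 + b * t + c) :
    (1 - η) * (a * (t : ℝ) ^ 2) ≤ h ∧ (h : ℝ) ≤ (1 + η) * (a * (t : ℝ) ^ 2) := by
  have h1 : (h : ℝ) = (a : ℝ) * t ^ 2 + b * t + c := by exact_mod_cast hh
  have hb : |(b : ℝ)| = b.natAbs := by rw [Nat.cast_natAbs]; push_cast; rfl
  have hc : |(c : ℝ)| = c.natAbs := by rw [Nat.cast_natAbs]; push_cast; rfl
  have ht1 : (1 : ℝ) ≤ t := by exact_mod_cast ht
  have ha1 : (1 : ℝ) ≤ a := by exact_mod_cast ha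
  rw [div_le_iff₀ hη, ← hb, ← hc] at hbig
  have h2 : |(b : ℝ) * t + c| ≤ η * (a * (t : ℝ) ^ 2) := by
    calc |(b : ℝ) * t + c| ≤ |(b : ℝ) * t| + |(c : ℝ)| := abs_add_le _ _
      _ = |(b : ℝ)| * t + |(c : ℝ)| := by rw [abs_mul, Nat.abs_cast]
      _ ≤ |(b : ℝ)| * t + |(c : ℝ)| * t := by
          have := mul_le_mul_of_nonneg_left ht1 (abs_nonneg (c : ℝ))
          linarith
      _ = (|(b : ℝ)| + |(c : ℝ)|) * t := by ring
      _ ≤ (t * η) * t := mul_le_mul_of_nonneg_right hbig (by linarith)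
      _ = η * (1 * (t : ℝ) ^ 2) := by ring
      _ ≤ _ := by gcongr
  have h3 := abs_le.1 h2
  rw [h1]
  constructor <;> linarith

theorem firstT (a : ℕ) (ha : 1 ≤ a) (b c a₀ b₀ c₀ : ℤ) : ∀ η : ℝ, 0 < η → η ≤ 1 / 100 → ∀ δ : ℝ, 0 < δ →
    ∃ J N0 : ℕ, ∀ N : ℕ, N0 ≤ N → ∀ (x : ℕ) (T : Finset ℕ) (H : ℕ → ℕ) (G : ℕ → ℤ), Real.log N ≤ x →
    x ^ 11 ≤ N → T ⊆ Icc 1 x →
    (∀ t ∈ T, 1 ≤ H t ∧ (H t : ℤ) = (a : ℤ) * t ^ 2 + b * t + c ∧ G t = a₀ * t ^ 2 + b₀ * t + c₀ ∧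
      Nat.Coprime (H t) (G t).natAbs) → δ * x ≤ T.card →
    ((((b.natAbs : ℝ) + c.natAbs) + 1) / η ≤ (1 - η) ^ J * x) ∧
    (1 - 20 * η) * (N / Real.log (N * x ^ 2)) * ∑ t ∈ T, GG (H t) ≤
      ∑ t ∈ T.filter (fun t : ℕ => (1 - η) ^ J * (x : ℝ) < t), cn (H t) (G t) ⌊η * N⌋₊ N := by
  classical
  intro η hη hη2 δ hδ
  obtain ⟨N₁, hblock⟩ := blockH η hη hη2
  obtain ⟨C₁, hC₁, h6⟩ := momH a ha b c
  set ρ : ℝ := 1 - η with hρ
  have hρ0 : 0 < ρ := by rw [hρ]; linarith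
  have hρ1 : ρ < 1 := by rw [hρ]; linarith
  obtain ⟨J, hJ⟩ := exists_pow_lt_of_lt_one (show 0 < η * δ / C₁ by positivity) hρ1
  have hρJ : 0 < ρ ^ J := by positivity
  set A : ℕ := a + b.natAbs + c.natAbs with hA
  set A₀ : ℝ := (a₀.natAbs : ℝ) + b₀.natAbs + c₀.natAbs with hA₀
  set M₀ : ℕ := 6 * a * A with hM₀
  have har : (1 : ℝ) ≤ a := by exact_mod_cast ha
  obtain ⟨N₂, hN₂⟩ := ev_ft ((((b.natAbs : ℝ) + c.natAbs) + 1) / η / ρ ^ J) (2 * J * M₀ / (η * δ))
    ((2 * (a : ℝ)) ^ 5 / η) (Real.log (2 * a) / η) (A₀ / η)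
  refine ⟨J, max N₁ N₂, fun N hN x T H G hlog hx11 hT hTc hTcard => ?_⟩
  have hNN₁ : N₁ ≤ N := (le_max_left _ _).trans hN
  obtain ⟨k1, k2, k3, k4, k5, k6⟩ := hN₂ N ((le_max_right _ _).trans hN)
  have hN3 : (3 : ℝ) ≤ N := by exact_mod_cast k6
  have hN0 : (0 : ℝ) < N := by linarith
  have hlN1 : 1 ≤ Real.log N := by
    rw [Real.le_log_iff_exp_le hN0]
    have := Real.exp_one_lt_d9
    linarith
  have hx1r : (1 : ℝ) ≤ x := hlN1.trans hlog
  have hx0 : (0 : ℝ) < x := by linarith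
  have hx1 : 1 ≤ x := by exact_mod_cast hx1r
  have hyJ : (((b.natAbs : ℝ) + c.natAbs) + 1) / η ≤ ρ ^ J * x := by
    rw [div_le_iff₀ hρJ] at k1
    calc _ ≤ Real.log N * ρ ^ J := k1
      _ ≤ x * ρ ^ J := by gcongr
      _ = _ := mul_comm _ _
  refine ⟨hyJ, ?_⟩
  have hx11r : (x : ℝ) ^ 11 ≤ N := by exact_mod_cast hx11
  have hx2N : (x : ℝ) ^ 2 ≤ N := (pow_le_pow_right₀ hx1r (by norm_num)).trans hx11r
  set Lg : ℝ := Real.log (N * x ^ 2) with hLg
  have hLg1 : Real.log N ≤ Lg := by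
    apply Real.log_le_log hN0
    exact le_mul_of_one_le_right hN0.le (one_le_pow₀ hx1r)
  have hLg0 : 0 < Lg := by linarith
  have hLg2 : Lg ≤ 2 * Real.log N := by
    rw [hLg, Real.log_mul hN0.ne' (by positivity)]
    have := Real.log_le_log (by positivity) hx2N
    linarith
  set M : ℝ := ((6 * a * A * x : ℕ) : ℝ) with hM
  have hM0 : 0 < M := by
    rw [hM]
    have : 0 < 6 * a * A * x := by positivity
    exact_mod_cast this
  have hMx : M = M₀ * x := by rw [hM, hM₀]; push_cast; ring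
  have hTH : ∀ t ∈ T, 1 ≤ H t ∧ ((H t : ℕ) : ℤ) = (a : ℤ) * t ^ 2 + b * t + c := fun t ht => ⟨(hTc t ht).1, (hTc t ht).2.1⟩
  -- one block
  have hone : ∀ j : ℕ, j < J →
      (1 - 16 * η) * (N / Lg) * ∑ t ∈ T.filter (fun t : ℕ => ρ * (ρ ^ j * (x : ℝ)) < t ∧ (t : ℝ) ≤ ρ ^ j * x), GG (H t) -
        N * M / Real.log N ^ 2 ≤
      ∑ t ∈ T.filter (fun t : ℕ => ρ * (ρ ^ j * (x : ℝ)) < t ∧ (t : ℝ) ≤ ρ ^ j * x), cn (H t) (G t) ⌊η * N⌋₊ N := by
    intro j hj
    set y : ℝ := ρ ^ j * x with hy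
    have hρj : ρ ^ j ≤ 1 := pow_le_one₀ hρ0.le hρ1.le
    have hyx : y ≤ x := by
      have := mul_le_mul_of_nonneg_right hρj hx0.le
      linarith
    have hρy : ρ ^ J * x ≤ ρ * y := by
      have h1 : ρ ^ J ≤ ρ ^ (j + 1) := pow_le_pow_of_le_one hρ0.le hρ1.le (by omega)
      calc ρ ^ J * x ≤ ρ ^ (j + 1) * x := by gcongr
        _ = ρ * y := by rw [hy]; ring
    have hρy1 : 1 ≤ ρ * y := by
      have h1 : (1 : ℝ) ≤ (((b.natAbs : ℝ) + c.natAbs) + 1) / η := by
        rw [le_div_iff₀ hη]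
        have : (0 : ℝ) ≤ (b.natAbs : ℝ) + c.natAbs := by positivity
        linarith
      linarith
    have hy1 : 1 ≤ y := by
      have : ρ * y ≤ 1 * y := by
        apply mul_le_mul_of_nonneg_right hρ1.le
        positivity
      linarith
    set V : ℝ := (1 + η) * (a * y ^ 2) with hV
    have hy2 : 1 ≤ y ^ 2 := one_le_pow₀ hy1
    have hay2 : y ^ 2 ≤ a * y ^ 2 := le_mul_of_one_le_left (by positivity) har
    have hV1 : y ^ 2 ≤ V := by
      rw [hV]
      have : 0 ≤ η * (a * y ^ 2) := by positivity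
      linarith
    have hV2 : V ≤ (2 * a) * x ^ 2 := by
      rw [hV]
      calc (1 + η) * (a * y ^ 2) ≤ 2 * (a * x ^ 2) := by
            have : y ^ 2 ≤ (x : ℝ) ^ 2 := pow_le_pow_left₀ (by linarith) hyx 2
            gcongr
            linarith
        _ = _ := by ring
    apply hblock N hNN₁ V Lg M _ H G (hy2.trans hV1)
    · -- V^5
      calc V ^ 5 ≤ ((2 * a) * (x : ℝ) ^ 2) ^ 5 := pow_le_pow_left₀ (by linarith) hV2 5
        _ = (2 * a) ^ 5 * x ^ 10 := by ring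
        _ ≤ (η * x) * x ^ 10 := by
            apply mul_le_mul_of_nonneg_right _ (by positivity)
            rw [div_le_iff₀ hη] at k3
            calc _ ≤ Real.log N * η := k3
              _ ≤ x * η := by gcongr
              _ = _ := mul_comm _ _
        _ = η * x ^ 11 := by ring
        _ ≤ η * N := by gcongr
    · exact hLg0
    · -- logs
      have h1 : (N : ℝ) * V ≤ (2 * a) * (N * x ^ 2) := by
        calc (N : ℝ) * V ≤ N * ((2 * a) * x ^ 2) := mul_le_mul_of_nonneg_left hV2 hN0.le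
          _ = _ := by ring
      have hV0 : 0 < V := by linarith
      have h2 := Real.log_le_log (by positivity) h1
      have h22 : Real.log (2 * a * (N * x ^ 2)) = Real.log (2 * a) + Lg :=
        Real.log_mul (by positivity) (by positivity)
      rw [h22] at h2
      rw [div_le_iff₀ hη] at k4
      have h3 : Real.log (2 * a) ≤ η * Lg := by
        calc _ ≤ Real.log N * η := k4
          _ ≤ Lg * η := by gcongr
          _ = _ := mul_comm _ _
      linarith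
    · intro t ht
      rw [mem_filter] at ht
      obtain ⟨htT, ht1, ht2⟩ := ht
      obtain ⟨b1, b2, b3, b4⟩ := hTc t htT
      have htI := mem_Icc.1 (hT htT)
      have hbig : ((b.natAbs : ℝ) + c.natAbs) / η ≤ t := by
        have h1 : ((b.natAbs : ℝ) + c.natAbs) / η ≤ (((b.natAbs : ℝ) + c.natAbs) + 1) / η :=
          div_le_div_of_nonneg_right (by linarith) hη.le
        linarith
      obtain ⟨h1, h2⟩ := quad_size a ha b c η hη t htI.1 hbig (H t) b2
      refine ⟨b1, ?_, ?_, ?_, b4⟩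
      · have h3 : (ρ * y) ^ 2 ≤ (t : ℝ) ^ 2 := pow_le_pow_left₀ (by linarith) ht1.le 2
        refine le_trans ?_ h1
        calc (1 - 4 * η) * V = ((1 - 4 * η) * (1 + η)) * (a * y ^ 2) := by rw [hV]; ring
          _ ≤ (1 - η) ^ 3 * (a * y ^ 2) := by
              apply mul_le_mul_of_nonneg_right _ (by positivity)
              have e : (1 - η) ^ 3 - (1 - 4 * η) * (1 + η) = η ^ 2 * (7 - η) := by ring
              have : 0 ≤ η ^ 2 * (7 - η) := mul_nonneg (by positivity) (by linarith)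
              linarith
          _ = (1 - η) * (a * (ρ * y) ^ 2) := by rw [hρ]; ring
          _ ≤ (1 - η) * (a * (t : ℝ) ^ 2) := by
              have : 0 ≤ 1 - η := hρ0.le
              gcongr
      · refine h2.trans ?_
        rw [hV]
        gcongr
      · -- G
        have e : (G t : ℝ) = a₀ * t ^ 2 + b₀ * t + c₀ := by exact_mod_cast b3
        have ea : |(a₀ : ℝ)| = a₀.natAbs := by rw [Nat.cast_natAbs]; push_cast; rfl
        have eb : |(b₀ : ℝ)| = b₀.natAbs := by rw [Nat.cast_natAbs]; push_cast; rfl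
        have ec : |(c₀ : ℝ)| = c₀.natAbs := by rw [Nat.cast_natAbs]; push_cast; rfl
        have ht1r : (1 : ℝ) ≤ t := by exact_mod_cast htI.1
        have h3 : |(G t : ℝ)| ≤ A₀ * t ^ 2 := by
          rw [e]
          calc |(a₀ : ℝ) * t ^ 2 + b₀ * t + c₀| ≤ |(a₀ : ℝ) * t ^ 2| + |(b₀ : ℝ) * t| + |(c₀ : ℝ)| :=
                abs_add_three _ _ _
            _ = |(a₀ : ℝ)| * t ^ 2 + |(b₀ : ℝ)| * t + |(c₀ : ℝ)| := by
                rw [abs_mul, abs_mul, abs_pow, Nat.abs_cast]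
            _ ≤ |(a₀ : ℝ)| * t ^ 2 + |(b₀ : ℝ)| * t ^ 2 + |(c₀ : ℝ)| * t ^ 2 := by
                have i1 : (t : ℝ) ≤ t ^ 2 := le_self_pow₀ ht1r (by norm_num)
                have i2 : (1 : ℝ) ≤ t ^ 2 := one_le_pow₀ ht1r
                have i3 := mul_le_mul_of_nonneg_left i1 (abs_nonneg (b₀ : ℝ))
                have i4 := mul_le_mul_of_nonneg_left i2 (abs_nonneg (c₀ : ℝ))
                linarith
            _ = A₀ * t ^ 2 := by rw [hA₀, ← ea, ← eb, ← ec]; ring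
        have hA₀0 : 0 ≤ A₀ := by positivity
        rw [div_le_iff₀ hη] at k5
        calc |(G t : ℝ)| ≤ A₀ * t ^ 2 := h3
          _ ≤ A₀ * y ^ 2 := by gcongr
          _ ≤ (N * η) * V := by gcongr
          _ = η * N * V := by ring
    · exact hM0
    · intro f hf
      have h1 := root_cube a ha b c x H (T.filter (fun t : ℕ => ρ * y < t ∧ (t : ℝ) ≤ y))
        ((filter_subset _ _).trans hT) (fun t ht => hTH t (mem_filter.1 ht).1) f hf
      exact h1
  -- induction over blocks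
  have hind : ∀ j : ℕ, j ≤ J →
      (1 - 16 * η) * (N / Lg) *
        ∑ t ∈ T.filter (fun t : ℕ => ρ ^ j * (x : ℝ) < t), GG (H t) - j * (N * M / Real.log N ^ 2) ≤
      ∑ t ∈ T.filter (fun t : ℕ => ρ ^ j * (x : ℝ) < t), cn (H t) (G t) ⌊η * N⌋₊ N := by
    intro j
    induction j with
    | zero =>
      intro _
      have h0 : T.filter (fun t : ℕ => ρ ^ 0 * (x : ℝ) < t) = ∅ := by
        apply filter_eq_empty_iff.2
        intro t ht h
        have h1 := (mem_Icc.1 (hT ht)).2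
        have h2 : (t : ℝ) ≤ x := by exact_mod_cast h1
        rw [pow_zero, one_mul] at h
        linarith
      rw [h0]
      simp
    | succ j ih =>
      intro hj
      have ih' := ih (by omega)
      have hsplit : T.filter (fun t : ℕ => ρ ^ (j + 1) * (x : ℝ) < t) =
          T.filter (fun t : ℕ => ρ ^ j * (x : ℝ) < t) ∪
          T.filter (fun t : ℕ => ρ * (ρ ^ j * (x : ℝ)) < t ∧ (t : ℝ) ≤ ρ ^ j * x) := by
        ext t
        simp only [mem_filter, mem_union]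
        have e1 : ρ ^ (j + 1) * (x : ℝ) = ρ * (ρ ^ j * x) := by ring
        constructor
        · rintro ⟨h1, h2⟩
          rw [e1] at h2
          by_cases h3 : ρ ^ j * (x : ℝ) < t
          · exact Or.inl ⟨h1, h3⟩
          · exact Or.inr ⟨h1, h2, not_lt.1 h3⟩
        · rintro (⟨h1, h2⟩ | ⟨h1, h2, h3⟩)
          · refine ⟨h1, lt_of_le_of_lt ?_ h2⟩
            rw [e1]
            have : 0 ≤ ρ ^ j * (x : ℝ) := by positivity
            exact mul_le_of_le_one_left this hρ1.le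
          · exact ⟨h1, by rw [e1]; exact h2⟩
      have hdisj : Disjoint (T.filter (fun t : ℕ => ρ ^ j * (x : ℝ) < t))
          (T.filter (fun t : ℕ => ρ * (ρ ^ j * (x : ℝ)) < t ∧ (t : ℝ) ≤ ρ ^ j * x)) := by
        rw [disjoint_left]
        intro t h1 h2
        rw [mem_filter] at h1 h2
        linarith [h1.2, h2.2.2]
      have hb := hone j (by omega)
      rw [hsplit, sum_union hdisj, sum_union hdisj]
      push_cast
      rw [mul_add]
      linarith
  have hmain := hind J le_rfl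
  set m : ℝ := ∑ t ∈ T, GG (H t) with hm
  -- small t
  have hsm : ∑ t ∈ T.filter (fun t : ℕ => ¬ ρ ^ J * (x : ℝ) < t), GG (H t) ≤ η * (δ * x) := by
    have h1 : T.filter (fun t : ℕ => ¬ ρ ^ J * (x : ℝ) < t) ⊆ Icc 1 ⌊ρ ^ J * (x : ℝ)⌋₊ := by
      intro t ht
      rw [mem_filter] at ht
      rw [mem_Icc]
      exact ⟨(mem_Icc.1 (hT ht.1)).1, Nat.le_floor (not_lt.1 ht.2)⟩
    have h2 : ∑ t ∈ T.filter (fun t : ℕ => ¬ ρ ^ J * (x : ℝ) < t), GG (H t) ≤
        ∑ t ∈ T.filter (fun t : ℕ => ¬ ρ ^ J * (x : ℝ) < t), GG (H t) ^ 6 := by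
      apply sum_le_sum
      intro t ht
      exact Pool.Agent.W218.HF.GG_le_six (hTc t (mem_filter.1 ht).1).1
    have h3 : ((⌊ρ ^ J * (x : ℝ)⌋₊ : ℕ) : ℝ) ≤ ρ ^ J * x := Nat.floor_le (by positivity)
    have h4 : C₁ * ρ ^ J ≤ η * δ := by
      rw [lt_div_iff₀ hC₁] at hJ
      linarith
    calc _ ≤ C₁ * ((⌊ρ ^ J * (x : ℝ)⌋₊ : ℕ) : ℝ) :=
          h2.trans (h6 _ H _ h1 (fun t ht => hTH t (mem_filter.1 ht).1))
      _ ≤ C₁ * (ρ ^ J * x) := by gcongr
      _ = (C₁ * ρ ^ J) * x := by ring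
      _ ≤ (η * δ) * x := by gcongr
      _ = _ := by ring
  have hmcard : δ * x ≤ m := by
    refine hTcard.trans ?_
    rw [hm, card_eq_sum_ones]
    push_cast
    apply sum_le_sum
    intro t ht
    exact one_le_GG (hTc t ht).1
  have hbig : (1 - η) * m ≤ ∑ t ∈ T.filter (fun t : ℕ => ρ ^ J * (x : ℝ) < t), GG (H t) := by
    have h1 := sum_filter_add_sum_filter_not T (fun t : ℕ => ρ ^ J * (x : ℝ) < t) (fun t => GG (H t))
    rw [← hm] at h1
    have h2 : η * (δ * x) ≤ η * m := by gcongr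
    linarith
  have hm0 : 0 ≤ m := sum_nonneg fun t _ => GG_nonneg _
  set Q : ℝ := N / Lg with hQ
  have hQ0 : 0 < Q := by positivity
  have herr : (J : ℝ) * (N * M / Real.log N ^ 2) ≤ η * (Q * (δ * x)) := by
    rw [div_le_iff₀ (by positivity)] at k2
    have hl0 : 0 < Real.log N := by linarith
    have h1 : (J : ℝ) * (N * M / Real.log N ^ 2) = (2 * J * M₀) * (N * x / (2 * Real.log N ^ 2)) := by
      rw [hMx]; field_simp
    rw [h1]
    calc (2 * J * M₀) * (N * x / (2 * Real.log N ^ 2)) ≤ (Real.log N * (η * δ)) * (N * x / (2 * Real.log N ^ 2)) := by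
          apply mul_le_mul_of_nonneg_right k2 (by positivity)
      _ = (η * δ * x) * (N / (2 * Real.log N)) := by field_simp
      _ ≤ (η * δ * x) * (N / Lg) := by gcongr
      _ = _ := by rw [hQ]; ring
  have h7 : (1 - 18 * η) * Q * m ≤ (1 - 16 * η) * Q *
      ∑ t ∈ T.filter (fun t : ℕ => ρ ^ J * (x : ℝ) < t), GG (H t) := by
    have h8 : (1 - 18 * η) * Q * m ≤ (1 - 16 * η) * Q * ((1 - η) * m) := by
      have e : (1 - 16 * η) * Q * ((1 - η) * m) = ((1 - 16 * η) * (1 - η)) * (Q * m) := by ring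
      have e2 : (1 - 18 * η) * Q * m = (1 - 18 * η) * (Q * m) := by ring
      rw [e, e2]
      apply mul_le_mul_of_nonneg_right _ (by positivity)
      have e3 : (1 - 16 * η) * (1 - η) - (1 - 18 * η) = η + 16 * η ^ 2 := by ring
      have : 0 ≤ η + 16 * η ^ 2 := by positivity
      linarith
    refine h8.trans ?_
    have h9 : 0 ≤ 1 - 16 * η := by linarith
    gcongr
  have h12 : η * (Q * (δ * x)) ≤ η * Q * m := by
    have := mul_le_mul_of_nonneg_left hmcard (mul_nonneg hη.le hQ0.le)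
    linarith
  have h13 : 0 ≤ η * Q * m := by positivity
  have e3 : (1 - 20 * η) * Q * m = (1 - 18 * η) * Q * m - 2 * (η * Q * m) := by ring
  rw [e3]
  linarith

end Pool.Agent.X56.PN
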