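import Pool.Agent.W218.HF.QLow

set_option autoImplicit false

/-!
The second moment of `∑ (D(n) / p) / p` over `n`, for a quadratic or linear polynomial `D`.
-/

open Finset

namespace Pool.Agent.X56.PN

open Pool.Agent.W468.ConjF (sum_range_mul' js_per js_abs sum_inv_sq)
open Pool.Agent.W218.HF (sum_char_sq_sub periodic_sum')

/-- the complete sum -/
noncomputable def SZ (α β γ : ℤ) (q : ℕ) [Fact q.Prime] : ℤ :=
  ∑ y : ZMod q, quadraticChar (ZMod q) ((α : ZMod q) * y ^ 2 + β * y + γ)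

/-- the polynomial -/
def DD (α β γ : ℤ) (n : ℤ) : ℤ := α * n ^ 2 + β * n + γ

/-- good primes -/
def gp (α β γ : ℤ) (q : ℕ) : Prop :=
  (¬ (q : ℤ) ∣ α ∧ ¬ (q : ℤ) ∣ β ^ 2 - 4 * α * γ) ∨ (α = 0 ∧ ¬ (q : ℤ) ∣ β)

lemma SZ_abs (α β γ : ℤ) (q : ℕ) [Fact q.Prime] (hq : q ≠ 2) (hg : gp α β γ q) : |SZ α β γ q| ≤ 1 := by
  have hchar : ringChar (ZMod q) ≠ 2 := by rw [ZMod.ringChar_zmod_n]; exact hq
  rcases hg with ⟨hα, hΔ⟩ | ⟨hα, hβ⟩
  · have hα' : (α : ZMod q) ≠ 0 := by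
      rw [Ne, ZMod.intCast_zmod_eq_zero_iff_dvd]; exact hα
    have hΔ' : (((β ^ 2 - 4 * α * γ : ℤ)) : ZMod q) ≠ 0 := by
      rw [Ne, ZMod.intCast_zmod_eq_zero_iff_dvd]; exact hΔ
    have h2' : (2 : ZMod q) ≠ 0 := by
      intro h
      have h3 : ((2 : ℕ) : ZMod q) = 0 := by exact_mod_cast h
      rw [ZMod.natCast_eq_zero_iff] at h3
      have h4 := (Nat.prime_dvd_prime_iff_eq (Fact.out : q.Prime) Nat.prime_two).1 h3
      exact hq h4
    have h4a : (4 * α : ZMod q) ≠ 0 := by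
      have : (4 * α : ZMod q) = 2 * (2 * α) := by ring
      rw [this]; exact mul_ne_zero h2' (mul_ne_zero h2' hα')
    have h2a : (2 * α : ZMod q) ≠ 0 := mul_ne_zero h2' hα'
    have hb : Function.Bijective (fun y : ZMod q => 2 * (α : ZMod q) * y + β) := by
      constructor
      · intro y y' h
        exact mul_left_cancel₀ h2a (add_right_cancel h)
      · intro w
        refine ⟨(w - β) * (2 * (α : ZMod q))⁻¹, ?_⟩
        field_simp
        ring
    have h1 : quadraticChar (ZMod q) (4 * α) * SZ α β γ q = -1 := by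
      unfold SZ
      rw [mul_sum]
      have h2 : ∀ y ∈ (univ : Finset (ZMod q)), quadraticChar (ZMod q) (4 * α) *
          quadraticChar (ZMod q) ((α : ZMod q) * y ^ 2 + β * y + γ) =
          quadraticChar (ZMod q) ((2 * (α : ZMod q) * y + β) ^ 2 - ((β ^ 2 - 4 * α * γ : ℤ) : ZMod q)) := by
        intro y _
        rw [← map_mul]
        congr 1
        push_cast
        ring
      rw [sum_congr rfl h2, hb.sum_comp (fun w => quadraticChar (ZMod q) (w ^ 2 - ((β ^ 2 - 4 * α * γ : ℤ) : ZMod q)))]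
      exact sum_char_sq_sub hchar hΔ'
    have h3 : quadraticChar (ZMod q) (4 * α) * quadraticChar (ZMod q) (4 * α) = 1 := by
      rw [← sq]; exact quadraticChar_sq_one h4a
    have h4 : SZ α β γ q = - quadraticChar (ZMod q) (4 * α) := by
      linear_combination quadraticChar (ZMod q) (4 * α) * h1 - SZ α β γ q * h3
    rw [h4, abs_neg]
    rcases quadraticChar_dichotomy h4a with h5 | h5 <;> rw [h5] <;> norm_num
  · have hβ' : (β : ZMod q) ≠ 0 := by
      rw [Ne, ZMod.intCast_zmod_eq_zero_iff_dvd]; exact hβ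
    have hb : Function.Bijective (fun y : ZMod q => (β : ZMod q) * y + γ) := by
      constructor
      · intro y y' h
        exact mul_left_cancel₀ hβ' (add_right_cancel h)
      · intro w
        refine ⟨(w - γ) * (β : ZMod q)⁻¹, ?_⟩
        field_simp
        ring
    have h1 : SZ α β γ q = 0 := by
      unfold SZ
      rw [hα]
      simp only [Int.cast_zero, zero_mul, zero_add]
      rw [hb.sum_comp (fun w => quadraticChar (ZMod q) w)]
      exact quadraticChar_sum_zero hchar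
    rw [h1]; norm_num

/-- the complete sum along a progression -/
lemma quad_sum_gen (α β γ : ℤ) (q : ℕ) [Fact q.Prime] (u p : ℤ) (hp : ¬ (q : ℤ) ∣ p) :
    ∑ v ∈ range q, jacobiSym (DD α β γ (u + p * v)) q = SZ α β γ q := by
  have h1 : ∀ v : ℕ, jacobiSym (DD α β γ (u + p * v)) q =
      quadraticChar (ZMod q) ((α : ZMod q) * ((u : ZMod q) + p * (v : ZMod q)) ^ 2 +
        β * ((u : ZMod q) + p * (v : ZMod q)) + γ) := by
    intro v
    rw [← jacobiSym.legendreSym.to_jacobiSym, legendreSym, DD]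
    push_cast
    rfl
  simp_rw [h1]
  have h2 : ∑ v ∈ range q, quadraticChar (ZMod q) ((α : ZMod q) * ((u : ZMod q) + p * (v : ZMod q)) ^ 2 +
        β * ((u : ZMod q) + p * (v : ZMod q)) + γ) =
      ∑ y : ZMod q, quadraticChar (ZMod q) ((α : ZMod q) * ((u : ZMod q) + p * y) ^ 2 +
        β * ((u : ZMod q) + p * y) + γ) := by
    symm
    refine Finset.sum_bij' (fun a _ => a.val) (fun d _ => (d : ZMod q)) ?_ ?_ ?_ ?_ ?_
    · intro a _; exact mem_range.2 (ZMod.val_lt a)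
    · intro d _; exact mem_univ _
    · intro a _; exact ZMod.natCast_zmod_val a
    · intro d hd; exact ZMod.val_cast_of_lt (mem_range.1 hd)
    · intro a _; rw [ZMod.natCast_zmod_val]
  rw [h2]
  have hp' : (p : ZMod q) ≠ 0 := by
    rw [Ne, ZMod.intCast_zmod_eq_zero_iff_dvd]; exact hp
  have hb : Function.Bijective (fun y : ZMod q => (u : ZMod q) + p * y) := by
    constructor
    · intro y y' h
      exact mul_left_cancel₀ hp' (add_left_cancel h)
    · intro w
      refine ⟨(w - u) * (p : ZMod q)⁻¹, ?_⟩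
      field_simp
      ring
  rw [hb.sum_comp (fun y => quadraticChar (ZMod q) ((α : ZMod q) * y ^ 2 + β * y + γ))]
  rfl

lemma DD_per (α β γ x m : ℤ) : DD α β γ (x + m) = DD α β γ x + m * (α * (2 * x + m) + β) := by
  unfold DD; ring

/-- the complete sum for two primes -/
lemma quad_pair_gen (α β γ : ℤ) (p q : ℕ) [Fact p.Prime] [Fact q.Prime] (hpq : p ≠ q) :
    ∑ c ∈ range (p * q), jacobiSym (DD α β γ c) p * jacobiSym (DD α β γ c) q = SZ α β γ p * SZ α β γ q := by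
  have hp : p.Prime := Fact.out
  have hq : q.Prime := Fact.out
  rw [sum_range_mul' (fun c => jacobiSym (DD α β γ c) p * jacobiSym (DD α β γ c) q), sum_comm]
  have h0 : ∀ u ∈ range p, ∑ v ∈ range q, jacobiSym (DD α β γ ((p * v + u : ℕ) : ℤ)) p * jacobiSym (DD α β γ ((p * v + u : ℕ) : ℤ)) q =
      jacobiSym (DD α β γ (0 + 1 * (u : ℤ))) p * SZ α β γ q := by
    intro u _
    have h1 : ∀ v ∈ range q, jacobiSym (DD α β γ ((p * v + u : ℕ) : ℤ)) p * jacobiSym (DD α β γ ((p * v + u : ℕ) : ℤ)) q =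
        jacobiSym (DD α β γ (0 + 1 * (u : ℤ))) p * jacobiSym (DD α β γ ((u : ℤ) + p * v)) q := by
      intro v _
      have e0 : ((p * v + u : ℕ) : ℤ) = (u : ℤ) + p * v := by push_cast; ring
      have e1 : DD α β γ ((u : ℤ) + p * v) = DD α β γ (0 + 1 * (u : ℤ)) + p * (v * (α * (2 * u + p * v) + β)) := by
        rw [DD_per, zero_add, one_mul]; ring
      rw [e0]
      congr 1
      rw [e1, js_per]
    rw [sum_congr rfl h1, ← mul_sum, quad_sum_gen α β γ q u p]
    intro h2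
    have := (Nat.prime_dvd_prime_iff_eq hq hp).1 (by exact_mod_cast h2)
    exact hpq this.symm
  rw [sum_congr rfl h0, ← sum_mul, quad_sum_gen α β γ p 0 1]
  intro h
  have := Int.le_of_dvd (by norm_num) h
  have := hp.two_le
  omega

theorem second_moment_gen (α β γ : ℤ) (P : Finset ℕ) (z Z H : ℕ) (hz : 1 ≤ z)
    (hP : ∀ p ∈ P, p.Prime ∧ p ≠ 2 ∧ z < p ∧ p ≤ Z ∧ gp α β γ p) :
    ∑ c ∈ range H, (∑ p ∈ P, (jacobiSym (DD α β γ c) p : ℝ) / p) ^ 2 ≤ 2 * (H / z) + (Z : ℝ) ^ 2 := by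
  classical
  have h1 : ∑ c ∈ range H, (∑ p ∈ P, (jacobiSym (DD α β γ c) p : ℝ) / p) ^ 2 =
      ∑ p ∈ P, ∑ q ∈ P, (∑ c ∈ range H, (jacobiSym (DD α β γ c) p : ℝ) * (jacobiSym (DD α β γ c) q : ℝ)) / (p * q) := by
    simp_rw [sq (∑ p ∈ P, _), sum_mul_sum]
    rw [sum_comm]
    apply sum_congr rfl
    intro p _
    rw [sum_comm]
    apply sum_congr rfl
    intro q _
    rw [sum_div]
    apply sum_congr rfl
    intro c _
    rw [div_mul_div_comm]
  rw [h1]
  have h2 : ∀ p ∈ P, ∀ q ∈ P, (∑ c ∈ range H, (jacobiSym (DD α β γ c) p : ℝ) * (jacobiSym (DD α β γ c) q : ℝ)) / (p * q) ≤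
      (if p = q then (H : ℝ) * (1 / (p : ℝ) ^ 2) else 0) + ((H : ℝ) * ((1 / (p : ℝ) ^ 2) * (1 / (q : ℝ) ^ 2)) + 1) := by
    intro p hp q hq
    obtain ⟨hpp, hp2, hzp, hpZ, hpβ⟩ := hP p hp
    obtain ⟨hqp, hq2, hzq, hqZ, hqβ⟩ := hP q hq
    have hp0 : (0 : ℝ) < p := by exact_mod_cast hpp.pos
    have hq0 : (0 : ℝ) < q := by exact_mod_cast hqp.pos
    by_cases hpq : p = q
    · subst hpq
      rw [if_pos rfl]
      have h3 : ∑ c ∈ range H, (jacobiSym (DD α β γ c) p : ℝ) * (jacobiSym (DD α β γ c) p : ℝ) ≤ H := by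
        calc ∑ c ∈ range H, (jacobiSym (DD α β γ c) p : ℝ) * (jacobiSym (DD α β γ c) p : ℝ) ≤ ∑ c ∈ range H, (1 : ℝ) := by
              apply sum_le_sum
              intro c _
              rw [← sq, sq_le_one_iff_abs_le_one]
              exact js_abs _ _
          _ = H := by simp
      have h4 : (∑ c ∈ range H, (jacobiSym (DD α β γ c) p : ℝ) * (jacobiSym (DD α β γ c) p : ℝ)) / (p * p) ≤
          (H : ℝ) * (1 / (p : ℝ) ^ 2) := by
        rw [mul_one_div, sq]
        exact div_le_div_of_nonneg_right h3 (by positivity)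
      have h5 : 0 ≤ (H : ℝ) * ((1 / (p : ℝ) ^ 2) * (1 / (p : ℝ) ^ 2)) := by positivity
      linarith
    · rw [if_neg hpq, zero_add]
      have : Fact p.Prime := ⟨hpp⟩
      have : Fact q.Prime := ⟨hqp⟩
      have hSp := SZ_abs α β γ p hp2 hpβ
      have hSq := SZ_abs α β γ q hq2 hqβ
      have hS : |((SZ α β γ p * SZ α β γ q : ℤ) : ℝ)| ≤ 1 := by
        have h5 : |SZ α β γ p * SZ α β γ q| ≤ 1 := by
          rw [abs_mul]
          exact mul_le_one₀ hSp (abs_nonneg _) hSq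
        exact_mod_cast h5
      have h3 := periodic_sum' (fun c => (jacobiSym (DD α β γ c) p : ℝ) * (jacobiSym (DD α β γ c) q : ℝ)) (p * q)
        (Nat.mul_pos hpp.pos hqp.pos) ?_ ?_ ((SZ α β γ p * SZ α β γ q : ℤ) : ℝ) ?_ hS H
      · push_cast at h3
        rw [div_le_iff₀ (by positivity)]
        refine (le_abs_self _).trans (h3.trans (le_of_eq ?_))
        field_simp
      · intro x
        rw [abs_mul]
        exact mul_le_one₀ (js_abs _ _) (abs_nonneg _) (js_abs _ _)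
      · intro x
        have e1 : DD α β γ ((x + p * q : ℕ) : ℤ) = DD α β γ x + p * (q * (α * (2 * x + p * q) + β)) := by
          push_cast
          rw [DD_per]; ring
        have e2 : DD α β γ ((x + p * q : ℕ) : ℤ) = DD α β γ x + q * (p * (α * (2 * x + p * q) + β)) := by
          push_cast
          rw [DD_per]; ring
        have e3 : jacobiSym (DD α β γ ((x + p * q : ℕ) : ℤ)) p = jacobiSym (DD α β γ x) p := by rw [e1, js_per]
        have e4 : jacobiSym (DD α β γ ((x + p * q : ℕ) : ℤ)) q = jacobiSym (DD α β γ x) q := by rw [e2, js_per]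
        simp only [e3, e4]
      · have h4 := quad_pair_gen α β γ p q hpq
        exact_mod_cast h4
  calc ∑ p ∈ P, ∑ q ∈ P, (∑ c ∈ range H, (jacobiSym (DD α β γ c) p : ℝ) * (jacobiSym (DD α β γ c) q : ℝ)) / (p * q)
      ≤ ∑ p ∈ P, ∑ q ∈ P, ((if p = q then (H : ℝ) * (1 / (p : ℝ) ^ 2) else 0) +
          ((H : ℝ) * ((1 / (p : ℝ) ^ 2) * (1 / (q : ℝ) ^ 2)) + 1)) :=
        sum_le_sum fun p hp => sum_le_sum fun q hq => h2 p hp q hq
    _ = (H : ℝ) * ∑ p ∈ P, 1 / (p : ℝ) ^ 2 + ((H : ℝ) * (∑ p ∈ P, 1 / (p : ℝ) ^ 2) ^ 2 + (#P : ℝ) ^ 2) := by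
        simp_rw [sum_add_distrib]
        congr 1
        · rw [mul_sum]
          apply sum_congr rfl
          intro p hp
          rw [sum_ite_eq, if_pos hp]
        · congr 1
          · rw [sq (∑ p ∈ P, _), sum_mul_sum, mul_sum]
            apply sum_congr rfl
            intro p _
            rw [mul_sum]
          · simp [sq]
    _ ≤ 2 * (H / z) + (Z : ℝ) ^ 2 := by
        have hsub : P ⊆ Ioc z Z := by
          intro p hp
          rw [mem_Ioc]
          exact ⟨(hP p hp).2.2.1, (hP p hp).2.2.2.1⟩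
        have hcard : (#P : ℝ) ≤ Z := by
          have := card_le_card hsub
          rw [Nat.card_Ioc] at this
          exact_mod_cast this.trans (Nat.sub_le _ _)
        have hz1 : (1 : ℝ) ≤ z := by exact_mod_cast hz
        have h5 : ∑ p ∈ P, 1 / (p : ℝ) ^ 2 ≤ 1 / (z : ℝ) := by
          rcases P.eq_empty_or_nonempty with h | ⟨p, hp⟩
          · rw [h, sum_empty]; positivity
          · have hzZ : z ≤ Z := by
              have := hP p hp
              omega
            calc ∑ p ∈ P, 1 / (p : ℝ) ^ 2 ≤ ∑ n ∈ Ioc z Z, 1 / (n : ℝ) ^ 2 :=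
                  sum_le_sum_of_subset_of_nonneg hsub (fun _ _ _ => by positivity)
              _ ≤ 1 / (z : ℝ) - 1 / (Z : ℝ) := sum_inv_sq z Z hz hzZ
              _ ≤ 1 / (z : ℝ) := by
                  have : (0 : ℝ) ≤ 1 / (Z : ℝ) := by positivity
                  linarith
        have h50 : 0 ≤ ∑ p ∈ P, 1 / (p : ℝ) ^ 2 := sum_nonneg fun _ _ => by positivity
        have h51 : 1 / (z : ℝ) ≤ 1 := by rw [div_le_one (by linarith)]; exact hz1
        have h6 : (H : ℝ) * ∑ p ∈ P, 1 / (p : ℝ) ^ 2 ≤ H * (1 / (z : ℝ)) := mul_le_mul_of_nonneg_left h5 (by positivity)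
        have h8 : (∑ p ∈ P, 1 / (p : ℝ) ^ 2) ^ 2 ≤ 1 / (z : ℝ) := by
          calc (∑ p ∈ P, 1 / (p : ℝ) ^ 2) ^ 2 = (∑ p ∈ P, 1 / (p : ℝ) ^ 2) * (∑ p ∈ P, 1 / (p : ℝ) ^ 2) := sq _
            _ ≤ (1 / (z : ℝ)) * 1 := mul_le_mul h5 (h5.trans h51) h50 (by positivity)
            _ = 1 / (z : ℝ) := mul_one _
        have h9 : (H : ℝ) * (∑ p ∈ P, 1 / (p : ℝ) ^ 2) ^ 2 ≤ H * (1 / (z : ℝ)) := mul_le_mul_of_nonneg_left h8 (by positivity)
        have h7 : (#P : ℝ) ^ 2 ≤ (Z : ℝ) ^ 2 := pow_le_pow_left₀ (by positivity) hcard 2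
        rw [mul_one_div] at h6 h9
        linarith

/-- few `n` with a large sum -/
theorem low_count_gen (α β γ : ℤ) (P : Finset ℕ) (z Z H : ℕ) (hz : 1 ≤ z)
    (hP : ∀ p ∈ P, p.Prime ∧ p ≠ 2 ∧ z < p ∧ p ≤ Z ∧ gp α β γ p) (τ : ℝ) (hτ : 0 < τ) :
    (#((range H).filter (fun c : ℕ => τ < |∑ p ∈ P, (jacobiSym (DD α β γ c) p : ℝ) / p|)) : ℝ) ≤
      (2 * (H / z) + (Z : ℝ) ^ 2) / τ ^ 2 := by
  rw [le_div_iff₀ (by positivity)]
  refine le_trans ?_ (second_moment_gen α β γ P z Z H hz hP)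
  calc (#((range H).filter (fun c : ℕ => τ < |∑ p ∈ P, (jacobiSym (DD α β γ c) p : ℝ) / p|)) : ℝ) * τ ^ 2
      = ∑ c ∈ (range H).filter (fun c : ℕ => τ < |∑ p ∈ P, (jacobiSym (DD α β γ c) p : ℝ) / p|), τ ^ 2 := by
        rw [sum_const, nsmul_eq_mul]
    _ ≤ ∑ c ∈ (range H).filter (fun c : ℕ => τ < |∑ p ∈ P, (jacobiSym (DD α β γ c) p : ℝ) / p|),
        (∑ p ∈ P, (jacobiSym (DD α β γ c) p : ℝ) / p) ^ 2 := by
        apply sum_le_sum
        intro c hc
        rw [mem_filter] at hc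
        rw [← sq_abs (∑ p ∈ P, (jacobiSym (DD α β γ c) p : ℝ) / p)]
        exact pow_le_pow_left₀ hτ.le hc.2.le 2
    _ ≤ _ := sum_le_sum_of_subset_of_nonneg (filter_subset _ _) (fun _ _ _ => sq_nonneg _)

end Pool.Agent.X56.PN
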