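import Pool.Agent.W218.HF.QMid
import Pool.Agent.X56.PN.Low1

set_option autoImplicit false

/-!
Few `n` are such that `D(n)` has a given kernel.
-/

namespace Pool.Agent.X56.PN
open Finset
open Pool.Agent.W468.ConjF
open Pool.Agent.W218.HF (pell_count)

open Classical in
/-- the solutions of `D(n) = d s^2` -/
noncomputable def Sol (α β γ : ℤ) (H : ℕ) (d : ℤ) : Finset ℕ :=
  (Icc 1 H).filter (fun n : ℕ => ∃ s : ℕ, DD α β γ n = d * (s : ℤ) ^ 2)

lemma log2_le (B : ℕ) (hB : 1 ≤ B) : (Nat.log 2 B : ℝ) ≤ 3 * Real.sqrt B := by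
  have hB0 : (0 : ℝ) < B := by exact_mod_cast hB
  have h1 : ((2 ^ Nat.log 2 B : ℕ) : ℝ) ≤ B := by exact_mod_cast Nat.pow_log_le_self 2 (by omega)
  have h2 := Real.log_le_log (by positivity) h1
  push_cast at h2
  rw [Real.log_pow] at h2
  have h3 := Real.log_two_gt_d9
  have h4 : Real.log B ≤ 2 * Real.sqrt B := by
    have := Real.log_le_rpow_div hB0.le (show (0 : ℝ) < 1 / 2 by norm_num)
    rw [← Real.sqrt_eq_rpow] at this
    linarith
  have h5 : (Nat.log 2 B : ℝ) * (2 / 3) ≤ Nat.log 2 B * Real.log 2 :=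
    mul_le_mul_of_nonneg_left (by linarith) (by positivity)
  linarith

lemma sol_quad (α β γ : ℤ) (hα : α ≠ 0) (hΔ : β ^ 2 - 4 * α * γ ≠ 0) : ∃ C : ℝ, 0 < C ∧ ∀ (H : ℕ) (d : ℤ), 1 ≤ H →
    (#(Sol α β γ H d) : ℝ) ≤ C * Real.sqrt H := by
  classical
  set Δ : ℤ := β ^ 2 - 4 * α * γ with hΔd
  set K : ℕ := 2 * α.natAbs + β.natAbs with hK
  have hK1 : 1 ≤ K := by
    have := Int.natAbs_pos.2 hα
    omega
  set m : ℕ := Δ.natAbs with hm
  refine ⟨2 * (1 + m + (m : ℝ) ^ 2 * (2 * (3 * Real.sqrt K + 1))), by positivity, fun H d hH => ?_⟩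
  set B : ℕ := K * H with hB
  have hB1 : 1 ≤ B := Nat.mul_pos hK1 hH
  set S' := (Icc 1 B).filter (fun b : ℕ => ∃ s : ℕ, (b : ℤ) ^ 2 - Δ = (4 * α * d) * (s : ℤ) ^ 2) with hS'
  have hp := pell_count Δ (4 * α * d) hΔ B
  have hp' : (#S' : ℝ) ≤ m + (m : ℝ) ^ 2 * (2 * (Nat.log 2 B + 1)) := by
    have : #S' ≤ m + m ^ 2 * (2 * (Nat.log 2 B + 1)) := by convert hp using 2
    exact_mod_cast this
  have hmap : ∀ n ∈ Sol α β γ H d, (2 * α * n + β).natAbs ∈ insert 0 S' := by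
    intro n hn
    rw [Sol, mem_filter, mem_Icc] at hn
    obtain ⟨⟨hn1, hn2⟩, s, hs⟩ := hn
    rw [mem_insert]
    by_cases h0 : (2 * α * (n : ℤ) + β).natAbs = 0
    · exact Or.inl h0
    · right
      rw [hS', mem_filter, mem_Icc]
      refine ⟨⟨by omega, ?_⟩, s, ?_⟩
      · calc (2 * α * (n : ℤ) + β).natAbs ≤ (2 * α * (n : ℤ)).natAbs + β.natAbs := Int.natAbs_add_le _ _
          _ = 2 * α.natAbs * n + β.natAbs := by
              rw [Int.natAbs_mul, Int.natAbs_mul, Int.natAbs_natCast]; rfl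
          _ ≤ 2 * α.natAbs * H + β.natAbs * H := by
              apply add_le_add
              · exact Nat.mul_le_mul_left _ hn2
              · exact Nat.le_mul_of_pos_right _ hH
          _ = B := by rw [hB, hK]; ring
      · rw [Int.natCast_natAbs, sq_abs, hΔd]
        unfold DD at hs
        linear_combination 4 * α * hs
  have hfib : ∀ w ∈ insert 0 S', #((Sol α β γ H d).filter (fun n : ℕ => (2 * α * (n : ℤ) + β).natAbs = w)) ≤ 2 := by
    intro w _
    by_contra hcon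
    push Not at hcon
    obtain ⟨t₁, t₂, t₃, h1, h2, h3, h12, h13, h23⟩ := Finset.two_lt_card_iff.1 hcon
    have e1 := (mem_filter.1 h1).2
    have e2 := (mem_filter.1 h2).2
    have e3 := (mem_filter.1 h3).2
    have key : ∀ s t : ℕ, (2 * α * (s : ℤ) + β) = (2 * α * (t : ℤ) + β) → s = t := by
      intro s t h
      have h5 : (2 * α) * ((s : ℤ) - t) = 0 := by linear_combination h
      rcases mul_eq_zero.1 h5 with h6 | h6
      · exfalso; apply hα; omega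
      · omega
    rcases Int.natAbs_eq_natAbs_iff.1 (e1.trans e2.symm) with h4 | h4
    · exact h12 (key _ _ h4)
    · rcases Int.natAbs_eq_natAbs_iff.1 (e1.trans e3.symm) with h5 | h5
      · exact h13 (key _ _ h5)
      · apply h23
        apply key
        linarith
  have h1 := card_le_mul_card_image_of_maps_to hmap 2 hfib
  have h2 : #(insert 0 S') ≤ #S' + 1 := card_insert_le _ _
  have h3 : (#(Sol α β γ H d) : ℝ) ≤ 2 * (#S' + 1) := by
    exact_mod_cast h1.trans (Nat.mul_le_mul_left 2 h2)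
  have h4 := log2_le B hB1
  have h5 : Real.sqrt B = Real.sqrt K * Real.sqrt H := by
    rw [hB, Nat.cast_mul, Real.sqrt_mul (by positivity)]
  have h6 : (1 : ℝ) ≤ Real.sqrt H := by
    rw [Real.one_le_sqrt]; exact_mod_cast hH
  rw [h5] at h4
  refine h3.trans ?_
  have h7 : (m : ℝ) ^ 2 * (2 * ((Nat.log 2 B : ℝ) + 1)) ≤ (m : ℝ) ^ 2 * (2 * (3 * Real.sqrt K + 1)) * Real.sqrt H := by
    have h8 : (Nat.log 2 B : ℝ) + 1 ≤ (3 * Real.sqrt K + 1) * Real.sqrt H := by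
      have e : (3 * Real.sqrt K + 1) * Real.sqrt H = 3 * (Real.sqrt K * Real.sqrt H) + Real.sqrt H := by ring
      rw [e]; linarith
    calc (m : ℝ) ^ 2 * (2 * ((Nat.log 2 B : ℝ) + 1)) ≤ (m : ℝ) ^ 2 * (2 * ((3 * Real.sqrt K + 1) * Real.sqrt H)) := by gcongr
      _ = _ := by ring
  have h9 : (1 + m : ℝ) ≤ (1 + m) * Real.sqrt H := le_mul_of_one_le_right (by positivity) h6
  calc 2 * ((#S' : ℝ) + 1) ≤ 2 * ((1 + m) * Real.sqrt H + (m : ℝ) ^ 2 * (2 * (3 * Real.sqrt K + 1)) * Real.sqrt H) := by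
        linarith
    _ = _ := by ring

lemma sol_lin (β γ : ℤ) (hβ : β ≠ 0) : ∃ C : ℝ, 0 < C ∧ ∀ (H : ℕ) (d : ℤ), 1 ≤ H →
    (#(Sol 0 β γ H d) : ℝ) ≤ C * Real.sqrt H := by
  classical
  set K : ℕ := β.natAbs + γ.natAbs with hK
  refine ⟨Real.sqrt K + 1, by positivity, fun H d hH => ?_⟩
  have h6 : (1 : ℝ) ≤ Real.sqrt H := by
    rw [Real.one_le_sqrt]; exact_mod_cast hH
  have hinj : ∀ n₁ n₂ : ℕ, DD 0 β γ n₁ = DD 0 β γ n₂ → n₁ = n₂ := by
    intro n₁ n₂ h
    unfold DD at h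
    have h5 : β * ((n₁ : ℤ) - n₂) = 0 := by linear_combination h
    rcases mul_eq_zero.1 h5 with h6 | h6
    · exact absurd h6 hβ
    · omega
  have hch : ∀ n : ℕ, ∃ s : ℕ, n ∈ Sol 0 β γ H d → DD 0 β γ n = d * (s : ℤ) ^ 2 ∧ s ≤ Nat.sqrt (K * H) := by
    intro n
    by_cases h : n ∈ Sol 0 β γ H d
    · have h' := h
      rw [Sol, mem_filter, mem_Icc] at h
      obtain ⟨⟨hn1, hn2⟩, s, hs⟩ := h
      by_cases hd : d = 0
      · refine ⟨0, fun _ => ⟨?_, Nat.zero_le _⟩⟩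
        rw [hs, hd]; ring
      · refine ⟨s, fun _ => ⟨hs, ?_⟩⟩
        rw [Nat.le_sqrt]
        have h1 : (d * (s : ℤ) ^ 2).natAbs = d.natAbs * s ^ 2 := by
          rw [Int.natAbs_mul, Int.natAbs_pow, Int.natAbs_natCast]
        have h2 : (DD 0 β γ n).natAbs ≤ K * H := by
          unfold DD
          rw [zero_mul, zero_add]
          calc (β * (n : ℤ) + γ).natAbs ≤ (β * (n : ℤ)).natAbs + γ.natAbs := Int.natAbs_add_le _ _
            _ = β.natAbs * n + γ.natAbs := by rw [Int.natAbs_mul, Int.natAbs_natCast]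
            _ ≤ β.natAbs * H + γ.natAbs * H := by
                apply add_le_add
                · exact Nat.mul_le_mul_left _ hn2
                · exact Nat.le_mul_of_pos_right _ hH
            _ = K * H := by rw [hK]; ring
        rw [hs, h1] at h2
        have h3 : 1 ≤ d.natAbs := Int.natAbs_pos.2 hd
        calc s * s = 1 * s ^ 2 := by ring
          _ ≤ d.natAbs * s ^ 2 := Nat.mul_le_mul_right _ h3
          _ ≤ K * H := h2
    · exact ⟨0, fun h' => absurd h' h⟩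
  choose σ hσ using hch
  have h1 : #(Sol 0 β γ H d) ≤ #(range (Nat.sqrt (K * H) + 1)) := by
    apply card_le_card_of_injOn σ
    · intro n hn
      rw [mem_coe, mem_range]
      have := (hσ n hn).2
      omega
    · intro n₁ h₁ n₂ h₂ h
      apply hinj
      rw [(hσ n₁ h₁).1, (hσ n₂ h₂).1, h]
  rw [card_range] at h1
  have h2 : (Nat.sqrt (K * H) : ℝ) ≤ Real.sqrt K * Real.sqrt H := by
    rw [← Real.sqrt_mul (by positivity)]
    have := Real.nat_sqrt_le_real_sqrt (a := K * H)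
    push_cast at this
    exact this
  have h3 : (#(Sol 0 β γ H d) : ℝ) ≤ Nat.sqrt (K * H) + 1 := by exact_mod_cast h1
  calc (#(Sol 0 β γ H d) : ℝ) ≤ Real.sqrt K * Real.sqrt H + Real.sqrt H := by linarith
    _ = _ := by ring

/-- all but few `n` are good on all blocks -/
theorem mid_count_gen (α β γ : ℤ) (H Δ i0 I m : ℕ) (W : ℝ) (hW : ∀ d, (#(Sol α β γ H d) : ℝ) ≤ W)
    (hΔ : ∀ n ∈ Icc 1 H, (DD α β γ (n : ℕ)).natAbs ≤ Δ) (hi0 : 1 ≤ i0) (hm : 1 ≤ m)
    (hΔ3 : Δ ^ 3 ≤ (2 * 2 ^ i0) ^ m) :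
    ∃ E : Finset ℕ, (#E : ℝ) ≤ (4 * ((I : ℝ) * (8 * (2 * m * (I : ℝ) ^ 4) ^ m)) + 1) * W ∧
      ∀ n ∈ Icc 1 H, n ∉ E → ¬ IsSquare (DD α β γ (n : ℕ)) ∧ ∀ i ∈ Icc i0 I,
        |∑ p ∈ Blk i, (jacobiSym (DD α β γ (n : ℕ)) p : ℝ) / p| ≤
          4 * (1 / (i : ℝ) ^ 2) + 4 * (Nat.log 2 Δ / 2 ^ i) := by
  classical
  set T := ({1, -1, 2, -2} : Finset ℤ) ×ˢ BadK Δ i0 I with hT
  set E := Sol α β γ H 1 ∪ T.biUnion (fun t => Sol α β γ H (t.1 * t.2)) with hE
  have hW0 : 0 ≤ W := le_trans (by positivity) (hW 1)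
  refine ⟨E, ?_, ?_⟩
  · have h2 : #T = 4 * #(BadK Δ i0 I) := by
      rw [hT, card_product, show #({1, -1, 2, -2} : Finset ℤ) = 4 from rfl]
    calc (#E : ℝ) ≤ #(Sol α β γ H 1) + ∑ t ∈ T, (#(Sol α β γ H (t.1 * t.2)) : ℝ) := by
          have := (card_union_le (Sol α β γ H 1) (T.biUnion (fun t => Sol α β γ H (t.1 * t.2)))).trans
            (Nat.add_le_add_left card_biUnion_le _)
          exact_mod_cast this
      _ ≤ W + ∑ t ∈ T, W := add_le_add (hW 1) (sum_le_sum fun t _ => hW _)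
      _ = (4 * (#(BadK Δ i0 I) : ℝ) + 1) * W := by
          rw [sum_const, nsmul_eq_mul, h2]; push_cast; ring
      _ ≤ _ := by
          apply mul_le_mul_of_nonneg_right _ hW0
          have := badK_card Δ i0 I m hi0 hm hΔ3
          linarith
  · intro b hb hbE
    rw [hE, mem_union, not_or] at hbE
    have hns : ¬ IsSquare (DD α β γ (b : ℕ)) := by
      rintro ⟨r, hr⟩
      apply hbE.1
      rw [Sol, mem_filter]
      refine ⟨hb, r.natAbs, ?_⟩
      rw [hr, one_mul, Int.natCast_natAbs, sq_abs, sq]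
    have hD0 : DD α β γ (b : ℕ) ≠ 0 := by
      intro h; apply hns; rw [h]; exact ⟨0, by simp⟩
    refine ⟨hns, fun i hi => ?_⟩
    obtain ⟨δ, s, u, hu, hD, hδ1, hδ2⟩ := kernel _ hD0
    rw [mem_Icc] at hi
    refine block_bound _ Δ (hΔ b hb) δ s u hu hD0 hD hδ2 i (by omega) _ ?_
    by_contra hcon
    push Not at hcon
    obtain ⟨r, hr, hrτ⟩ := hcon
    apply hbE.2
    have hab : (DD α β γ (b : ℕ)).natAbs = u.natAbs * s ^ 2 * δ := by
      rw [hD, Int.natAbs_mul, Int.natAbs_mul, Int.natAbs_pow]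
      simp
    have hu1 : 1 ≤ u.natAbs := by
      simp only [mem_insert, mem_singleton] at hu
      rcases hu with rfl | rfl | rfl | rfl <;> norm_num
    have hδ0 : 1 ≤ δ := by omega
    have hs0 : s ≠ 0 := by
      rintro rfl
      apply hD0; rw [hD]; simp
    have hle := hΔ b hb
    rw [hab] at hle
    rw [mem_biUnion]
    refine ⟨(u, δ), ?_, ?_⟩
    · rw [hT, mem_product]
      refine ⟨hu, ?_⟩
      show δ ∈ BadK Δ i0 I
      rw [BadK, mem_filter, mem_range, Nat.lt_succ_iff]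
      refine ⟨?_, hδ1, hδ2, i, mem_Icc.2 hi, r, hr, hrτ⟩
      have hs1 : 1 ≤ s ^ 2 := Nat.one_le_pow _ _ (Nat.pos_of_ne_zero hs0)
      calc δ = 1 * 1 * δ := by ring
        _ ≤ u.natAbs * s ^ 2 * δ := by gcongr
        _ ≤ Δ := hle
    · rw [Sol, mem_filter]
      refine ⟨hb, s, ?_⟩
      rw [hD]; ring

end Pool.Agent.X56.PN
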