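import Pool.Agent.W218.HF.QFinal
import Pool.Agent.X56.PN.Most1

set_option autoImplicit false

/-!
The tail of the constant when the leading coefficient is large; prime divisors of `a + n a'`.
-/

namespace Pool.Agent.X56.PN
open Finset Filter Topology
open Pool.Agent.W468.ConjF

/-- the sum over the primes `p > z` dividing `a` -/
noncomputable def Sd (a : ℤ) (z : ℕ) : ℝ := ∑ p ∈ a.natAbs.primeFactors.filter (fun p => z < p), 1 / (p : ℝ)

lemma fac_bd (p : ℕ) (hp : 3 ≤ p) (χ : ℝ) (hχ : χ ≤ 1) (w : ℝ) (hw : w ≤ (p : ℝ) / (p - 1)) :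
    w ≤ (1 - χ / (p - 1)) * Real.exp (6 * (1 / p)) := by
  have hp3 : (3 : ℝ) ≤ p := by exact_mod_cast hp
  have h1 : 1 + 6 * (1 / (p : ℝ)) ≤ Real.exp (6 * (1 / p)) := by
    have := Real.add_one_le_exp (6 * (1 / (p : ℝ))); linarith
  have h2 : 1 - 1 / ((p : ℝ) - 1) ≤ 1 - χ / (p - 1) := by
    have : χ / ((p : ℝ) - 1) ≤ 1 / (p - 1) := div_le_div_of_nonneg_right hχ (by linarith)
    linarith
  have h3 : 0 ≤ 1 - 1 / ((p : ℝ) - 1) := by
    have : 1 / ((p : ℝ) - 1) ≤ 1 := by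
      rw [div_le_one (by linarith)]; linarith
    linarith
  have h4 : (p : ℝ) / (p - 1) ≤ (1 - 1 / ((p : ℝ) - 1)) * (1 + 6 * (1 / (p : ℝ))) := by
    have hp1 : (0 : ℝ) < p - 1 := by linarith
    have hp0 : (0 : ℝ) < p := by linarith
    have e1 : (1 - 1 / ((p : ℝ) - 1)) * (1 + 6 * (1 / (p : ℝ))) = ((p - 2) * (p + 6)) / ((p - 1) * p) := by
      field_simp
      ring
    rw [e1, div_le_div_iff₀ hp1 (by positivity)]
    nlinarith [mul_pos hp0 hp1]
  calc w ≤ (p : ℝ) / (p - 1) := hw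
    _ ≤ (1 - 1 / ((p : ℝ) - 1)) * (1 + 6 * (1 / (p : ℝ))) := h4
    _ ≤ (1 - χ / (p - 1)) * Real.exp (6 * (1 / p)) := by
        apply mul_le_mul h2 h1 (by positivity)
        exact h3.trans h2

lemma CF_le_gen (a b c : ℤ) (ha : 0 < a) (z N : ℕ) (hz : 2 ≤ z) (hN : z ≤ N) :
    CF a b c N ≤ CF a b c z * (PJ (b ^ 2 - 4 * a * c) z N * Real.exp (6 * Sd a z)) := by
  classical
  set D := b ^ 2 - 4 * a * c with hD
  -- split
  have hsplit : CF a b c N = CF a b c z *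
      ((∏ p ∈ (Ioc z N).filter (fun p : ℕ => p.Prime ∧ (p : ℤ) ∣ a ∧ (p : ℤ) ∣ b), (p : ℝ) / (p - 1)) *
       ∏ p ∈ (Ioc z N).filter (fun p : ℕ => p.Prime ∧ ¬ (p : ℤ) ∣ a), (1 - (jacobiSym D p : ℝ) / (p - 1))) := by
    unfold CF
    have e1 : (range (N + 1)).filter (fun p : ℕ => p.Prime ∧ 3 ≤ p ∧ (p : ℤ) ∣ a ∧ (p : ℤ) ∣ b) =
        (range (z + 1)).filter (fun p : ℕ => p.Prime ∧ 3 ≤ p ∧ (p : ℤ) ∣ a ∧ (p : ℤ) ∣ b) ∪
        (Ioc z N).filter (fun p : ℕ => p.Prime ∧ (p : ℤ) ∣ a ∧ (p : ℤ) ∣ b) := by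
      ext p
      simp only [mem_filter, mem_range, mem_union, mem_Ioc]
      constructor
      · rintro ⟨h0, h1, h2, h3, h4⟩
        by_cases h5 : p < z + 1
        · exact Or.inl ⟨h5, h1, h2, h3, h4⟩
        · exact Or.inr ⟨by omega, h1, h3, h4⟩
      · rintro (⟨h0, h1, h2, h3, h4⟩ | ⟨h0, h1, h3, h4⟩)
        · exact ⟨by omega, h1, h2, h3, h4⟩
        · exact ⟨by omega, h1, by omega, h3, h4⟩
    have e2 : (range (N + 1)).filter (fun p : ℕ => p.Prime ∧ 3 ≤ p ∧ ¬ (p : ℤ) ∣ a) =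
        (range (z + 1)).filter (fun p : ℕ => p.Prime ∧ 3 ≤ p ∧ ¬ (p : ℤ) ∣ a) ∪
        (Ioc z N).filter (fun p : ℕ => p.Prime ∧ ¬ (p : ℤ) ∣ a) := by
      ext p
      simp only [mem_filter, mem_range, mem_union, mem_Ioc]
      constructor
      · rintro ⟨h0, h1, h2, h3⟩
        by_cases h4 : p < z + 1
        · exact Or.inl ⟨h4, h1, h2, h3⟩
        · exact Or.inr ⟨by omega, h1, h3⟩
      · rintro (⟨h0, h1, h2, h3⟩ | ⟨h0, h1, h3⟩)
        · exact ⟨by omega, h1, h2, h3⟩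
        · exact ⟨by omega, h1, by omega, h3⟩
    have d1 : Disjoint ((range (z + 1)).filter (fun p : ℕ => p.Prime ∧ 3 ≤ p ∧ (p : ℤ) ∣ a ∧ (p : ℤ) ∣ b))
        ((Ioc z N).filter (fun p : ℕ => p.Prime ∧ (p : ℤ) ∣ a ∧ (p : ℤ) ∣ b)) := by
      rw [Finset.disjoint_left]
      intro p h1 h2
      simp only [mem_filter, mem_range, mem_Ioc] at h1 h2
      omega
    have d2 : Disjoint ((range (z + 1)).filter (fun p : ℕ => p.Prime ∧ 3 ≤ p ∧ ¬ (p : ℤ) ∣ a))
        ((Ioc z N).filter (fun p : ℕ => p.Prime ∧ ¬ (p : ℤ) ∣ a)) := by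
      rw [Finset.disjoint_left]
      intro p h1 h2
      simp only [mem_filter, mem_range, mem_Ioc] at h1 h2
      omega
    rw [e1, e2, prod_union d1, prod_union d2]
    ring
  rw [hsplit]
  apply mul_le_mul_of_nonneg_left _ (CF_pos a b c z).le
  set S := (Ioc z N).filter Nat.Prime with hS
  have hS3 : ∀ p ∈ S, 3 ≤ p := by
    intro p hp
    rw [hS, mem_filter, mem_Ioc] at hp
    omega
  have e1 : (Ioc z N).filter (fun p : ℕ => p.Prime ∧ (p : ℤ) ∣ a ∧ (p : ℤ) ∣ b) =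
      (S.filter (fun p : ℕ => (p : ℤ) ∣ a)).filter (fun p : ℕ => (p : ℤ) ∣ b) := by
    rw [hS, filter_filter, filter_filter]
  have e2 : (Ioc z N).filter (fun p : ℕ => p.Prime ∧ ¬ (p : ℤ) ∣ a) = S.filter (fun p : ℕ => ¬ (p : ℤ) ∣ a) := by
    rw [hS, filter_filter]
  have hPJ : PJ D z N = (∏ p ∈ S.filter (fun p : ℕ => (p : ℤ) ∣ a), (1 - (jacobiSym D p : ℝ) / (p - 1))) *
      ∏ p ∈ S.filter (fun p : ℕ => ¬ (p : ℤ) ∣ a), (1 - (jacobiSym D p : ℝ) / (p - 1)) := by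
    unfold PJ
    rw [← prod_filter_mul_prod_filter_not S (fun p : ℕ => (p : ℤ) ∣ a)]
  have hexp : ∏ p ∈ S.filter (fun p : ℕ => (p : ℤ) ∣ a), Real.exp (6 * (1 / (p : ℝ))) ≤ Real.exp (6 * Sd a z) := by
    rw [← Real.exp_sum]
    apply Real.exp_le_exp.2
    rw [← mul_sum]
    apply mul_le_mul_of_nonneg_left _ (by norm_num)
    unfold Sd
    apply sum_le_sum_of_subset_of_nonneg
    · intro p hp
      rw [mem_filter, hS, mem_filter, mem_Ioc] at hp
      rw [mem_filter, Nat.mem_primeFactors]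
      exact ⟨⟨hp.1.2, Int.natCast_dvd.1 hp.2, (Int.natAbs_pos.2 ha.ne').ne'⟩, hp.1.1.1⟩
    · intro p _ _; positivity
  rw [e1, e2, hPJ]
  set A1 := S.filter (fun p : ℕ => (p : ℤ) ∣ a) with hA1
  have hA3 : ∀ p ∈ A1, 3 ≤ p := fun p hp => hS3 p (mem_filter.1 hp).1
  have h1 : ∏ p ∈ A1.filter (fun p : ℕ => (p : ℤ) ∣ b), (p : ℝ) / (p - 1) ≤
      (∏ p ∈ A1, (1 - (jacobiSym D p : ℝ) / (p - 1))) * ∏ p ∈ A1, Real.exp (6 * (1 / (p : ℝ))) := by
    rw [prod_filter, ← prod_mul_distrib]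
    apply Finset.prod_le_prod
    · intro p hp
      have : (3 : ℝ) ≤ p := by exact_mod_cast hA3 p hp
      split_ifs
      · apply div_nonneg <;> linarith
      · norm_num
    · intro p hp
      apply fac_bd p (hA3 p hp)
      · exact (abs_le.1 (js_abs D p)).2
      · have : (3 : ℝ) ≤ p := by exact_mod_cast hA3 p hp
        split_ifs
        · exact le_rfl
        · rw [le_div_iff₀ (by linarith)]; linarith
  have h2 : 0 ≤ ∏ p ∈ S.filter (fun p : ℕ => ¬ (p : ℤ) ∣ a), (1 - (jacobiSym D p : ℝ) / (p - 1)) :=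
    prod_nonneg fun p hp => (factor_pos D p (hS3 p (mem_filter.1 hp).1)).le
  have h3 : 0 ≤ ∏ p ∈ A1, (1 - (jacobiSym D p : ℝ) / (p - 1)) :=
    prod_nonneg fun p hp => (factor_pos D p (hA3 p hp)).le
  calc _ ≤ ((∏ p ∈ A1, (1 - (jacobiSym D p : ℝ) / (p - 1))) * ∏ p ∈ A1, Real.exp (6 * (1 / (p : ℝ)))) *
        ∏ p ∈ S.filter (fun p : ℕ => ¬ (p : ℤ) ∣ a), (1 - (jacobiSym D p : ℝ) / (p - 1)) :=
        mul_le_mul_of_nonneg_right h1 h2
    _ ≤ ((∏ p ∈ A1, (1 - (jacobiSym D p : ℝ) / (p - 1))) * Real.exp (6 * Sd a z)) *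
        ∏ p ∈ S.filter (fun p : ℕ => ¬ (p : ℤ) ∣ a), (1 - (jacobiSym D p : ℝ) / (p - 1)) := by
        apply mul_le_mul_of_nonneg_right _ h2
        exact mul_le_mul_of_nonneg_left hexp h3
    _ = _ := by ring

/-- comparison of the constant with the cut product -/
theorem CF_limit_gen (a b c : ℤ) (ha : 0 < a) (K : ℝ) (hK : Tendsto (fun z => CF a b c z) atTop (𝓝 K)) (z : ℕ)
    (hz : 2 ≤ z) (ε : ℝ) (hε : ∀ᶠ N in atTop, |SJ (b ^ 2 - 4 * a * c) z N| ≤ ε) (hd : 6 * Sd a z ≤ ε) :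
    K ≤ CF a b c z * Real.exp (2 * ε + 1 / z) := by
  apply le_of_tendsto hK
  filter_upwards [hε, eventually_ge_atTop z] with N h1 hN
  refine (CF_le_gen a b c ha z N hz hN).trans ?_
  apply mul_le_mul_of_nonneg_left _ (CF_pos a b c z).le
  calc PJ (b ^ 2 - 4 * a * c) z N * Real.exp (6 * Sd a z) ≤
      Real.exp (|SJ (b ^ 2 - 4 * a * c) z N| + 1 / z) * Real.exp (6 * Sd a z) :=
        mul_le_mul_of_nonneg_right (PJ_le _ z N hz hN) (Real.exp_pos _).le
    _ = Real.exp (|SJ (b ^ 2 - 4 * a * c) z N| + 1 / z + 6 * Sd a z) := by rw [← Real.exp_add]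
    _ ≤ _ := Real.exp_le_exp.2 (by linarith)

/-- the mean of `Sd` over a progression -/
theorem Sd_mean (a a' : ℤ) (ha' : 1 ≤ a') (z H : ℕ) (hz : a' ≤ z) (hz1 : 1 ≤ z) (hH : 1 ≤ H) :
    ∑ n ∈ Icc 1 H, Sd (a + (n : ℕ) * a') z ≤
      (H : ℝ) / z + (1 + Real.log (((a.natAbs + a'.natAbs) * H : ℕ) : ℝ)) := by
  classical
  set X : ℕ := (a.natAbs + a'.natAbs) * H with hX
  have hX1 : 1 ≤ X := by
    have : 1 ≤ a'.natAbs := by omega
    exact Nat.mul_pos (by omega) hH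
  have h1 : ∀ n ∈ Icc 1 H, Sd (a + (n : ℕ) * a') z ≤
      ∑ p ∈ (Ioc z X).filter Nat.Prime, (if (p : ℤ) ∣ a + (n : ℕ) * a' then 1 / (p : ℝ) else 0) := by
    intro n hn
    rw [mem_Icc] at hn
    rw [← sum_filter]
    unfold Sd
    apply sum_le_sum_of_subset_of_nonneg
    · intro p hp
      rw [mem_filter, Nat.mem_primeFactors] at hp
      obtain ⟨⟨h2, h3, h4⟩, h5⟩ := hp
      rw [mem_filter, mem_filter, mem_Ioc]
      refine ⟨⟨⟨h5, ?_⟩, h2⟩, Int.natCast_dvd.2 h3⟩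
      calc p ≤ (a + (n : ℤ) * a').natAbs := Nat.le_of_dvd (Nat.pos_of_ne_zero h4) h3
        _ ≤ a.natAbs + ((n : ℤ) * a').natAbs := Int.natAbs_add_le _ _
        _ = a.natAbs + n * a'.natAbs := by rw [Int.natAbs_mul, Int.natAbs_natCast]
        _ ≤ a.natAbs * H + H * a'.natAbs := by
            apply add_le_add
            · exact Nat.le_mul_of_pos_right _ hH
            · exact Nat.mul_le_mul_right _ hn.2
        _ = X := by rw [hX]; ring
    · intro p _ _; positivity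
  refine (sum_le_sum h1).trans ?_
  rw [sum_comm]
  have h2 : ∀ p ∈ (Ioc z X).filter Nat.Prime, ∑ n ∈ Icc 1 H, (if (p : ℤ) ∣ a + (n : ℕ) * a' then 1 / (p : ℝ) else 0) ≤
      (H : ℝ) * (1 / (p : ℝ) ^ 2) + 1 / (p : ℝ) := by
    intro p hp
    rw [mem_filter, mem_Ioc] at hp
    obtain ⟨⟨h3, h4⟩, h5⟩ := hp
    have hp0 : (0 : ℝ) < p := by exact_mod_cast h5.pos
    rw [← sum_filter, sum_const, nsmul_eq_mul]
    have h6 := Pool.Agent.W218.HF.card_congr_le (X := H) (d := p)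
      ((Icc 1 H).filter (fun n : ℕ => (p : ℤ) ∣ a + (n : ℕ) * a')) (filter_subset _ _) (by
      intro s hs t ht
      rw [mem_filter] at hs ht
      rw [Nat.modEq_iff_dvd]
      have h7 : (p : ℤ) ∣ ((t : ℤ) - s) * a' := by
        have := dvd_sub ht.2 hs.2
        have e : a + (t : ℤ) * a' - (a + (s : ℤ) * a') = ((t : ℤ) - s) * a' := by ring
        rwa [e] at this
      rcases (Nat.prime_iff_prime_int.1 h5).dvd_or_dvd h7 with h8 | h8
      · exact h8
      · exfalso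
        have := Int.le_of_dvd (by omega) h8
        omega)
    calc _ ≤ ((H : ℝ) / p + 1) * (1 / p) := mul_le_mul_of_nonneg_right h6 (by positivity)
      _ = _ := by field_simp
  refine (sum_le_sum h2).trans ?_
  rw [sum_add_distrib, ← mul_sum]
  apply add_le_add
  · have h3 : ∑ p ∈ (Ioc z X).filter Nat.Prime, 1 / (p : ℝ) ^ 2 ≤ 1 / (z : ℝ) := by
      rcases le_or_gt z X with h | h
      · calc ∑ p ∈ (Ioc z X).filter Nat.Prime, 1 / (p : ℝ) ^ 2 ≤ ∑ n ∈ Ioc z X, 1 / (n : ℝ) ^ 2 :=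
              sum_le_sum_of_subset_of_nonneg (filter_subset _ _) (fun _ _ _ => by positivity)
          _ ≤ 1 / (z : ℝ) - 1 / (X : ℝ) := sum_inv_sq z X hz1 h
          _ ≤ _ := by
              have : (0 : ℝ) ≤ 1 / (X : ℝ) := by positivity
              linarith
      · rw [Ioc_eq_empty (by omega)]; simp
    calc (H : ℝ) * ∑ p ∈ (Ioc z X).filter Nat.Prime, 1 / (p : ℝ) ^ 2 ≤ H * (1 / z) :=
          mul_le_mul_of_nonneg_left h3 (by positivity)
      _ = _ := by ring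
  · have h3 : ∑ p ∈ (Ioc z X).filter Nat.Prime, 1 / (p : ℝ) ≤ ∑ n ∈ Icc 1 X, 1 / (n : ℝ) := by
      apply sum_le_sum_of_subset_of_nonneg
      · intro p hp
        rw [mem_filter, mem_Ioc] at hp
        rw [mem_Icc]
        omega
      · intro _ _ _; positivity
    refine h3.trans ?_
    have h4 := harmonic_le_one_add_log X
    rw [harmonic_eq_sum_Icc] at h4
    push_cast at h4
    simpa [one_div] using h4

/-- few `n` with a large `Sd` -/
theorem Sd_count (a a' : ℤ) (ha' : 1 ≤ a') (ε η : ℝ) (hε : 0 < ε) (hη : 0 < η) : ∃ z₀ : ℕ, ∀ z : ℕ, z₀ ≤ z →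
    ∃ H₀ : ℕ, ∀ H : ℕ, H₀ ≤ H → ∃ E : Finset ℕ, (#E : ℝ) ≤ η * H ∧
      ∀ n ∈ Icc 1 H, n ∉ E → 6 * Sd (a + (n : ℕ) * a') z ≤ ε := by
  classical
  refine ⟨max (max 1 a'.toNat) ⌈12 / (η * ε)⌉₊, fun z hz => ?_⟩
  have hz1 : 1 ≤ z := ((le_max_left _ _).trans (le_max_left _ _)).trans hz
  have hza : a' ≤ z := by
    have : a'.toNat ≤ z := ((le_max_right _ _).trans (le_max_left _ _)).trans hz
    omega
  have hzε : 12 / (η * ε) ≤ z := (Nat.le_ceil _).trans (by exact_mod_cast (le_max_right _ _).trans hz)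
  have hz0 : (0 : ℝ) < z := by exact_mod_cast (by omega : 0 < z)
  set K : ℕ := a.natAbs + a'.natAbs with hK
  have hK1 : 1 ≤ K := by omega
  have hev : ∀ᶠ H : ℕ in atTop, 1 + Real.log ((K * H : ℕ) : ℝ) ≤ (η * ε / 12) * H ∧ 1 ≤ H := by
    have h1 : ∀ᶠ H : ℕ in atTop, 1 + Real.log K ≤ (η * ε / 24) * H := by
      have := (tendsto_natCast_atTop_atTop (R := ℝ)).const_mul_atTop (show 0 < η * ε / 24 by positivity)
      exact this.eventually_ge_atTop _
    have h2 : ∀ᶠ x : ℝ in atTop, Real.log x ≤ (η * ε / 24) * x := by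
      have := (Real.isLittleO_log_id_atTop).bound (show 0 < η * ε / 24 by positivity)
      filter_upwards [this, eventually_ge_atTop 1] with x hx hx1
      rw [Real.norm_of_nonneg (Real.log_nonneg hx1), id, Real.norm_of_nonneg (by linarith)] at hx
      exact hx
    filter_upwards [h1, (tendsto_natCast_atTop_atTop (R := ℝ)).eventually h2, eventually_ge_atTop 1] with H h3 h4 h5
    refine ⟨?_, h5⟩
    have hH0 : (0 : ℝ) < H := by exact_mod_cast h5
    have hK0 : (0 : ℝ) < K := by exact_mod_cast hK1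
    push_cast
    rw [Real.log_mul hK0.ne' hH0.ne']
    linarith
  obtain ⟨H₀, hH₀⟩ := eventually_atTop.1 hev
  refine ⟨H₀, fun H hH => ?_⟩
  obtain ⟨h1, h2⟩ := hH₀ H hH
  have hm := Sd_mean a a' ha' z H hza hz1 h2
  refine ⟨(Icc 1 H).filter (fun n : ℕ => ε < 6 * Sd (a + (n : ℕ) * a') z), ?_, ?_⟩
  · have h3 : (#((Icc 1 H).filter (fun n : ℕ => ε < 6 * Sd (a + (n : ℕ) * a') z)) : ℝ) * (ε / 6) ≤
        ∑ n ∈ Icc 1 H, Sd (a + (n : ℕ) * a') z := by
      calc _ = ∑ n ∈ (Icc 1 H).filter (fun n : ℕ => ε < 6 * Sd (a + (n : ℕ) * a') z), (ε / 6) := by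
            rw [sum_const, nsmul_eq_mul]
        _ ≤ ∑ n ∈ (Icc 1 H).filter (fun n : ℕ => ε < 6 * Sd (a + (n : ℕ) * a') z), Sd (a + (n : ℕ) * a') z := by
            apply sum_le_sum
            intro n hn
            have := (mem_filter.1 hn).2
            linarith
        _ ≤ _ := by
            apply sum_le_sum_of_subset_of_nonneg (filter_subset _ _)
            intro n _ _
            unfold Sd
            exact sum_nonneg fun _ _ => by positivity
    have h4 : (H : ℝ) / z ≤ (η * ε / 12) * H := by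
      have : 1 / (z : ℝ) ≤ η * ε / 12 := by
        rw [div_le_iff₀ hz0]
        rw [div_le_iff₀ (by positivity)] at hzε
        linarith
      calc (H : ℝ) / z = (1 / z) * H := by ring
        _ ≤ _ := mul_le_mul_of_nonneg_right this (by positivity)
    have h5 : (#((Icc 1 H).filter (fun n : ℕ => ε < 6 * Sd (a + (n : ℕ) * a') z)) : ℝ) * (ε / 6) ≤ (η * H) * (ε / 6) := by
      have : (η * H) * (ε / 6) = (η * ε / 12) * H + (η * ε / 12) * H := by ring
      rw [this]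
      linarith
    exact le_of_mul_le_mul_right h5 (by positivity)
  · intro n hn hnE
    by_contra hcon
    push Not at hcon
    exact hnE (mem_filter.2 ⟨hn, hcon⟩)

end Pool.Agent.X56.PN
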