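import Pool.Agent.X56.PN.Main1
import Pool.Agent.X56.PN.Tail1

set_option autoImplicit false

/-!
Conjecture F on average over an arithmetic progression of triples.
-/

namespace Pool.Agent.X56.PN
open Finset Filter Topology
open Pool.Agent.W468.ConjF
open Pool.Agent.W218.HF (Wz Pz Wz_pos PS rough_low rough_euler count_low_real)

/-- common divisors of the two values divide the resultant -/
lemma dvd_res (a b c a₀ b₀ c₀ t d : ℤ) (h1 : d ∣ a * t ^ 2 + b * t + c) (h2 : d ∣ a₀ * t ^ 2 + b₀ * t + c₀) :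
    d ∣ Res a b c a₀ b₀ c₀ := by
  have e : Res a b c a₀ b₀ c₀ =
      (a * t ^ 2 + b * t + c) * (-(a * c₀ - a₀ * c) * a₀ + (a * b₀ - a₀ * b) * (a₀ * t + b₀)) +
      (a₀ * t ^ 2 + b₀ * t + c₀) * ((a * c₀ - a₀ * c) * a - (a * b₀ - a₀ * b) * (a * t + b)) := by
    unfold Res; ring
  rw [e]
  exact dvd_add (h1.mul_right _) (h2.mul_right _)

lemma disc_line (a b c a₀ b₀ c₀ n : ℤ) : (b₀ + n * b) ^ 2 - 4 * (a₀ + n * a) * (c₀ + n * c) =
    DD (b ^ 2 - 4 * a * c) (2 * b * b₀ - 4 * (a * c₀ + a₀ * c)) (b₀ ^ 2 - 4 * a₀ * c₀) n := by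
  unfold DD; ring

lemma disc_disc (a b c a₀ b₀ c₀ : ℤ) : (2 * b * b₀ - 4 * (a * c₀ + a₀ * c)) ^ 2 -
    4 * (b ^ 2 - 4 * a * c) * (b₀ ^ 2 - 4 * a₀ * c₀) = 16 * Res a b c a₀ b₀ c₀ := by
  unfold Res; ring

/-- a large prime value forces admissibility -/
lemma adm_of_big (a b c a₀ b₀ c₀ n : ℤ) (t : ℤ) (hR : Res a b c a₀ b₀ c₀ ≠ 0)
    (ha : 0 < a₀ + n * a) (v : ℕ) (hv : v.Prime)
    (hvt : (v : ℤ) = (a₀ + n * a) * t ^ 2 + (b₀ + n * b) * t + (c₀ + n * c)) (h2 : 2 < v)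
    (hbig : (Res a b c a₀ b₀ c₀).natAbs < v)
    (hsq : ¬ IsSquare ((b₀ + n * b) ^ 2 - 4 * (a₀ + n * a) * (c₀ + n * c))) :
    Admissible (a₀ + n * a) (b₀ + n * b) (c₀ + n * c) := by
  refine ⟨ha, ?_, ?_, hsq⟩
  · intro d h1 h2 h3
    have hdv : d ∣ (v : ℤ) := by
      rw [hvt]
      exact dvd_add (dvd_add (h1.mul_right _) (h2.mul_right _)) h3
    have hdv' : d.natAbs ∣ v := by
      have := Int.natAbs_dvd_natAbs.2 hdv
      rwa [Int.natAbs_natCast] at this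
    rcases (Nat.dvd_prime hv).1 hdv' with h4 | h4
    · exact Int.isUnit_iff_natAbs_eq.2 h4
    · exfalso
      have hP : d ∣ a * b₀ - a₀ * b := by
        have e : a * b₀ - a₀ * b = (b₀ + n * b) * a - (a₀ + n * a) * b := by ring
        rw [e]; exact dvd_sub (h2.mul_right _) (h1.mul_right _)
      have hQ : d ∣ a * c₀ - a₀ * c := by
        have e : a * c₀ - a₀ * c = (c₀ + n * c) * a - (a₀ + n * a) * c := by ring
        rw [e]; exact dvd_sub (h3.mul_right _) (h1.mul_right _)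
      have hdR : d ∣ Res a b c a₀ b₀ c₀ := by
        unfold Res
        apply dvd_sub
        · rw [sq]; exact hQ.mul_right _
        · exact hP.mul_right _
      have h5 : d.natAbs ∣ (Res a b c a₀ b₀ c₀).natAbs := Int.natAbs_dvd_natAbs.2 hdR
      have h6 := Nat.le_of_dvd (Int.natAbs_pos.2 hR) h5
      omega
  · rintro ⟨h3, h4⟩
    have h5 : (2 : ℤ) ∣ (v : ℤ) := by
      have e : (v : ℤ) = ((a₀ + n * a) + (b₀ + n * b)) * t + (c₀ + n * c) + (a₀ + n * a) * (t ^ 2 - t) := by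
        rw [hvt]; ring
      rw [e]
      refine dvd_add (dvd_add (Dvd.dvd.mul_right h3 _) h4) (Dvd.dvd.mul_left ?_ _)
      have h6 : t ^ 2 - t = t * (t - 1) := by ring
      rw [h6]
      rcases Int.even_or_odd t with ⟨k, hk⟩ | ⟨k, hk⟩
      · exact Dvd.dvd.mul_right ⟨k, by rw [hk]; ring⟩ _
      · exact Dvd.dvd.mul_left ⟨k, by rw [hk]; ring⟩ _
    have h7 : 2 ∣ v := by exact_mod_cast h5
    have h8 := (Nat.prime_dvd_prime_iff_eq Nat.prime_two hv).1 h7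
    omega

/-- the set of `t` -/
noncomputable def TT (a b c a₀ b₀ c₀ : ℤ) (t0 x : ℕ) : Finset ℕ :=
  (Icc 1 x).filter (fun t : ℕ => t0 < t ∧
    Nat.Coprime (a * (t : ℤ) ^ 2 + b * t + c).toNat (a₀ * (t : ℤ) ^ 2 + b₀ * t + c₀).natAbs)

lemma h_pos (a b c : ℤ) (ha : 1 ≤ a) (t : ℕ) (ht : b.natAbs + c.natAbs < t) : 1 ≤ a * (t : ℤ) ^ 2 + b * t + c := by
  have h1 : (b.natAbs : ℤ) + c.natAbs + 1 ≤ t := by exact_mod_cast ht
  have h2 : -(b.natAbs : ℤ) ≤ b := by rw [Int.natCast_natAbs]; exact neg_abs_le b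
  have h3 : -(c.natAbs : ℤ) ≤ c := by rw [Int.natCast_natAbs]; exact neg_abs_le c
  have h4 : (0 : ℤ) ≤ (t : ℤ) := by positivity
  have h5 : (0 : ℤ) ≤ (b.natAbs : ℤ) := by positivity
  have h6 : (0 : ℤ) ≤ (c.natAbs : ℤ) := by positivity
  have h7 : (t : ℤ) ^ 2 ≤ a * (t : ℤ) ^ 2 := le_mul_of_one_le_left (by positivity) ha
  have h8 : -(b.natAbs : ℤ) * t ≤ b * t := mul_le_mul_of_nonneg_right h2 h4
  have h9 : ((b.natAbs : ℤ) + c.natAbs + 1) * t ≤ t * t := mul_le_mul_of_nonneg_right h1 h4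
  have h10 : (c.natAbs : ℤ) * 1 ≤ c.natAbs * t := mul_le_mul_of_nonneg_left (by omega) h6
  nlinarith

/-- the good `t` have positive density -/
lemma TT_card (a b c a₀ b₀ c₀ : ℤ) (ha : 1 ≤ a) (hR : Res a b c a₀ b₀ c₀ ≠ 0)
    (hfix : ∀ p : ℕ, p.Prime → ∃ t : ℤ, ¬ ((p : ℤ) ∣ a * t ^ 2 + b * t + c ∧ (p : ℤ) ∣ a₀ * t ^ 2 + b₀ * t + c₀))
    (t0 : ℕ) (ht0 : b.natAbs + c.natAbs ≤ t0) :
    ∃ δ : ℝ, 0 < δ ∧ ∃ x₀ : ℕ, ∀ x : ℕ, x₀ ≤ x → δ * x ≤ (#(TT a b c a₀ b₀ c₀ t0 x) : ℝ) := by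
  classical
  set R := Res a b c a₀ b₀ c₀ with hRd
  set s := R.natAbs.primeFactors with hs
  have hpr : ∀ p ∈ s, p.Prime := fun p hp => Nat.prime_of_mem_primeFactors hp
  set M := ∏ p ∈ s, p with hM
  have hM0 : 0 < M := prod_pos fun p hp => (hpr p hp).pos
  set Qp : ℕ → ℕ → Prop := fun p r => ¬ ((p : ℤ) ∣ a * (r : ℤ) ^ 2 + b * r + c ∧ (p : ℤ) ∣ a₀ * (r : ℤ) ^ 2 + b₀ * r + c₀) with hQp
  have hmod : ∀ p t : ℕ, Qp p (t % p) ↔ Qp p t := by
    intro p t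
    simp only [hQp]
    rw [Pool.Agent.W218.HF.dvd_mod_iff, Pool.Agent.W218.HF.dvd_mod_iff]
  have hper : Function.Periodic (fun t : ℕ => ∀ p ∈ s, Qp p t) M := by
    intro t
    simp only [eq_iff_iff]
    apply forall_congr'
    intro p
    apply forall_congr'
    intro hp
    rw [← hmod, ← hmod p t]
    have : (t + M) % p = t % p := by
      obtain ⟨k, hk⟩ := dvd_prod_of_mem (fun p => p) hp
      rw [hM, hk, Nat.add_mul_mod_self_left]
    rw [this]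
  have hcrt := Pool.Agent.H373R2.BH.crt_count s hpr Qp
  have hone : ∀ p ∈ s, 1 ≤ #((range p).filter (fun r => Qp p r)) := by
    intro p hp
    have hpp := hpr p hp
    obtain ⟨t, ht⟩ := hfix p hpp
    apply card_pos.2
    have hp0 : (0 : ℤ) < p := by exact_mod_cast hpp.pos
    have h0 := Int.emod_nonneg t hp0.ne'
    have h1 := Int.emod_lt_of_pos t hp0
    refine ⟨(t % (p : ℤ)).toNat, ?_⟩
    rw [mem_filter, mem_range]
    refine ⟨by omega, ?_⟩
    have hc : (((t % (p : ℤ)).toNat : ℕ) : ℤ) = t % (p : ℤ) := Int.toNat_of_nonneg h0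
    simp only [hQp]
    rw [hc]
    intro hcon
    apply ht
    have key : ∀ u v w : ℤ, (p : ℤ) ∣ u * (t % (p : ℤ)) ^ 2 + v * (t % (p : ℤ)) + w → (p : ℤ) ∣ u * t ^ 2 + v * t + w := by
      intro u v w h
      have e : t = p * (t / p) + t % p := (Int.mul_ediv_add_emod t p).symm
      set q := t / (p : ℤ) with hq
      set r := t % (p : ℤ) with hr
      have e2 : u * t ^ 2 + v * t + w = p * (u * (p * q ^ 2 + 2 * q * r) + v * q) + (u * r ^ 2 + v * r + w) := by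
        rw [e]; ring
      rw [e2]
      exact dvd_add (dvd_mul_right _ _) h
    exact ⟨key a b c hcon.1, key a₀ b₀ c₀ hcon.2⟩
  have hcard1 : 1 ≤ #((range M).filter (fun u => ∀ p ∈ s, Qp p u)) := by
    have h1 : (range M).filter (fun u => ∀ p ∈ s, Qp p u) = (range M).filter (fun r => ∀ p ∈ s, Qp p (r % p)) := by
      apply filter_congr
      intro u _
      simp only [hmod]
    rw [h1, hM, hcrt]
    apply Nat.succ_le_of_lt
    exact prod_pos fun p hp => hone p hp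
  have hMr : (1 : ℝ) ≤ M := by exact_mod_cast hM0
  refine ⟨1 / (4 * M), by positivity, 4 * M * (t0 + 1), fun x hx => ?_⟩
  have hlow := count_low_real M hM0 (fun t : ℕ => ∀ p ∈ s, Qp p t) hper x
  have hsub : (Icc 1 x).filter (fun t : ℕ => ∀ p ∈ s, Qp p t) ⊆ TT a b c a₀ b₀ c₀ t0 x ∪ Icc 1 t0 := by
    intro t ht
    rw [mem_filter] at ht
    rw [mem_union]
    by_cases h : t ≤ t0
    · exact Or.inr (mem_Icc.2 ⟨(mem_Icc.1 ht.1).1, h⟩)
    · left
      rw [TT, mem_filter]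
      refine ⟨ht.1, by omega, ?_⟩
      by_contra hcop
      obtain ⟨p, hpp, h3, h4⟩ := Nat.Prime.not_coprime_iff_dvd.1 hcop
      have hpos := h_pos a b c ha t (by omega)
      have h5 : (p : ℤ) ∣ a * (t : ℤ) ^ 2 + b * t + c := by
        have : (((a * (t : ℤ) ^ 2 + b * t + c).toNat : ℕ) : ℤ) = a * (t : ℤ) ^ 2 + b * t + c := Int.toNat_of_nonneg (by omega)
        rw [← this]; exact_mod_cast h3
      have h6 : (p : ℤ) ∣ a₀ * (t : ℤ) ^ 2 + b₀ * t + c₀ := Int.natCast_dvd.2 h4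
      have h7 := dvd_res a b c a₀ b₀ c₀ t p h5 h6
      have h8 : p ∈ s := by
        rw [hs, Nat.mem_primeFactors]
        exact ⟨hpp, Int.natCast_dvd.1 h7, (Int.natAbs_pos.2 hR).ne'⟩
      exact ht.2 p h8 ⟨h5, h6⟩
  have h1 : (#((Icc 1 x).filter (fun t : ℕ => ∀ p ∈ s, Qp p t)) : ℝ) ≤ #(TT a b c a₀ b₀ c₀ t0 x) + t0 := by
    have := (card_le_card hsub).trans (card_union_le _ _)
    rw [Nat.card_Icc, Nat.add_sub_cancel] at this
    exact_mod_cast this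
  have hxr : 4 * (M : ℝ) * (t0 + 1) ≤ x := by exact_mod_cast hx
  have ht0r : (0 : ℝ) ≤ t0 := by positivity
  have h2 : ((x : ℝ) - M) * (1 / M) ≤ ((x : ℝ) - M) * ((#((range M).filter (fun u => ∀ p ∈ s, Qp p u)) : ℝ) / M) := by
    apply mul_le_mul_of_nonneg_left
    · apply div_le_div_of_nonneg_right _ (by positivity)
      exact_mod_cast hcard1
    · have : (M : ℝ) * 1 ≤ M * (t0 + 1) := mul_le_mul_of_nonneg_left (by linarith) (by positivity)
      linarith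
  have h3 : 1 / (4 * (M : ℝ)) * x ≤ ((x : ℝ) - M) * (1 / M) - t0 := by
    have e : ((x : ℝ) - M) * (1 / M) - t0 = (x - M * (t0 + 1)) / M := by field_simp; ring
    rw [e, one_div_mul_eq_div, div_le_div_iff₀ (by positivity) (by positivity)]
    have h4 : (x : ℝ) ≤ (x - M * (t0 + 1)) * 4 := by linarith
    calc (x : ℝ) * M ≤ ((x - M * (t0 + 1)) * 4) * M := mul_le_mul_of_nonneg_right h4 (by positivity)
      _ = _ := by ring
  linarith

end Pool.Agent.X56.PN
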