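import Pool.Agent.X56.PN.Sec
import Pool.Agent.W218.HF.Count

set_option autoImplicit false

/-! The main counting theorem on a line of quadratics. -/

open Finset Filter Topology

namespace Pool.Agent.X56.PN

open Pool.Agent.Erdos456 Pool.Agent.Erdos456.Mert
open Pool.Agent.W218.HF (Wz Pz Wz_pos sieve_avg)

/-- the elements `t ∈ T` for which `n H t + G t` has no prime factor `≤ z` -/
noncomputable def unsL (z n : ℕ) (H : ℕ → ℕ) (G : ℕ → ℤ) (T : Finset ℕ) : ℕ :=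
  (T.filter (fun t : ℕ => ∀ p ≤ z, p.Prime → ¬ ((p : ℤ) ∣ (n : ℤ) * H t + G t))).card

/-- the number of `t ∈ T` for which `n H t + G t` is prime -/
noncomputable def numL (n : ℕ) (H : ℕ → ℕ) (G : ℕ → ℤ) (T : Finset ℕ) : ℕ :=
  (T.filter (fun t : ℕ => ((n : ℤ) * H t + G t).toNat.Prime)).card

theorem main1L (a : ℕ) (ha : 1 ≤ a) (b c a₀ b₀ c₀ : ℤ) (hRes : Res a b c a₀ b₀ c₀ ≠ 0) :
    ∀ δ : ℝ, 0 < δ → ∀ θ : ℝ, θ < 1 → ∃ η : ℝ, 0 < η ∧ ∀ z : ℕ, ∃ N0 : ℕ,
    ∀ N : ℕ, N0 ≤ N → ∀ (x : ℕ) (T : Finset ℕ) (H : ℕ → ℕ) (G : ℕ → ℤ),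
    Real.log N ≤ x → x ^ 11 ≤ N → T ⊆ Icc 1 x →
    (∀ t ∈ T, 1 ≤ H t ∧ (H t : ℤ) = (a : ℤ) * t ^ 2 + b * t + c ∧ G t = a₀ * t ^ 2 + b₀ * t + c₀ ∧
      Nat.Coprime (H t) (G t).natAbs) → δ * x ≤ T.card →
    η * N ≤ ((((Icc 1 N).filter (fun n : ℕ =>
      θ * (unsL z n H G T / Wz z) / Real.log (N * x ^ 2) ≤ numL n H G T ∧
      η * x / Real.log N ≤ numL n H G T)).card : ℕ) : ℝ) := by
  classical
  intro δ hδ θ hθ
  obtain ⟨C₂, hC₂, x₀, hsecond⟩ := secondL a ha b c a₀ b₀ c₀ hRes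
  set θ₀ : ℝ := max θ 0 with hθ₀
  have hθ0 : 0 ≤ θ₀ := le_max_right _ _
  have hθ1 : θ₀ < 1 := max_lt hθ one_pos
  have hθθ : θ ≤ θ₀ := le_max_left _ _
  set κ : ℝ := 1 - θ₀ with hκ
  have hκ0 : 0 < κ := by rw [hκ]; linarith
  have hκ1 : κ ≤ 1 := by rw [hκ]; linarith
  set η₀ : ℝ := κ / 100 with hη₀
  have hη0 : 0 < η₀ := by positivity
  have hη20 : η₀ ≤ 1 / 100 := by rw [hη₀]; linarith
  obtain ⟨J, N₁, hfirst⟩ := firstT a ha b c a₀ b₀ c₀ η₀ hη0 hη20 δ hδ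
  set η₁ : ℝ := δ * κ / 8 with hη₁
  have hη10 : 0 < η₁ := by positivity
  refine ⟨min η₁ (9 / 256 * κ ^ 2 * δ ^ 2 / C₂), by positivity, ?_⟩
  set ηf : ℝ := min η₁ (9 / 256 * κ ^ 2 * δ ^ 2 / C₂) with hηf
  set A₀ : ℝ := (a₀.natAbs : ℝ) + b₀.natAbs + c₀.natAbs with hA₀
  intro z
  obtain ⟨N₂, hN₂⟩ := ev_ft 1 x₀ 1 1 ((2 * A₀ + 1) / η₀ + 8 * Pz z / κ)
  refine ⟨max (max N₁ 4) N₂, ?_⟩
  intro N hN x T H G hlog hx11 hT hTc hTcard
  have hN1 : N₁ ≤ N := (le_max_left _ _).trans ((le_max_left _ _).trans hN)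
  have hN4 : 4 ≤ N := (le_max_right _ _).trans ((le_max_left _ _).trans hN)
  obtain ⟨hlN, hlx₀, -, -, hbig, -⟩ := hN₂ N ((le_max_right _ _).trans hN)
  have hNr : (4 : ℝ) ≤ N := by exact_mod_cast hN4
  have hN0 : (0 : ℝ) < N := by linarith
  have hA₀0 : 0 ≤ A₀ := by positivity
  have hPz0 : 0 ≤ 8 * (Pz z : ℝ) / κ := by positivity
  have hNP : 8 * (Pz z : ℝ) / κ ≤ N := by
    have : 0 ≤ (2 * A₀ + 1) / η₀ := by positivity
    linarith
  have hNA : 2 * A₀ + 1 ≤ η₀ * N := by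
    have : (2 * A₀ + 1) / η₀ ≤ N := by linarith
    rw [div_le_iff₀ hη0] at this
    linarith
  have hx1r : (1 : ℝ) ≤ x := hlN.trans hlog
  have hx0 : 0 < (x : ℝ) := by linarith
  have hx1 : 1 ≤ x := by exact_mod_cast hx1r
  have hxx₀ : x₀ ≤ x := by
    have : (x₀ : ℝ) ≤ x := hlx₀.trans hlog
    exact_mod_cast this
  have hx11r : (x : ℝ) ^ 11 ≤ N := by exact_mod_cast hx11
  have hx2N : (x : ℝ) ^ 2 ≤ N := (pow_le_pow_right₀ hx1r (by norm_num)).trans hx11r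
  set L : ℝ := Real.log (N * x ^ 2) with hL
  have hL1 : Real.log N ≤ L := by
    apply Real.log_le_log hN0
    exact le_mul_of_one_le_right hN0.le (one_le_pow₀ hx1r)
  have hL2 : L ≤ 2 * Real.log N := by
    rw [hL, Real.log_mul hN0.ne' (by positivity)]
    have := Real.log_le_log (by positivity) hx2N
    linarith
  have hL0 : 0 < L := by linarith
  obtain ⟨hJx, hF⟩ := hfirst N hN1 x T H G hlog hx11 hT hTc hTcard
  set n0 : ℕ := ⌊η₀ * N⌋₊ with hn0
  set T' : Finset ℕ := T.filter (fun t : ℕ => (1 - η₀) ^ J * (x : ℝ) < t) with hT'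
  set m : ℝ := ∑ t ∈ T, GG (H t) with hm
  have hn0le : (n0 : ℝ) ≤ η₀ * N := Nat.floor_le (by positivity)
  have hn0lt : η₀ * N < n0 + 1 := Nat.lt_floor_add_one _
  have hn02 : 2 * n0 ≤ N := by
    have h1 : η₀ * N ≤ (1 / 100) * N := mul_le_mul_of_nonneg_right hη20 hN0.le
    have : (2 : ℝ) * n0 ≤ N := by linarith
    exact_mod_cast this
  have hT'sub : T' ⊆ T := filter_subset _ _
  have hT'big : ∀ t ∈ T', (((b.natAbs : ℝ) + c.natAbs) + 1) / η₀ ≤ t := by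
    intro t ht
    exact hJx.trans (mem_filter.1 ht).2.le
  have hT'b : ∀ t ∈ T', b.natAbs + 1 ≤ t := by
    intro t ht
    have h1 := hT'big t ht
    rw [div_le_iff₀ hη0] at h1
    have h2 : (t : ℝ) * η₀ ≤ t * 1 := by
      apply mul_le_mul_of_nonneg_left _ (by positivity)
      linarith
    have h3 : ((b.natAbs + 1 : ℕ) : ℝ) ≤ t := by
      push_cast
      have : (0 : ℝ) ≤ c.natAbs := by positivity
      linarith
    exact_mod_cast h3
  -- second moment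
  have hS := hsecond N n0 x T' H G hxx₀ hN4 hn02 hlog (hT'sub.trans hT) (by
    intro t ht
    obtain ⟨b1, b2, b3, b4⟩ := hTc t (hT'sub ht)
    refine ⟨b1, b2, b3, b4, ?_⟩
    have htI := mem_Icc.1 (hT (hT'sub ht))
    have ht1r : (1 : ℝ) ≤ t := by exact_mod_cast htI.1
    have hbb : ((b.natAbs : ℝ) + c.natAbs) / η₀ ≤ t := by
      refine le_trans ?_ (hT'big t ht)
      apply div_le_div_of_nonneg_right _ hη0.le
      linarith
    obtain ⟨q1, -⟩ := quad_size a ha b c η₀ hη0 t htI.1 hbb (H t) b2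
    have e : (G t : ℝ) = a₀ * t ^ 2 + b₀ * t + c₀ := by exact_mod_cast b3
    have ea : |(a₀ : ℝ)| = a₀.natAbs := by rw [Nat.cast_natAbs]; push_cast; rfl
    have eb : |(b₀ : ℝ)| = b₀.natAbs := by rw [Nat.cast_natAbs]; push_cast; rfl
    have ec : |(c₀ : ℝ)| = c₀.natAbs := by rw [Nat.cast_natAbs]; push_cast; rfl
    have h3 : |(G t : ℝ)| ≤ A₀ * t ^ 2 := by
      rw [e]
      calc |(a₀ : ℝ) * t ^ 2 + b₀ * t + c₀| ≤ |(a₀ : ℝ) * t ^ 2| + |(b₀ : ℝ) * t| + |(c₀ : ℝ)| :=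
            abs_add_three _ _ _
        _ = |(a₀ : ℝ)| * t ^ 2 + |(b₀ : ℝ)| * t + |(c₀ : ℝ)| := by
            rw [abs_mul, abs_mul, abs_pow, Nat.abs_cast]
        _ ≤ |(a₀ : ℝ)| * t ^ 2 + |(b₀ : ℝ)| * t ^ 2 + |(c₀ : ℝ)| * t ^ 2 := by
            have i1 : (t : ℝ) ≤ t ^ 2 := le_self_pow₀ ht1r (by norm_num)
            have i2 : (1 : ℝ) ≤ t ^ 2 := one_le_pow₀ ht1r
            have i3 := mul_le_mul_of_nonneg_left i1 (abs_nonneg (b₀ : ℝ))
            have i4 := mul_le_mul_of_nonneg_left i2 (abs_nonneg (c₀ : ℝ))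
            linarith
        _ = A₀ * t ^ 2 := by rw [hA₀, ← ea, ← eb, ← ec]; ring
    have har : (1 : ℝ) ≤ a := by exact_mod_cast ha
    have hHl : (1 / 2) * (t : ℝ) ^ 2 ≤ H t := by
      refine le_trans ?_ q1
      have i1 : (t : ℝ) ^ 2 ≤ a * (t : ℝ) ^ 2 := le_mul_of_one_le_left (by positivity) har
      calc (1 / 2) * (t : ℝ) ^ 2 ≤ (1 / 2) * (a * (t : ℝ) ^ 2) := by linarith
        _ ≤ (1 - η₀) * (a * (t : ℝ) ^ 2) := by
            apply mul_le_mul_of_nonneg_right _ (by positivity)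
            linarith
    have h4 : A₀ * t ^ 2 ≤ (H t : ℝ) * n0 := by
      have i1 : 2 * A₀ ≤ n0 := by linarith
      calc A₀ * t ^ 2 = ((1 / 2) * (t : ℝ) ^ 2) * (2 * A₀) := by ring
        _ ≤ (H t : ℝ) * n0 := mul_le_mul hHl i1 (by positivity) (by positivity)
    have h5 := (abs_le.1 h3).1
    have h6 : (0 : ℝ) ≤ (H t : ℝ) * n0 + G t := by linarith
    exact_mod_cast h6) (by
    intro t₁ h₁ t₂ h₂ heq
    have g1 := (hTc t₁ (hT'sub h₁)).2.1
    have g2 := (hTc t₂ (hT'sub h₂)).2.1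
    rw [heq] at g1
    have g3 : ((t₁ : ℤ) - t₂) * (a * ((t₁ : ℤ) + t₂) + b) = 0 := by
      have : (a : ℤ) * t₁ ^ 2 + b * t₁ + c = (a : ℤ) * t₂ ^ 2 + b * t₂ + c := by rw [← g1, ← g2]
      linear_combination this
    rcases mul_eq_zero.1 g3 with g4 | g4
    · have : (t₁ : ℤ) = t₂ := by linarith
      exact_mod_cast this
    · exfalso
      have i1 := hT'b t₁ h₁
      have i2 : (b.natAbs : ℤ) + 1 ≤ t₁ := by exact_mod_cast i1
      have i3 : -(b.natAbs : ℤ) ≤ b := by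
        rw [Int.natCast_natAbs]; exact neg_abs_le b
      have i4 : (1 : ℤ) ≤ a := by exact_mod_cast ha
      have i5 : (t₁ : ℤ) + t₂ ≤ a * ((t₁ : ℤ) + t₂) := le_mul_of_one_le_left (by positivity) i4
      have i6 : (0 : ℤ) ≤ t₂ := by positivity
      linarith)
  -- double counting
  set N' : ℕ → ℝ := fun n => ((((T'.filter (fun t : ℕ =>
    ((n : ℤ) * H t + G t).toNat.Prime)).card : ℕ)) : ℝ) with hN'
  have hN'0 : ∀ n, 0 ≤ N' n := fun n => Nat.cast_nonneg _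
  have hswap : ∑ t ∈ T', cn (H t) (G t) n0 N = ∑ n ∈ Ioc n0 N, N' n := by
    simp only [cn, hN', card_filter]
    push_cast
    rw [sum_comm]
  rw [hswap] at hF
  have hN'le : ∀ n, N' n ≤ numL n H G T := by
    intro n
    simp only [hN', numL]
    have : (T'.filter (fun t : ℕ => ((n : ℤ) * H t + G t).toNat.Prime)).card ≤
        (T.filter (fun t : ℕ => ((n : ℤ) * H t + G t).toNat.Prime)).card :=
      card_le_card (filter_subset_filter _ hT'sub)
    exact_mod_cast this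
  -- sieve average
  have hRr : ∑ n ∈ Icc 1 N, (unsL z n H G T : ℝ) / Wz z ≤ (N + Pz z) * m := by
    have h1 : ∑ n ∈ Icc 1 N, (unsL z n H G T : ℝ) / Wz z =
        ∑ t ∈ T, ((((Icc 1 N).filter (fun n : ℕ => ∀ p ≤ z, p.Prime →
          ¬ ((p : ℤ) ∣ (n : ℤ) * H t + G t))).card : ℕ) : ℝ) / Wz z := by
      rw [← sum_div, ← sum_div]
      congr 1
      simp only [unsL, card_filter]
      push_cast
      rw [sum_comm]
    rw [h1, hm, mul_sum]
    apply sum_le_sum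
    intro t ht
    have h2 := sieve_avg 0 (H t) N z (G t) (by have := (hTc t ht).1; omega)
    have e : (Icc 1 N).filter (fun b : ℕ => ∀ p ≤ z, p.Prime →
        ¬ ((p : ℤ) ∣ ((0 : ℕ) : ℤ) * (H t : ℤ) ^ 2 + b * (H t : ℤ) + G t)) =
        (Icc 1 N).filter (fun n : ℕ => ∀ p ≤ z, p.Prime → ¬ ((p : ℤ) ∣ (n : ℤ) * H t + G t)) := by
      apply filter_congr
      intro n _
      simp
    rw [e] at h2
    exact h2
  have hmcard : δ * x ≤ m := by
    refine hTcard.trans ?_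
    rw [hm, card_eq_sum_ones]
    push_cast
    apply sum_le_sum
    intro t ht
    exact one_le_GG (hTc t ht).1
  have hm0 : 0 < m := lt_of_lt_of_le (by positivity) hmcard
  set S := (Icc 1 N).filter (fun n : ℕ =>
      θ * (unsL z n H G T / Wz z) / L ≤ numL n H G T ∧
      ηf * x / Real.log N ≤ numL n H G T) with hSdef
  have hWz := Wz_pos z
  -- the bad n
  have hbad : ∑ n ∈ (Ioc n0 N).filter (fun n => n ∉ S), N' n ≤
      θ₀ * ((N + Pz z) * m) / L + N * (2 * η₁ * x / L) := by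
    have h1 : ∀ n ∈ (Ioc n0 N).filter (fun n => n ∉ S), N' n ≤
        θ₀ * ((unsL z n H G T : ℝ) / Wz z) / L + 2 * η₁ * x / L := by
      intro n hn
      rw [mem_filter, mem_Ioc] at hn
      have hn1 : n ∈ Icc 1 N := mem_Icc.2 ⟨by omega, hn.1.2⟩
      have h2 : ¬ (θ * (unsL z n H G T / Wz z) / L ≤ numL n H G T ∧
          ηf * x / Real.log N ≤ numL n H G T) := by
        intro h
        exact hn.2 (by rw [hSdef, mem_filter]; exact ⟨hn1, h⟩)
      have hR0 : 0 ≤ (unsL z n H G T : ℝ) / Wz z := by positivity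
      have h3 : 0 ≤ θ₀ * ((unsL z n H G T : ℝ) / Wz z) / L := by positivity
      have h4 : 0 ≤ 2 * η₁ * x / L := by positivity
      refine (hN'le n).trans ?_
      rw [not_and_or, not_le, not_le] at h2
      rcases h2 with h2 | h2
      · have h5 : θ * ((unsL z n H G T : ℝ) / Wz z) / L ≤
            θ₀ * ((unsL z n H G T : ℝ) / Wz z) / L := by gcongr
        linarith
      · have h5 : ηf * x / Real.log N ≤ 2 * η₁ * x / L := by
          rw [div_le_div_iff₀ (by linarith) hL0]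
          have h6 : ηf ≤ η₁ := min_le_left _ _
          calc ηf * x * L ≤ η₁ * x * (2 * Real.log N) := by gcongr
            _ = _ := by ring
        linarith
    refine (sum_le_sum h1).trans ?_
    rw [sum_add_distrib]
    have hsub : (Ioc n0 N).filter (fun n => n ∉ S) ⊆ Icc 1 N := by
      intro n hn
      rw [mem_filter, mem_Ioc] at hn
      exact mem_Icc.2 ⟨by omega, hn.1.2⟩
    apply add_le_add
    · calc _ ≤ ∑ n ∈ Icc 1 N, θ₀ * ((unsL z n H G T : ℝ) / Wz z) / L := by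
            apply sum_le_sum_of_subset_of_nonneg hsub
            intro n _ _; positivity
        _ = θ₀ * (∑ n ∈ Icc 1 N, (unsL z n H G T : ℝ) / Wz z) / L := by
            rw [← sum_div, ← mul_sum]
        _ ≤ _ := by gcongr
    · rw [sum_const, nsmul_eq_mul]
      have h2 : (((Ioc n0 N).filter (fun n => n ∉ S)).card : ℝ) ≤ N := by
        have := card_le_card hsub
        rw [Nat.card_Icc, Nat.add_sub_cancel] at this
        exact_mod_cast this
      gcongr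
  have hPz : (Pz z : ℝ) ≤ κ / 8 * N := by
    rw [div_le_iff₀ hκ0] at hNP
    linarith
  set Q : ℝ := N * m / L with hQ
  have hQ0 : 0 < Q := by positivity
  have hbad2 : θ₀ * ((N + Pz z) * m) / L + N * (2 * η₁ * x / L) ≤ (θ₀ + 3 * κ / 8) * Q := by
    have h1 : θ₀ * ((N + Pz z) * m) / L ≤ (θ₀ + κ / 8) * Q := by
      have h2 : θ₀ * ((N + Pz z) * m) ≤ (θ₀ + κ / 8) * (N * m) := by
        have h3 : θ₀ * (N + Pz z) ≤ (θ₀ + κ / 8) * N := by
          have h4 : θ₀ * (Pz z : ℝ) ≤ 1 * (κ / 8 * N) :=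
            mul_le_mul hθ1.le hPz (by positivity) (by norm_num)
          linarith
        have := mul_le_mul_of_nonneg_right h3 hm0.le
        linarith
      rw [hQ, div_le_iff₀ hL0]
      have e : (θ₀ + κ / 8) * (N * m / L) * L = (θ₀ + κ / 8) * (N * m) := by field_simp
      rw [e]; exact h2
    have h2 : N * (2 * η₁ * x / L) ≤ κ / 4 * Q := by
      rw [hQ, hη₁]
      have h3 : N * (2 * (δ * κ / 8) * x / L) = κ / 4 * (N * (δ * x) / L) := by ring
      rw [h3]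
      gcongr
    linarith
  have hgood : (3 * κ / 8) * Q ≤ ∑ n ∈ (Ioc n0 N).filter (fun n => n ∈ S), N' n := by
    have h1 := sum_filter_add_sum_filter_not (Ioc n0 N) (fun n => n ∈ S) N'
    have h2 : (1 - κ / 4) * Q ≤ (1 - 20 * η₀) * (N / L) * m := by
      have e : (1 - 20 * η₀) * (N / L) * m = (1 - κ / 5) * Q := by
        rw [hQ, hη₀]; ring
      rw [e]
      apply mul_le_mul_of_nonneg_right _ hQ0.le
      linarith
    have h3 : θ₀ = 1 - κ := by rw [hκ]; ring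
    have h4 : (1 - κ / 4) * Q - (θ₀ + 3 * κ / 8) * Q = (3 * κ / 8) * Q := by rw [h3]; ring
    linarith
  -- Cauchy-Schwarz
  have hCS : (∑ n ∈ (Ioc n0 N).filter (fun n => n ∈ S), N' n) ^ 2 ≤
      (S.card : ℝ) * (C₂ * (x ^ 2 * (N / Real.log N ^ 2))) := by
    have h1 := sum_mul_sq_le_sq_mul_sq ((Ioc n0 N).filter (fun n => n ∈ S)) (fun _ => (1 : ℝ)) N'
    simp only [one_mul, one_pow, sum_const, nsmul_eq_mul, mul_one] at h1
    refine h1.trans ?_
    apply mul_le_mul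
    · have : ((Ioc n0 N).filter (fun n => n ∈ S)).card ≤ S.card := by
        apply card_le_card
        intro n hn
        exact (mem_filter.1 hn).2
      exact_mod_cast this
    · refine le_trans ?_ hS
      exact sum_le_sum_of_subset_of_nonneg (filter_subset _ _) fun n _ _ => by positivity
    · exact sum_nonneg fun n _ => by positivity
    · positivity
  have hfin : (3 * κ / 8 * Q) ^ 2 ≤ (S.card : ℝ) * (C₂ * (x ^ 2 * (N / Real.log N ^ 2))) := by
    refine le_trans ?_ hCS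
    exact pow_le_pow_left₀ (by positivity) hgood 2
  have hQlow : N * (δ * x) / (2 * Real.log N) ≤ Q := by
    rw [hQ]
    gcongr
  have hlN0 : 0 < Real.log N := by linarith
  have hfin2 : (3 * κ / 8 * (N * (δ * x) / (2 * Real.log N))) ^ 2 ≤
      (S.card : ℝ) * (C₂ * (x ^ 2 * (N / Real.log N ^ 2))) := by
    refine le_trans ?_ hfin
    gcongr
  have e1 : (3 * κ / 8 * (N * (δ * x) / (2 * Real.log N))) ^ 2 =
      (9 / 256 * κ ^ 2 * δ ^ 2 * N) * (x ^ 2 * (N / Real.log N ^ 2)) := by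
    field_simp
    ring
  rw [e1] at hfin2
  have hpos : 0 < (x : ℝ) ^ 2 * (N / Real.log N ^ 2) := by positivity
  have hfin3 : 9 / 256 * κ ^ 2 * δ ^ 2 * N ≤ S.card * C₂ := by
    have h1 : (S.card : ℝ) * (C₂ * (x ^ 2 * (N / Real.log N ^ 2))) =
        (S.card * C₂) * (x ^ 2 * (N / Real.log N ^ 2)) := by ring
    rw [h1] at hfin2
    exact le_of_mul_le_mul_right hfin2 hpos
  have hfin4 : 9 / 256 * κ ^ 2 * δ ^ 2 / C₂ * N ≤ S.card := by
    have e2 : 9 / 256 * κ ^ 2 * δ ^ 2 / C₂ * N = (9 / 256 * κ ^ 2 * δ ^ 2 * N) / C₂ := by ring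
    rw [e2, div_le_iff₀ hC₂]
    exact hfin3
  have hfin5 : ηf * N ≤ 9 / 256 * κ ^ 2 * δ ^ 2 / C₂ * N := by
    gcongr
    exact min_le_right _ _
  exact hfin5.trans hfin4

end Pool.Agent.X56.PN
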