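import Pool.Agent.X56.PN.FTot

set_option autoImplicit false

/-!
The second moment over a line of quadratics.
-/

open Finset Filter Topology

namespace Pool.Agent.X56.PN

open Pool.Agent.Erdos456 Pool.Agent.Erdos456.Mert Pool.Agent.W218.HF

/-- the resultant of the two quadratics -/
def Res (a b c a₀ b₀ c₀ : ℤ) : ℤ := (a * c₀ - a₀ * c) ^ 2 - (a * b₀ - a₀ * b) * (b * c₀ - b₀ * c)

/-- the second factor of the determinant -/
def Rr (a b c a₀ b₀ c₀ s t : ℤ) : ℤ :=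
  ((a * b₀ - a₀ * b) * s + (a * c₀ - a₀ * c)) * t + ((a * c₀ - a₀ * c) * s + (b * c₀ - b₀ * c))

lemma det_eq (a b c a₀ b₀ c₀ s t : ℤ) :
    (a * s ^ 2 + b * s + c) * (a₀ * t ^ 2 + b₀ * t + c₀) - (a * t ^ 2 + b * t + c) * (a₀ * s ^ 2 + b₀ * s + c₀) =
      (s - t) * Rr a b c a₀ b₀ c₀ s t := by
  unfold Rr; ring

/-- the sixth moment of the second factor -/
theorem momR (a b c a₀ b₀ c₀ : ℤ) (hR : Res a b c a₀ b₀ c₀ ≠ 0) : ∃ C : ℝ, 0 < C ∧ ∃ x₀ : ℕ, ∀ x : ℕ, x₀ ≤ x → ∀ s ∈ Icc 1 x,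
    ∑ t ∈ Icc 1 x, GG (Rr a b c a₀ b₀ c₀ s t).natAbs ^ 6 ≤ C * x := by
  obtain ⟨C₂, hC₂, hmom⟩ := mom
  set P : ℤ := a * b₀ - a₀ * b with hP
  set Q : ℤ := a * c₀ - a₀ * c with hQ
  set S : ℤ := b * c₀ - b₀ * c with hS
  set R : ℤ := Res a b c a₀ b₀ c₀ with hRd
  have hRe : R = Q ^ 2 - P * S := by rw [hRd, Res]
  have hRn : 0 < R.natAbs := Int.natAbs_pos.2 hR
  set g : ℝ := GG R.natAbs with hg
  have hg1 : 1 ≤ g := one_le_GG hRn
  refine ⟨(1 + C₂) * g ^ 6, by positivity, P.natAbs + 2 * Q.natAbs + S.natAbs + 1, ?_⟩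
  intro x hx s hs
  rw [mem_Icc] at hs
  have hx1 : 1 ≤ x := by omega
  have hxr : (1 : ℝ) ≤ x := by exact_mod_cast hx1
  set α : ℤ := P * s + Q with hα
  set β : ℤ := Q * s + S with hβ
  have hRr : ∀ t : ℕ, Rr a b c a₀ b₀ c₀ s t = α * t + β := fun t => by rw [Rr, hα, hβ]
  have hcomb : Q * α - P * β = R := by rw [hRe, hα, hβ]; ring
  simp_rw [hRr]
  by_cases hα0 : α = 0
  · have hβR : β ∣ R := by
      rw [← hcomb, hα0]
      exact ⟨-P, by ring⟩
    have hβn : β.natAbs ∣ R.natAbs := Int.natAbs_dvd_natAbs.2 hβR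
    have h1 : GG β.natAbs ≤ g := GG_mono_dvd hRn hβn
    have h2 : ∀ t ∈ Icc 1 x, GG (α * (t : ℤ) + β).natAbs ^ 6 ≤ g ^ 6 := by
      intro t _
      rw [hα0, zero_mul, zero_add]
      exact pow_le_pow_left₀ (GG_nonneg _) h1 6
    refine (sum_le_sum h2).trans ?_
    rw [sum_const, nsmul_eq_mul, Nat.card_Icc, Nat.add_sub_cancel]
    have : 0 ≤ C₂ * g ^ 6 * x := by positivity
    calc (x : ℝ) * g ^ 6 ≤ x * g ^ 6 + C₂ * g ^ 6 * x := by linarith
      _ = _ := by ring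
  · have hαn : 0 < α.natAbs := Int.natAbs_pos.2 hα0
    set β' : ℤ := if 0 < α then -β else β with hβ'
    have hnat : ∀ t : ℕ, (α * (t : ℤ) + β).natAbs = ((α.natAbs : ℤ) * t - β').natAbs := by
      intro t
      rw [hβ']
      split_ifs with h
      · have : (α.natAbs : ℤ) = α := Int.natAbs_of_nonneg h.le
        rw [this]; congr 1; ring
      · have h0 : α < 0 := by omega
        have : (α.natAbs : ℤ) = -α := by
          rw [← Int.natAbs_neg]; exact Int.natAbs_of_nonneg (by omega)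
        rw [this, ← Int.natAbs_neg]; congr 1; ring
    have hβn : β'.natAbs = β.natAbs := by
      rw [hβ']; split_ifs
      · exact Int.natAbs_neg β
      · rfl
    -- size
    have hsz : ∀ t ∈ Icc 1 x, ((((α.natAbs : ℤ) * t - β').natAbs : ℕ) : ℝ) ≤ Real.exp (4 * x) := by
      intro t ht
      rw [mem_Icc] at ht
      rw [← hnat]
      have h1 : (α * (t : ℤ) + β).natAbs ≤ x ^ 3 := by
        have a1 : (α * (t : ℤ) + β).natAbs ≤ α.natAbs * t + β.natAbs := by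
          refine (Int.natAbs_add_le _ _).trans ?_
          rw [Int.natAbs_mul, Int.natAbs_natCast]
        have a2 : α.natAbs ≤ P.natAbs * s + Q.natAbs := by
          refine (Int.natAbs_add_le _ _).trans ?_
          rw [Int.natAbs_mul, Int.natAbs_natCast]
        have a3 : β.natAbs ≤ Q.natAbs * s + S.natAbs := by
          refine (Int.natAbs_add_le _ _).trans ?_
          rw [Int.natAbs_mul, Int.natAbs_natCast]
        calc (α * (t : ℤ) + β).natAbs ≤ α.natAbs * t + β.natAbs := a1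
          _ ≤ (P.natAbs * x + Q.natAbs * x) * x + (Q.natAbs * x + S.natAbs * x) * x := by
              have b1 : P.natAbs * s ≤ P.natAbs * x := Nat.mul_le_mul_left _ hs.2
              have b2 : Q.natAbs ≤ Q.natAbs * x := Nat.le_mul_of_pos_right _ hx1
              have b3 : Q.natAbs * s ≤ Q.natAbs * x := Nat.mul_le_mul_left _ hs.2
              have b4 : S.natAbs ≤ S.natAbs * x := Nat.le_mul_of_pos_right _ hx1
              have b5 : α.natAbs * t ≤ (P.natAbs * x + Q.natAbs * x) * x := Nat.mul_le_mul (by omega) ht.2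
              have b6 : β.natAbs ≤ (Q.natAbs * x + S.natAbs * x) * x :=
                (show β.natAbs ≤ Q.natAbs * x + S.natAbs * x by omega).trans (Nat.le_mul_of_pos_right _ hx1)
              omega
          _ = (P.natAbs + 2 * Q.natAbs + S.natAbs) * x ^ 2 := by ring
          _ ≤ x * x ^ 2 := Nat.mul_le_mul_right _ (by omega)
          _ = x ^ 3 := by ring
      have h2 : (((α * (t : ℤ) + β).natAbs : ℕ) : ℝ) ≤ (x : ℝ) ^ 3 := by exact_mod_cast h1
      have h3 : (x : ℝ) ≤ Real.exp x := by have := Real.add_one_le_exp (x : ℝ); linarith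
      calc _ ≤ (x : ℝ) ^ 3 := h2
        _ ≤ Real.exp x ^ 3 := pow_le_pow_left₀ (by positivity) h3 3
        _ = Real.exp (3 * x) := by rw [← Real.exp_nat_mul]; norm_num
        _ ≤ Real.exp (4 * x) := Real.exp_le_exp.2 (by linarith)
    have h1 := hmom x α.natAbs β' hx1 hαn hsz
    have hgcd : GG (Nat.gcd α.natAbs β'.natAbs) ≤ g := by
      apply GG_mono_dvd hRn
      rw [hβn]
      have h3 : ((Nat.gcd α.natAbs β.natAbs : ℕ) : ℤ) ∣ R := by
        rw [← hcomb]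
        apply dvd_sub
        · exact Dvd.dvd.mul_left (Int.natCast_dvd.2 (Nat.gcd_dvd_left _ _)) _
        · exact Dvd.dvd.mul_left (Int.natCast_dvd.2 (Nat.gcd_dvd_right _ _)) _
      exact Int.natCast_dvd.1 h3
    simp_rw [hnat]
    refine h1.trans ?_
    have hg0 := GG_nonneg (Nat.gcd α.natAbs β'.natAbs)
    calc C₂ * GG (Nat.gcd α.natAbs β'.natAbs) ^ 6 * x ≤ C₂ * g ^ 6 * x := by gcongr
      _ ≤ (1 + C₂) * g ^ 6 * x := by gcongr; linarith

theorem secondL (a : ℕ) (ha : 1 ≤ a) (b c a₀ b₀ c₀ : ℤ) (hR : Res a b c a₀ b₀ c₀ ≠ 0) : ∃ C : ℝ, 0 < C ∧ ∃ x₀ : ℕ,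
    ∀ (N n0 x : ℕ) (T : Finset ℕ) (H : ℕ → ℕ) (G : ℕ → ℤ), x₀ ≤ x →
    4 ≤ N → 2 * n0 ≤ N → Real.log N ≤ x → T ⊆ Icc 1 x →
    (∀ t ∈ T, 1 ≤ H t ∧ (H t : ℤ) = (a : ℤ) * t ^ 2 + b * t + c ∧ G t = a₀ * t ^ 2 + b₀ * t + c₀ ∧
      Nat.Coprime (H t) (G t).natAbs ∧ 0 ≤ (H t : ℤ) * n0 + G t) →
    (∀ t₁ ∈ T, ∀ t₂ ∈ T, H t₁ = H t₂ → t₁ = t₂) →
    ∑ n ∈ Ioc n0 N, ((((T.filter (fun t : ℕ => ((n : ℤ) * H t + G t).toNat.Prime)).card :
      ℕ)) : ℝ) ^ 2 ≤ C * (x ^ 2 * (N / Real.log N ^ 2)) := by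
  classical
  obtain ⟨C₁, hC₁, h6⟩ := momH a ha b c
  obtain ⟨C₂, hC₂, hmom⟩ := mom
  obtain ⟨C₃, hC₃, hsv⟩ := sieve_two'
  obtain ⟨C₄, hC₄, x₀, hmR⟩ := momR a b c a₀ b₀ c₀ hR
  refine ⟨40 * C₁ + C₃ * (C₁ ^ 2 + C₂ + C₄) * 4, by positivity, x₀, ?_⟩
  intro N n0 x T H G hxx₀ hN hn0 hlog hT hTc hinj
  have hNr : (4 : ℝ) ≤ N := by exact_mod_cast hN
  have hlN' : 0 < Real.log N := Real.log_pos (by linarith)
  have hx0 : 0 < (x : ℝ) := lt_of_lt_of_le hlN' hlog
  have hx1 : 1 ≤ x := by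
    have : 0 < x := by exact_mod_cast hx0
    omega
  set K := N - n0 with hK
  have hK2 : 2 ≤ K := by omega
  have hKN : (K : ℝ) ≤ N := by
    have : K ≤ N := by omega
    exact_mod_cast this
  have hKhalf : (N : ℝ) ≤ 2 * K := by
    have : N ≤ 2 * K := by omega
    exact_mod_cast this
  have hK0 : (0 : ℝ) < K := by linarith
  have hlK : Real.log N / 2 ≤ Real.log K := by
    have h1 : Real.log N ≤ Real.log ((K : ℝ) ^ 2) := by
      apply Real.log_le_log (by linarith)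
      nlinarith
    rw [Real.log_pow] at h1
    push_cast at h1
    linarith
  have hlK0 : 0 < Real.log K := by linarith
  have hKl : (K : ℝ) / Real.log K ≤ 2 * (N / Real.log N) := by
    rw [div_le_iff₀ hlK0]
    have : (2 : ℝ) * (N / Real.log N) * Real.log K = (N / Real.log N) * (2 * Real.log K) := by ring
    rw [this]
    have h2 : (N : ℝ) / Real.log N * (2 * Real.log K) ≥ (N / Real.log N) * Real.log N := by
      apply mul_le_mul_of_nonneg_left _ (by positivity)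
      linarith
    rw [div_mul_cancel₀ _ hlN'.ne'] at h2
    linarith
  have hKl2 : (K : ℝ) / Real.log K ^ 2 ≤ 4 * (N / Real.log N ^ 2) := by
    rw [div_le_iff₀ (by positivity)]
    have : (4 : ℝ) * (N / Real.log N ^ 2) * Real.log K ^ 2 =
      (N / Real.log N ^ 2) * (2 * Real.log K) ^ 2 := by ring
    rw [this]
    have h2 : (N : ℝ) / Real.log N ^ 2 * (2 * Real.log K) ^ 2 ≥
        (N / Real.log N ^ 2) * Real.log N ^ 2 := by
      apply mul_le_mul_of_nonneg_left _ (by positivity)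
      exact pow_le_pow_left₀ hlN'.le (by linarith) 2
    rw [div_mul_cancel₀ _ (by positivity)] at h2
    linarith
  -- the shifts
  set e : ℕ → ℕ := fun t => ((H t : ℤ) * n0 + G t).toNat with he
  have hee : ∀ t ∈ T, ((e t : ℕ) : ℤ) = (H t : ℤ) * n0 + G t := fun t ht =>
    Int.toNat_of_nonneg (hTc t ht).2.2.2.2
  have heq : ∀ t ∈ T, ∀ n : ℕ, (((n0 + n : ℕ) : ℤ) * H t + G t).toNat = H t * n + e t := by
    intro t ht n
    have h1 := hee t ht
    have h2 : ((n0 + n : ℕ) : ℤ) * H t + G t = ((H t * n + e t : ℕ) : ℤ) := by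
      push_cast
      rw [h1]; ring
    rw [h2, Int.toNat_natCast]
  have hsum : ∑ n ∈ Ioc n0 N, ((((T.filter (fun t : ℕ =>
      ((n : ℤ) * H t + G t).toNat.Prime)).card : ℕ)) : ℝ) ^ 2 =
      ∑ t₁ ∈ T, ∑ t₂ ∈ T, ((((Icc 1 K).filter (fun n =>
        (H t₁ * n + e t₁).Prime ∧ (H t₂ * n + e t₂).Prime)).card : ℕ) : ℝ) := by
    have h1 : Ioc n0 N = (Icc 1 K).image (fun n => n0 + n) := by
      ext b
      simp only [mem_Ioc, mem_image, mem_Icc]
      constructor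
      · intro h; exact ⟨b - n0, by omega, by omega⟩
      · rintro ⟨n, hn, rfl⟩; omega
    rw [h1, sum_image (fun n _ m _ h => by
      have h' : n0 + n = n0 + m := h
      omega)]
    have h2 : ∀ n ∈ Icc 1 K, ((((T.filter (fun t : ℕ =>
        (((n0 + n : ℕ) : ℤ) * H t + G t).toNat.Prime)).card : ℕ)) : ℝ) ^ 2 =
        ∑ t₁ ∈ T, ∑ t₂ ∈ T, (if (H t₁ * n + e t₁).Prime ∧ (H t₂ * n + e t₂).Prime then (1 : ℝ) else 0) := by
      intro n _
      have h3 : T.filter (fun t : ℕ => (((n0 + n : ℕ) : ℤ) * H t + G t).toNat.Prime) =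
          T.filter (fun t => (H t * n + e t).Prime) := by
        apply filter_congr
        intro t ht
        rw [heq t ht n]
      rw [h3, card_filter]
      push_cast
      rw [sq, sum_mul_sum]
      apply sum_congr rfl
      intro t₁ _
      apply sum_congr rfl
      intro t₂ _
      by_cases h4 : (H t₁ * n + e t₁).Prime <;> by_cases h5 : (H t₂ * n + e t₂).Prime <;> simp [h4, h5]
    rw [sum_congr rfl h2, sum_comm]
    apply sum_congr rfl
    intro t₁ _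
    rw [sum_comm]
    apply sum_congr rfl
    intro t₂ _
    rw [card_filter]
    push_cast
    rfl
  rw [hsum]
  set U : ℕ → ℕ → ℕ := fun s t => (((1 : ℕ) : ℤ) * t - (s : ℤ)).natAbs with hU
  set V : ℕ → ℕ → ℕ := fun s t => (Rr a b c a₀ b₀ c₀ s t).natAbs with hV
  have hNl : 0 ≤ (N : ℝ) / Real.log N ^ 2 := by positivity
  have hpair : ∀ t₁ ∈ T, ∀ t₂ ∈ T, ((((Icc 1 K).filter (fun n =>
        (H t₁ * n + e t₁).Prime ∧ (H t₂ * n + e t₂).Prime)).card : ℕ) : ℝ) ≤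
      (if t₁ = t₂ then 40 * GG (H t₁) ^ 6 * (N / Real.log N) else 0) +
      C₃ * ((GG (H t₁) ^ 6 * GG (H t₂) ^ 6) + GG (U t₁ t₂) ^ 6 +
        GG (V t₁ t₂) ^ 6) * (4 * (N / Real.log N ^ 2)) := by
    intro t₁ h₁ t₂ h₂
    have hp1 := hTc t₁ h₁
    have hp2 := hTc t₂ h₂
    have g1 := GG_nonneg (H t₁)
    have g2 := GG_nonneg (H t₂)
    have g3 := GG_nonneg (U t₁ t₂)
    have g4 := GG_nonneg (V t₁ t₂)
    have hoff0 : 0 ≤ C₃ * ((GG (H t₁) ^ 6 * GG (H t₂) ^ 6) + GG (U t₁ t₂) ^ 6 +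
        GG (V t₁ t₂) ^ 6) * (4 * (N / Real.log N ^ 2)) := by
      positivity
    by_cases h12 : t₁ = t₂
    · subst h12
      rw [if_pos rfl]
      have h3 := one_form (t := H t₁) (e := e t₁) (N := K) hp1.1 hK2
      have h4 : (((Icc 1 K).filter (fun n =>
        (H t₁ * n + e t₁).Prime ∧ (H t₁ * n + e t₁).Prime)).card : ℝ) =
        (((Icc 1 K).filter (fun n => (H t₁ * n + e t₁).Prime)).card : ℝ) := by
        simp only [and_self]
      rw [h4]
      have h5 : 20 * GG (H t₁) * (K / Real.log K) ≤ 40 * GG (H t₁) ^ 6 * (N / Real.log N) := by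
        have h6' := GG_le_six (n := H t₁) hp1.1
        calc 20 * GG (H t₁) * (K / Real.log K) ≤ 20 * GG (H t₁) * (2 * (N / Real.log N)) := by gcongr
          _ ≤ 20 * GG (H t₁) ^ 6 * (2 * (N / Real.log N)) := by gcongr
          _ = _ := by ring
      linarith
    · rw [if_neg h12, zero_add]
      have hcop : ∀ t ∈ T, Nat.Coprime (H t) (e t) := by
        intro t ht
        have h1 := hee t ht
        have h2 : IsCoprime (H t : ℤ) (G t) := by
          rw [Int.isCoprime_iff_gcd_eq_one]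
          exact (hTc t ht).2.2.2.1
        have h3 : IsCoprime (H t : ℤ) ((e t : ℕ) : ℤ) := by
          rw [h1]
          have := h2.add_mul_left_right (n0 : ℤ)
          have e3 : G t + H t * (n0 : ℤ) = (H t : ℤ) * n0 + G t := by ring
          rwa [e3] at this
        exact Nat.isCoprime_iff_coprime.1 h3
      have hkey : ((H t₁ * e t₂ : ℕ) : ℤ) - ((H t₂ * e t₁ : ℕ) : ℤ) =
          ((t₁ : ℤ) - t₂) * Rr a b c a₀ b₀ c₀ t₁ t₂ := by
        rw [← det_eq]
        push_cast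
        rw [hee t₁ h₁, hee t₂ h₂, hp1.2.1, hp2.2.1, hp1.2.2.1, hp2.2.2.1]
        ring
      have hne : H t₁ * e t₂ ≠ H t₂ * e t₁ := by
        intro h
        apply h12
        apply hinj t₁ h₁ t₂ h₂
        apply Nat.dvd_antisymm
        · have : H t₁ ∣ H t₂ * e t₁ := ⟨e t₂, h.symm⟩
          exact (hcop t₁ h₁).dvd_of_dvd_mul_right this
        · have : H t₂ ∣ H t₁ * e t₂ := ⟨e t₁, h⟩
          exact (hcop t₂ h₂).dvd_of_dvd_mul_right this
      have h3 := hsv (H t₁) (e t₁) (H t₂) (e t₂) K hp1.1 hp2.1 (hcop t₁ h₁) (hcop t₂ h₂) hne hK2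
      rw [hkey, Int.natAbs_mul] at h3
      have hu : ((t₁ : ℤ) - t₂).natAbs = U t₁ t₂ := by
        rw [hU]
        show ((t₁ : ℤ) - t₂).natAbs = (((1 : ℕ) : ℤ) * t₂ - (t₁ : ℤ)).natAbs
        rw [← Int.natAbs_neg]
        congr 1
        push_cast
        ring
      rw [hu, show (Rr a b c a₀ b₀ c₀ t₁ t₂).natAbs = V t₁ t₂ from rfl] at h3
      set u := U t₁ t₂ with hu'
      set v := V t₁ t₂ with hv'
      have h4 : GG (H t₁ * H t₂ * (u * v)) ≤ GG (H t₁) * GG (H t₂) * (GG u) * GG v := by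
        calc GG (H t₁ * H t₂ * (u * v)) ≤ GG (H t₁ * H t₂) * GG (u * v) := GG_mul_le _ _
          _ ≤ (GG (H t₁) * GG (H t₂)) * (GG u * GG v) := by
              apply mul_le_mul (GG_mul_le _ _) (GG_mul_le _ _) (GG_nonneg _)
              exact mul_nonneg (GG_nonneg _) (GG_nonneg _)
          _ = _ := by ring
      have h5 : GG (H t₁ * H t₂ * (u * v)) ^ 2 ≤ GG (H t₁) ^ 6 * GG (H t₂) ^ 6 + GG u ^ 6 + GG v ^ 6 := by
        have key : ∀ p q r : ℝ, 0 ≤ p → 0 ≤ q → 0 ≤ r → (p * q * r) ^ 2 ≤ p ^ 6 + q ^ 6 + r ^ 6 := by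
          intro p q r hp hq hr
          have key : ∀ u v w : ℝ, 0 ≤ u → 0 ≤ v → 0 ≤ w → u * v * w ≤ u ^ 3 + v ^ 3 + w ^ 3 := by
            intro u v w hu hv hw
            set m := max u (max v w) with hm
            have h1 : u ≤ m := le_max_left _ _
            have h2 : v ≤ m := (le_max_left _ _).trans (le_max_right _ _)
            have h3 : w ≤ m := (le_max_right _ _).trans (le_max_right _ _)
            have hm0 : 0 ≤ m := hu.trans h1
            have h4 : u * v * w ≤ m ^ 3 := by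
              calc u * v * w ≤ m * m * m := by gcongr
                _ = m ^ 3 := by ring
            have hu3 : 0 ≤ u ^ 3 := by positivity
            have hv3 : 0 ≤ v ^ 3 := by positivity
            have hw3 : 0 ≤ w ^ 3 := by positivity
            have h5 : m ^ 3 ≤ u ^ 3 + v ^ 3 + w ^ 3 := by
              rcases max_choice u (max v w) with h | h
              · rw [hm, h]; linarith
              · rcases max_choice v w with h' | h'
                · rw [hm, h, h']; linarith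
                · rw [hm, h, h']; linarith
            exact h4.trans h5
          have := key (p ^ 2) (q ^ 2) (r ^ 2) (by positivity) (by positivity) (by positivity)
          calc (p * q * r) ^ 2 = p ^ 2 * q ^ 2 * r ^ 2 := by ring
            _ ≤ (p ^ 2) ^ 3 + (q ^ 2) ^ 3 + (r ^ 2) ^ 3 := this
            _ = _ := by ring
        have h7 := key (GG (H t₁) * GG (H t₂)) (GG u) (GG v) (mul_nonneg g1 g2) g3 g4
        calc GG (H t₁ * H t₂ * (u * v)) ^ 2 ≤ (GG (H t₁) * GG (H t₂) * (GG u) * GG v) ^ 2 :=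
              pow_le_pow_left₀ (GG_nonneg _) h4 2
          _ ≤ (GG (H t₁) * GG (H t₂)) ^ 6 + GG u ^ 6 + GG v ^ 6 := h7
          _ = _ := by rw [mul_pow]
      calc _ ≤ C₃ * GG (H t₁ * H t₂ * (u * v)) ^ 2 * K / Real.log K ^ 2 := h3
        _ = C₃ * GG (H t₁ * H t₂ * (u * v)) ^ 2 * (K / Real.log K ^ 2) := by ring
        _ ≤ C₃ * (GG (H t₁) ^ 6 * GG (H t₂) ^ 6 + GG u ^ 6 + GG v ^ 6) * (4 * (N / Real.log N ^ 2)) := by
            gcongr
  -- moments
  have hTH : ∀ t ∈ T, 1 ≤ H t ∧ ((H t : ℕ) : ℤ) = (a : ℤ) * t ^ 2 + b * t + c := fun t ht => ⟨(hTc t ht).1, (hTc t ht).2.1⟩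
  have hmH := h6 x H T hT hTH
  have hm1 : ∀ t₁ ∈ T, ∑ t₂ ∈ T, GG (U t₁ t₂) ^ 6 ≤ C₂ * x := by
    intro t₁ h₁
    have h₁' := mem_Icc.1 (hT h₁)
    have h := hmom x 1 (t₁ : ℤ) hx1 one_pos (by
      intro t ht
      rw [mem_Icc] at ht
      have h2 : (((1 : ℕ) : ℤ) * t - (t₁ : ℤ)).natAbs ≤ x := by
        push_cast; omega
      have h3 : ((((((1 : ℕ) : ℤ) * t - (t₁ : ℤ)).natAbs : ℕ)) : ℝ) ≤ x := by exact_mod_cast h2
      have hxe : (x : ℝ) + 1 ≤ Real.exp x := Real.add_one_le_exp _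
      have h4 : Real.exp x ≤ Real.exp (4 * x) := Real.exp_le_exp.2 (by linarith)
      linarith)
    have e1 : Nat.gcd 1 ((t₁ : ℤ).natAbs) = 1 := Nat.gcd_one_left _
    have e2 : GG 1 = 1 := by simp [GG]
    rw [e1, e2, one_pow, mul_one] at h
    refine (sum_le_sum_of_subset_of_nonneg hT fun t _ _ => ?_).trans h
    have := GG_nonneg (U t₁ t)
    positivity
  have hm2 : ∀ t₁ ∈ T, ∑ t₂ ∈ T, GG (V t₁ t₂) ^ 6 ≤ C₄ * x := by
    intro t₁ h₁
    refine (sum_le_sum_of_subset_of_nonneg hT fun t _ _ => ?_).trans (hmR x hxx₀ t₁ (hT h₁))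
    have := GG_nonneg (V t₁ t)
    positivity
  have h1 := sum_le_sum fun t₁ h₁ => sum_le_sum fun t₂ h₂ => hpair t₁ h₁ t₂ h₂
  refine h1.trans ?_
  simp only [sum_add_distrib]
  have hdiag : ∑ t₁ ∈ T, ∑ t₂ ∈ T, (if t₁ = t₂ then 40 * GG (H t₁) ^ 6 * (N / Real.log N) else 0) ≤
      40 * C₁ * (x ^ 2 * (N / Real.log N ^ 2)) := by
    have h2 : ∀ t₁ ∈ T, ∑ t₂ ∈ T, (if t₁ = t₂ then 40 * GG (H t₁) ^ 6 * (N / Real.log N) else 0) =
        40 * GG (H t₁) ^ 6 * (N / Real.log N) := by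
      intro t₁ h₁
      rw [sum_ite_eq, if_pos h₁]
    rw [sum_congr rfl h2, ← sum_mul, ← mul_sum]
    have h1 : (N : ℝ) / Real.log N ≤ x * (N / Real.log N ^ 2) := by
      have e1 : (N : ℝ) / Real.log N = Real.log N * (N / Real.log N ^ 2) := by
        field_simp
      rw [e1]
      gcongr
    calc (40 * ∑ t₁ ∈ T, GG (H t₁) ^ 6) * (N / Real.log N)
        ≤ 40 * (C₁ * x) * (N / Real.log N) := by gcongr
      _ ≤ 40 * (C₁ * x) * (x * (N / Real.log N ^ 2)) := by gcongr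
      _ = _ := by ring
  have hTx : (#T : ℝ) ≤ x := by
    have := card_le_card hT
    rw [Nat.card_Icc, Nat.add_sub_cancel] at this
    exact_mod_cast this
  have hoff : ∑ t₁ ∈ T, ∑ t₂ ∈ T,
        C₃ * ((GG (H t₁) ^ 6 * GG (H t₂) ^ 6) + GG (U t₁ t₂) ^ 6 +
        GG (V t₁ t₂) ^ 6) * (4 * (N / Real.log N ^ 2)) ≤
      C₃ * (C₁ ^ 2 + C₂ + C₄) * 4 * (x ^ 2 * (N / Real.log N ^ 2)) := by
    have h1 : ∀ t₁ ∈ T, ∑ t₂ ∈ T,
        C₃ * ((GG (H t₁) ^ 6 * GG (H t₂) ^ 6) + GG (U t₁ t₂) ^ 6 +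
        GG (V t₁ t₂) ^ 6) * (4 * (N / Real.log N ^ 2)) ≤
        C₃ * (GG (H t₁) ^ 6 * (C₁ * x) + C₂ * x + C₄ * x) * (4 * (N / Real.log N ^ 2)) := by
      intro t₁ h₁
      rw [← sum_mul, ← mul_sum, sum_add_distrib, sum_add_distrib, ← mul_sum]
      have := GG_nonneg (H t₁)
      have a1 := hm1 t₁ h₁
      have a2 := hm2 t₁ h₁
      gcongr
    refine (sum_le_sum h1).trans ?_
    rw [← sum_mul, ← mul_sum, sum_add_distrib, sum_add_distrib, ← sum_mul, sum_const, sum_const,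
      nsmul_eq_mul, nsmul_eq_mul]
    calc _ ≤ C₃ * ((C₁ * x) * (C₁ * x) + x * (C₂ * x) + x * (C₄ * x)) *
          (4 * (N / Real.log N ^ 2)) := by gcongr
      _ = _ := by ring
  calc _ ≤ 40 * C₁ * (x ^ 2 * (N / Real.log N ^ 2)) +
        C₃ * (C₁ ^ 2 + C₂ + C₄) * 4 * (x ^ 2 * (N / Real.log N ^ 2)) := by
        exact add_le_add hdiag hoff
    _ = _ := by ring

end Pool.Agent.X56.PN
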