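import Pool.Agent.X56.PN.BV1
import Pool.Agent.W218.HF.First

set_option autoImplicit false

/-!
From log-weighted sums at four points to primes in a window.
-/

open Finset Filter Topology

namespace Pool.Agent.X56.PN

open Pool.Agent.H410R2 Pool.Agent.Helper112 Pool.Agent.Erdos456

/-- the total weight of a window -/
noncomputable def Sm (X₁ X₂ lam : ℝ) (q r : ℕ) : ℝ :=
  psiLogAP X₂ q r - psiLogAP (X₂ / lam) q r - psiLogAP (lam * X₁) q r + psiLogAP X₁ q r

noncomputable def Sm1 (X₁ X₂ lam : ℝ) : ℝ :=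
  psiLog1 X₂ - psiLog1 (X₂ / lam) - psiLog1 (lam * X₁) + psiLog1 X₁

lemma clamp_le (A B l u : ℝ) (hl : 0 ≤ l) (h : A + l ≤ B - l) :
    max 0 (B - u) - max 0 (B - l - u) - max 0 (A + l - u) + max 0 (A - u) ≤ if A < u ∧ u ≤ B then l else 0 := by
  rcases le_total (B - u) 0 with h1 | h1 <;> rcases le_total (B - l - u) 0 with h2 | h2 <;>
  rcases le_total (A + l - u) 0 with h3 | h3 <;> rcases le_total (A - u) 0 with h4 | h4 <;>
  simp only [max_eq_left, max_eq_right, h1, h2, h3, h4] <;> split_ifs with h5 <;>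
  first
  | linarith
  | (rw [not_and_or, not_lt, not_le] at h5; rcases h5 with h5 | h5 <;> linarith)

lemma clamp_ge (A B l u : ℝ) (hl : 0 ≤ l) (h : A + l ≤ B - l) :
    (if A + l ≤ u ∧ u ≤ B - l then l else 0) ≤
    max 0 (B - u) - max 0 (B - l - u) - max 0 (A + l - u) + max 0 (A - u) := by
  rcases le_total (B - u) 0 with h1 | h1 <;> rcases le_total (B - l - u) 0 with h2 | h2 <;>
  rcases le_total (A + l - u) 0 with h3 | h3 <;> rcases le_total (A - u) 0 with h4 | h4 <;>
  simp only [max_eq_left, max_eq_right, h1, h2, h3, h4] <;> split_ifs with h5 <;>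
  linarith

lemma psiLogAP_eq (X : ℝ) (hX : 0 < X) (M q r : ℕ) (hM : X ≤ M) : psiLogAP X q r =
    ∑ n ∈ (Icc 1 M).filter (fun n => n ≡ r [MOD q]), ArithmeticFunction.vonMangoldt n *
      max 0 (Real.log X - Real.log n) := by
  unfold psiLogAP
  have hsub : (Icc 1 ⌊X⌋₊).filter (fun n => n ≡ r [MOD q]) ⊆ (Icc 1 M).filter (fun n => n ≡ r [MOD q]) := by
    apply filter_subset_filter
    apply Icc_subset_Icc le_rfl
    have h1 : ((⌊X⌋₊ : ℕ) : ℝ) ≤ M := (Nat.floor_le hX.le).trans hM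
    exact_mod_cast h1
  rw [← sum_subset hsub]
  · apply sum_congr rfl
    intro n hn
    rw [mem_filter, mem_Icc] at hn
    have hn0 : (0 : ℝ) < n := by exact_mod_cast (by omega : 0 < n)
    have hnX : (n : ℝ) ≤ X := le_trans (by exact_mod_cast hn.1.2) (Nat.floor_le hX.le)
    rw [Real.log_div hX.ne' hn0.ne', max_eq_right]
    have := Real.log_le_log hn0 hnX
    linarith
  · intro n hn hn2
    rw [mem_filter, mem_Icc] at hn hn2
    have hn0 : (0 : ℝ) < n := by exact_mod_cast (by omega : 0 < n)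
    have hnX : X < n := by
      by_contra hcon
      push Not at hcon
      exact hn2 ⟨⟨hn.1.1, Nat.le_floor hcon⟩, hn.2⟩
    rw [max_eq_left, mul_zero]
    have := Real.log_le_log hX hnX.le
    linarith

lemma psiLog1_eq (X : ℝ) : psiLog1 X = psiLogAP X 1 0 := by
  unfold psiLog1 psiLogAP
  apply sum_congr _ fun _ _ => rfl
  rw [filter_true_of_mem]
  intro n _
  exact Nat.modEq_one

lemma Sm1_eq (X₁ X₂ lam : ℝ) : Sm1 X₁ X₂ lam = Sm X₁ X₂ lam 1 0 := by
  unfold Sm1 Sm
  simp only [psiLog1_eq]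

lemma Sm_sum (X₁ X₂ : ℕ) (hX₁ : 1 ≤ X₁) (lam : ℝ) (hlam : 1 < lam) (h : lam * X₁ ≤ X₂ / lam) (q r : ℕ) :
    Sm X₁ X₂ lam q r = ∑ n ∈ (Icc 1 X₂).filter (fun n => n ≡ r [MOD q]), ArithmeticFunction.vonMangoldt n *
      (max 0 (Real.log X₂ - Real.log n) - max 0 (Real.log X₂ - Real.log lam - Real.log n) -
        max 0 (Real.log X₁ + Real.log lam - Real.log n) + max 0 (Real.log X₁ - Real.log n)) := by
  have h1 : (0 : ℝ) < X₁ := by exact_mod_cast hX₁
  have h0 : (0 : ℝ) < lam := by linarith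
  have h2 : (X₂ : ℝ) / lam ≤ X₂ := div_le_self (by positivity) hlam.le
  have h3 : (X₁ : ℝ) ≤ lam * X₁ := by nlinarith
  have h4 : (0 : ℝ) < X₂ := by linarith
  unfold Sm
  rw [psiLogAP_eq X₂ h4 X₂ q r le_rfl, psiLogAP_eq (X₂ / lam) (by positivity) X₂ q r h2,
    psiLogAP_eq (lam * X₁) (by positivity) X₂ q r (h.trans h2), psiLogAP_eq X₁ h1 X₂ q r (h3.trans (h.trans h2)),
    ← sum_sub_distrib, ← sum_sub_distrib, ← sum_add_distrib]
  apply sum_congr rfl
  intro n _
  rw [Real.log_div h4.ne' h0.ne', Real.log_mul h0.ne' h1.ne', add_comm (Real.log lam)]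
  ring

lemma Sm_log (X₁ X₂ : ℕ) (hX₁ : 1 ≤ X₁) (lam : ℝ) (hlam : 1 < lam) (h : lam * X₁ ≤ X₂ / lam) :
    Real.log X₁ + Real.log lam ≤ Real.log X₂ - Real.log lam := by
  have h1 : (0 : ℝ) < X₁ := by exact_mod_cast hX₁
  have h0 : (0 : ℝ) < lam := by linarith
  have h5 : 0 < (X₂ : ℝ) / lam := lt_of_lt_of_le (by positivity) h
  have h4 : (0 : ℝ) < X₂ := by
    by_contra hcon
    push Not at hcon
    have := div_nonpos_of_nonpos_of_nonneg hcon h0.le
    linarith
  have h2 := Real.log_le_log (by positivity) h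
  rw [Real.log_div h4.ne' h0.ne', Real.log_mul h0.ne' h1.ne'] at h2
  linarith

/-- upper bound: primes of the window in the progression -/
theorem Sm_le (X₁ X₂ : ℕ) (hX₁ : 1 ≤ X₁) (lam : ℝ) (hlam : 1 < lam) (h : lam * X₁ ≤ X₂ / lam) (q r : ℕ) :
    Sm X₁ X₂ lam q r ≤ Real.log lam * (Real.log X₂ *
      ((((Ioc X₁ X₂).filter (fun p => p.Prime ∧ p ≡ r [MOD q])).card : ℕ) : ℝ) +
      2 * Real.sqrt X₂ * Real.log X₂) := by
  classical
  have hl : 0 ≤ Real.log lam := Real.log_nonneg hlam.le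
  have hcl := Sm_log X₁ X₂ hX₁ lam hlam h
  have h1 : (0 : ℝ) < X₁ := by exact_mod_cast hX₁
  have h0 : (0 : ℝ) < lam := by linarith
  have hX12 : (X₁ : ℝ) ≤ X₂ := by
    have h2 : (X₂ : ℝ) / lam ≤ X₂ := div_le_self (by positivity) hlam.le
    have h3 : (X₁ : ℝ) ≤ lam * X₁ := by nlinarith
    linarith
  have hX2 : (1 : ℝ) ≤ X₂ := le_trans (by exact_mod_cast hX₁) hX12
  rw [Sm_sum X₁ X₂ hX₁ lam hlam h]
  have hterm : ∀ n ∈ (Icc 1 X₂).filter (fun n => n ≡ r [MOD q]), ArithmeticFunction.vonMangoldt n *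
      (max 0 (Real.log X₂ - Real.log n) - max 0 (Real.log X₂ - Real.log lam - Real.log n) -
        max 0 (Real.log X₁ + Real.log lam - Real.log n) + max 0 (Real.log X₁ - Real.log n)) ≤
      Real.log lam * (if X₁ < n then ArithmeticFunction.vonMangoldt n else 0) := by
    intro n hn
    rw [mem_filter, mem_Icc] at hn
    have hn0 : (0 : ℝ) < n := by exact_mod_cast (by omega : 0 < n)
    have h2 := clamp_le (Real.log X₁) (Real.log X₂) (Real.log lam) (Real.log n) hl hcl
    have hΛ : 0 ≤ ArithmeticFunction.vonMangoldt n := ArithmeticFunction.vonMangoldt_nonneg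
    have h3 := mul_le_mul_of_nonneg_left h2 hΛ
    refine h3.trans (le_of_eq ?_)
    have h4 : (Real.log X₁ < Real.log n ∧ Real.log n ≤ Real.log X₂) ↔ X₁ < n := by
      rw [Real.log_lt_log_iff h1 hn0, Real.log_le_log_iff hn0 (by linarith)]
      constructor
      · intro h; exact_mod_cast h.1
      · intro h; exact ⟨by exact_mod_cast h, by exact_mod_cast hn.1.2⟩
    by_cases h5 : X₁ < n
    · rw [if_pos h5, if_pos (h4.2 h5)]; ring
    · rw [if_neg h5, if_neg (fun h => h5 (h4.1 h))]; ring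
  refine (sum_le_sum hterm).trans ?_
  rw [← mul_sum]
  apply mul_le_mul_of_nonneg_left _ hl
  rw [← sum_filter]
  -- primes and nonprimes
  rw [← sum_filter_add_sum_filter_not _ (fun n : ℕ => n.Prime)]
  apply add_le_add
  · calc _ ≤ ∑ n ∈ ((Icc 1 X₂).filter (fun n => n ≡ r [MOD q])).filter (fun n => X₁ < n) |>.filter (fun n => n.Prime),
          Real.log X₂ := by
          apply sum_le_sum
          intro n hn
          rw [mem_filter, mem_filter, mem_filter, mem_Icc] at hn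
          rw [ArithmeticFunction.vonMangoldt_apply_prime hn.2]
          apply Real.log_le_log
          · exact_mod_cast (by omega : 0 < n)
          · exact_mod_cast hn.1.1.1.2
      _ ≤ _ := by
          rw [sum_const, nsmul_eq_mul, mul_comm]
          apply mul_le_mul_of_nonneg_left _ (Real.log_nonneg hX2)
          have : ((((Icc 1 X₂).filter (fun n => n ≡ r [MOD q])).filter (fun n => X₁ < n)).filter (fun n => n.Prime)) ⊆
              (Ioc X₁ X₂).filter (fun p => p.Prime ∧ p ≡ r [MOD q]) := by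
            intro n hn
            rw [mem_filter, mem_filter, mem_filter, mem_Icc] at hn
            rw [mem_filter, mem_Ioc]
            exact ⟨⟨hn.1.2, hn.1.1.1.2⟩, hn.2, hn.1.1.2⟩
          exact_mod_cast card_le_card this
  · have h6 := Chebyshev.psi_sub_theta_le (x := (X₂ : ℝ)) hX2
    rw [Chebyshev.psi_sub_theta_eq_sum_not_prime, Nat.floor_natCast] at h6
    refine le_trans ?_ h6
    apply sum_le_sum_of_subset_of_nonneg
    · intro n hn
      rw [mem_filter, mem_filter, mem_filter, mem_Icc] at hn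
      rw [mem_filter, mem_Ioc]
      exact ⟨⟨by omega, hn.1.1.1.2⟩, hn.2⟩
    · intro n _ _
      exact ArithmeticFunction.vonMangoldt_nonneg

/-- lower bound for the total -/
theorem Sm1_ge (X₁ X₂ Y₁ Y₂ : ℕ) (hX₁ : 1 ≤ X₁) (lam : ℝ) (hlam : 1 < lam) (h : lam * X₁ ≤ X₂ / lam)
    (hY₁ : lam * X₁ ≤ Y₁) (hY₂ : (Y₂ : ℝ) ≤ X₂ / lam) (hY : Y₁ ≤ Y₂) :
    Real.log lam * (Real.log X₁ * ((Nat.primeCounting Y₂ : ℝ) - Nat.primeCounting Y₁)) ≤ Sm1 X₁ X₂ lam := by
  classical
  have hl : 0 ≤ Real.log lam := Real.log_nonneg hlam.le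
  have hcl := Sm_log X₁ X₂ hX₁ lam hlam h
  have h1 : (0 : ℝ) < X₁ := by exact_mod_cast hX₁
  have h0 : (0 : ℝ) < lam := by linarith
  have h3 : (X₁ : ℝ) ≤ lam * X₁ := by nlinarith
  have hX2a : (X₂ : ℝ) / lam ≤ X₂ := div_le_self (by positivity) hlam.le
  have hX2 : (0 : ℝ) < X₂ := by linarith
  rw [Sm1_eq, Sm_sum X₁ X₂ hX₁ lam hlam h]
  have hterm : ∀ n ∈ (Icc 1 X₂).filter (fun n => n ≡ 0 [MOD 1]), Real.log lam *
      (if n.Prime ∧ Y₁ < n ∧ n ≤ Y₂ then Real.log X₁ else 0) ≤ ArithmeticFunction.vonMangoldt n *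
      (max 0 (Real.log X₂ - Real.log n) - max 0 (Real.log X₂ - Real.log lam - Real.log n) -
        max 0 (Real.log X₁ + Real.log lam - Real.log n) + max 0 (Real.log X₁ - Real.log n)) := by
    intro n hn
    rw [mem_filter, mem_Icc] at hn
    have hn0 : (0 : ℝ) < n := by exact_mod_cast (by omega : 0 < n)
    have h2 := clamp_ge (Real.log X₁) (Real.log X₂) (Real.log lam) (Real.log n) hl hcl
    have hΛ : 0 ≤ ArithmeticFunction.vonMangoldt n := ArithmeticFunction.vonMangoldt_nonneg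
    have h4 := mul_le_mul_of_nonneg_left h2 hΛ
    refine le_trans ?_ h4
    by_cases h5 : n.Prime ∧ Y₁ < n ∧ n ≤ Y₂
    · have h6 : lam * X₁ ≤ n := hY₁.trans (by exact_mod_cast h5.2.1.le)
      have h7 : (n : ℝ) ≤ X₂ / lam := le_trans (by exact_mod_cast h5.2.2) hY₂
      have h8 : Real.log X₁ + Real.log lam ≤ Real.log n := by
        have := Real.log_le_log (by positivity) h6
        rw [Real.log_mul h0.ne' h1.ne'] at this
        linarith
      have h9 : Real.log n ≤ Real.log X₂ - Real.log lam := by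
        have := Real.log_le_log hn0 h7
        rwa [Real.log_div hX2.ne' h0.ne'] at this
      rw [if_pos h5, if_pos ⟨h8, h9⟩, ArithmeticFunction.vonMangoldt_apply_prime h5.1, mul_comm]
      apply mul_le_mul_of_nonneg_right _ hl
      linarith
    · rw [if_neg h5, mul_zero]
      apply mul_nonneg hΛ
      split_ifs <;> simp [hl]
  refine le_trans (le_of_eq ?_) (sum_le_sum hterm)
  rw [← mul_sum, ← sum_filter, sum_const, nsmul_eq_mul]
  congr 1
  rw [mul_comm]
  congr 1
  have h5 : ((Icc 1 X₂).filter (fun n => n ≡ 0 [MOD 1])).filter (fun n => n.Prime ∧ Y₁ < n ∧ n ≤ Y₂) =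
      (Ioc Y₁ Y₂).filter Nat.Prime := by
    ext n
    simp only [mem_filter, mem_Icc, mem_Ioc]
    constructor
    · rintro ⟨-, h6, h7, h8⟩; exact ⟨⟨h7, h8⟩, h6⟩
    · rintro ⟨⟨h7, h8⟩, h6⟩
      have h9 : Y₂ ≤ X₂ := by
        have : (Y₂ : ℝ) ≤ X₂ := hY₂.trans hX2a
        exact_mod_cast this
      exact ⟨⟨⟨h6.one_le, h8.trans h9⟩, Nat.modEq_one⟩, h6, h7, h8⟩
  rw [h5]
  have h6 : Nat.primeCounting Y₂ = Nat.primeCounting Y₁ + ((Ioc Y₁ Y₂).filter Nat.Prime).card := by
    have e : ∀ y : ℕ, Nat.primeCounting y = ((Icc 1 y).filter Nat.Prime).card := by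
      intro y
      rw [Nat.primeCounting, Nat.primeCounting', Nat.count_eq_card_filter_range]
      congr 1
      ext p
      simp only [mem_filter, mem_range, mem_Icc]
      constructor
      · rintro ⟨h1, h2⟩; exact ⟨⟨h2.one_le, by omega⟩, h2⟩
      · rintro ⟨⟨_, h1⟩, h2⟩; exact ⟨by omega, h2⟩
    rw [e, e, ← card_union_of_disjoint]
    · congr 1
      rw [← filter_union]
      congr 1
      ext n
      simp only [mem_union, mem_Icc, mem_Ioc]
      omega
    · rw [disjoint_left]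
      intro n hn hn2
      rw [mem_filter, mem_Icc] at hn
      rw [mem_filter, mem_Ioc] at hn2
      omega
  rw [h6]
  push_cast
  ring

end Pool.Agent.X56.PN
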